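/-
ROW Up2 (about 90 lines). Upper tail for disjoint sets of elements (generalisation of `Pool.Agent.H9.KR.upper`, copy that proof).
PROOF. Let `τ = ⌈t⌉₊ ≥ 1`. If `t ≤ #{i ∈ I | A i ⊆ R o}` then some `J ∈ powersetCard τ I` has `J.biUnion A ⊆ R o`, which has probability `p ^ (J.biUnion A).card = q ^ τ` (hit; the `A i` are disjoint of size `d`, `q = p ^ d`). So `pr ≤ (I.card.choose τ) * q ^ τ`
and the rest is as in `upper` with `p` replaced by `q = p ^ d`.
-/
import Pool.Agent.H9.KR.Defs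
import Pool.Agent.H82.RG.Prob

set_option autoImplicit false
set_option linter.unusedSectionVars false

open Finset

namespace Pool.Agent.H49.RG

open Pool.Agent.H9.KR

variable {Ω E : Type} [Fintype Ω] [DecidableEq E]

open Classical in
theorem upper2 {w : Ω → ℝ} {R : Ω → Finset E} {E₀ : Finset E} {p : ℝ} (h : RSub w R E₀ p)
    (hp0 : 0 ≤ p) {ι : Type} (I : Finset ι) (A : ι → Finset E) (d : ℕ)
    (hA : ∀ i ∈ I, A i ⊆ E₀) (hd : ∀ i ∈ I, (A i).card = d)
    (hdis : ∀ i ∈ I, ∀ j ∈ I, i ≠ j → Disjoint (A i) (A j)) (t : ℝ) (ht0 : 0 < t)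
    (ht : 8 * (p ^ d * I.card) ≤ t) :
    pr w (fun o => t ≤ ((I.filter (fun i => A i ⊆ R o)).card : ℝ)) ≤ Real.exp (-t) := by
  have h1 := Pool.Agent.H82.RG.rsub_blocks h I A d hA hd hdis
  have h2 := upper h1 (pow_nonneg hp0 _) I (Subset.refl _) t ht0 ht
  refine le_trans (pr_mono h.nonneg fun o ho => ?_) h2
  refine ho.trans (Nat.cast_le.2 (card_le_card fun i hi => ?_))
  rw [mem_filter] at hi
  rw [mem_inter, mem_filter]
  exact ⟨hi, hi.1⟩

end Pool.Agent.H49.RG
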