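/-
ROW Dsp (about 150 lines). Dispersion in the random graph. Uses `Pool.Agent.H9.KR.lower` as stated (and `rsub_gnp`, `mem_ed`, `mem_pairs`).
PROOF. For fixed `T` (`#T = m`), `x : Fin t → Fin L → Fin N`, `y : Fin t → Finset (Fin N)` as in the event let `A (i,i') = (T ×ˢ y i').image (fun (j,v) => s(x i j, v))`, `(i,i') : Fin t × Fin t`. `x i j ∈ V j`, `v ∈ Out`, and `Out` is disjoint from the blocks, so
 `s(x i j, v) = s(x i2 j2, v2)` iff `x i j = x i2 j2` and `v = v2`; then `j = j2` (disjoint blocks) and `i = i2` (different letters in every row) and `i' = i2'` (`y` pairwise disjoint). So `A` is a family of pairwise disjoint sets of `m * g` non-diagonal pairs, and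
 `A (i,i') ⊆ ed G ↔ Ad G T (x i) (y i')`. `lower` with `q = p^(m g)`, `I = univ` (card `t^2`), `y = 0`: `pr (no A (i,i') ⊆ ed G) ≤ exp (-(p^(m g) t^2/8))`. Union bound: at most `2^L` sets `T`, `(N^L)^t` functions `x`, and `(N^g)^t` functions `y` with values in
 `powersetCard g univ` (card `≤ N^g`, `Nat.choose_le_pow`).
-/
import Pool.Agent.H49.RG.Defs
import Pool.Agent.H9.KR.Lo
import Pool.Agent.H9.KR.Gnp
import Pool.Agent.H82.RG.Unif

set_option autoImplicit false
set_option linter.unusedSectionVars false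

open Finset

namespace Pool.Agent.H49.RG

open Pool.Agent.H9.KR

variable {N L : ℕ}

theorem dsp_pr (p : unitInterval) (V : Fin L → Finset (Fin N)) (Out : Finset (Fin N))
    (hV : ∀ i j, i ≠ j → Disjoint (V i) (V j)) (hO : ∀ j, Disjoint Out (V j)) (m g t : ℕ) :
    pr (fun G : SimpleGraph (Fin N) => (SimpleGraph.binomialRandom (Fin N) p).real {G})
      (fun G => ∃ T : Finset (Fin L), T.card = m ∧ ∃ x : Fin t → Fin L → Fin N,
        (∀ i, ∀ j ∈ T, x i j ∈ V j) ∧ (∀ i i', i ≠ i' → ∀ j ∈ T, x i j ≠ x i' j) ∧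
        ∃ y : Fin t → Finset (Fin N), (∀ i, y i ⊆ Out) ∧ (∀ i, (y i).card = g) ∧
        (∀ i i', i ≠ i' → Disjoint (y i) (y i')) ∧ ∀ i i', ¬ Ad G T (x i) (y i')) ≤
      2 ^ L * ((N : ℝ) ^ (L + g)) ^ t * Real.exp (-((p : ℝ) ^ (m * g) * (t : ℝ) ^ 2 / 8)) := by
  classical
  have h := rsub_gnp (V := Fin N) p
  have hw := h.nonneg
  have hbd0 : (0 : ℝ) ≤ 2 ^ L * ((N : ℝ) ^ (L + g)) ^ t * Real.exp (-((p : ℝ) ^ (m * g) * (t : ℝ) ^ 2 / 8)) := by
    positivity
  rcases Nat.eq_zero_or_pos t with rfl | ht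
  · refine (h.pr_le_one _).trans ?_
    simp only [pow_zero, mul_one, Nat.cast_zero]
    norm_num
    exact one_le_pow₀ (by norm_num)
  rcases Nat.eq_zero_or_pos (m * g) with hmg | hmg
  · have h2 : pr (fun G : SimpleGraph (Fin N) => (SimpleGraph.binomialRandom (Fin N) p).real {G})
      (fun G => ∃ T : Finset (Fin L), T.card = m ∧ ∃ x : Fin t → Fin L → Fin N,
        (∀ i, ∀ j ∈ T, x i j ∈ V j) ∧ (∀ i i', i ≠ i' → ∀ j ∈ T, x i j ≠ x i' j) ∧
        ∃ y : Fin t → Finset (Fin N), (∀ i, y i ⊆ Out) ∧ (∀ i, (y i).card = g) ∧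
        (∀ i i', i ≠ i' → Disjoint (y i) (y i')) ∧ ∀ i i', ¬ Ad G T (x i) (y i')) = 0 := by
      unfold pr
      refine sum_eq_zero fun o _ => ?_
      rw [if_neg]
      rintro ⟨T, hT, x, _, _, y, _, hy, _, hA⟩
      refine hA ⟨0, ht⟩ ⟨0, ht⟩ fun j hj v hv => ?_
      rcases Nat.mul_eq_zero.1 hmg with h0 | h0
      · rw [h0, card_eq_zero] at hT
        rw [hT] at hj
        exact absurd hj (notMem_empty j)
      · have h3 := hy ⟨0, ht⟩
        rw [h0, card_eq_zero] at h3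
        rw [h3] at hv
        exact absurd hv (notMem_empty v)
    rw [h2]
    exact hbd0
  · have h1 := pr_exists_le_card hw (univ : Finset (Finset (Fin L)))
      (fun T G => T.card = m ∧ ∃ x : Fin t → Fin L → Fin N,
        (∀ i, ∀ j ∈ T, x i j ∈ V j) ∧ (∀ i i', i ≠ i' → ∀ j ∈ T, x i j ≠ x i' j) ∧
        ∃ y : Fin t → Finset (Fin N), (∀ i, y i ⊆ Out) ∧ (∀ i, (y i).card = g) ∧
        (∀ i i', i ≠ i' → Disjoint (y i) (y i')) ∧ ∀ i i', ¬ Ad G T (x i) (y i'))
      (((N : ℝ) ^ (L + g)) ^ t * Real.exp (-((p : ℝ) ^ (m * g) * (t : ℝ) ^ 2 / 8))) fun T _ => ?_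
    · refine (pr_mono hw ?_).trans (h1.trans (le_of_eq ?_))
      · rintro G ⟨T, h2⟩
        exact ⟨T, mem_univ _, h2⟩
      · rw [card_univ, Fintype.card_finset, Fintype.card_fin]
        push_cast
        ring
    · by_cases hT : T.card = m
      · have h3 := Pool.Agent.H82.RG.disp_unif h p.2.1 p.2.2 V hV T t g (fun u v huv => mem_pairs.2 huv)
          (by rw [hT]; exact hmg)
        rw [Fintype.card_fin, hT, ← mul_pow, ← pow_add] at h3
        refine le_trans (pr_mono hw ?_) h3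
        rintro G ⟨_, x, hx, hxd, y, hyO, hyc, hyd, hA⟩
        refine ⟨x, y, hx, hxd, hyc, hyd, fun i j _ => (hO j).symm.mono_right (hyO i), fun r i => ?_⟩
        by_contra hcon
        push Not at hcon
        exact hA r i fun j hj v hv => mem_ed.1 (hcon j hj v hv)
      · have h2 : pr (fun G : SimpleGraph (Fin N) => (SimpleGraph.binomialRandom (Fin N) p).real {G})
          (fun G => T.card = m ∧ ∃ x : Fin t → Fin L → Fin N,
            (∀ i, ∀ j ∈ T, x i j ∈ V j) ∧ (∀ i i', i ≠ i' → ∀ j ∈ T, x i j ≠ x i' j) ∧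
            ∃ y : Fin t → Finset (Fin N), (∀ i, y i ⊆ Out) ∧ (∀ i, (y i).card = g) ∧
            (∀ i i', i ≠ i' → Disjoint (y i) (y i')) ∧ ∀ i i', ¬ Ad G T (x i) (y i')) = 0 := by
          unfold pr
          refine sum_eq_zero fun o _ => ?_
          rw [if_neg fun hh => hT hh.1]
        rw [h2]
        positivity

end Pool.Agent.H49.RG
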