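/-
ROW Rx (about 200 lines). With high probability all players are OK. Uses reg_pr, dsp_pr, real_eq_pr, pr_or_le, pr_exists_le_card as stated.
`Vb R n N a j`: the vertices `v` with `v / n = a + R j`; `n (R L) ≤ N`.
PROOF. dis, out, card, out_card are deterministic: `a + R j` determines `(a, j)` for `a < R`; `#{v < N | v / n = i} = n` for `(i+1) n ≤ N` (`i < R L`); `Out.card ≤ N = No`. So if some player is not OK then the event of reg_pr holds for
 `Bs = {Vb a j}` (`≤ R L ≤ N` blocks), `s = 8L`, or for some `a, m, g` (`1≤m≤m0`, `1≤g≤w`) the event of dsp_pr with `t = c.t g m`, `V = V a`, `Out = Out a`.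
 reg: `n p^(8L) ≥ √n` (from `1 ≤ n p^(16 L)`), so it is at most `2 N (N+1)^(8L) exp(-√n/8) ≤ 1/(2N)` by hn2.
 dsp: `t = ⌊(q/p^g)^m/2⌋ ≥ (q/p^g)^m/4` (as `(q/p^g)^m ≥ 2`), so `p^(mg) t ≥ q^m/4 ≥ q/4`, `p^(mg) t^2/8 ≥ t q/32 ≥ 2 t ((L+w+1) log N + L)` by hq; total exponent `L log 2 + t (L+g) log N - 2 t ((L+w+1) log N + L) ≤ -(L+w+2) log N ≤ -3 log N` (`t ≥ 1`),
 so each is `≤ N^(-3)` and there are at most `R m0 w ≤ N/4`.. (hsz) of them: total `≤ 1/(4 N^2)·.. ≤ 1/(2N)`.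
-/
import Pool.Agent.H49.RG.Mp
import Pool.Agent.H49.RG.Reg
import Pool.Agent.H49.RG.Dsp

set_option autoImplicit false
set_option linter.unusedSectionVars false

open Finset

namespace Pool.Agent.H49.RG

open Pool.Agent.H9.KR

variable {R L N : ℕ}

/-- The block of row `j` of player `a`. -/
def Vb (R n N : ℕ) (a : ℕ) (j : ℕ) : Finset (Fin N) :=
  univ.filter (fun v => v.val / n = a + R * j)

theorem Rx_mem {a j : ℕ} {n : ℕ} {v : Fin N} : v ∈ Vb R n N a j ↔ v.val / n = a + R * j := by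
  simp [Vb]

theorem Rx_inj {a a' j j' : ℕ} (ha : a < R) (ha' : a' < R) (h : a + R * j = a' + R * j') : a = a' ∧ j = j' := by
  have h1 : a = a' := by
    have := congrArg (· % R) h
    simpa [Nat.add_mul_mod_self_left, Nat.mod_eq_of_lt ha, Nat.mod_eq_of_lt ha'] using this
  subst h1
  exact ⟨rfl, Nat.eq_of_mul_eq_mul_left (Nat.lt_of_le_of_lt (Nat.zero_le _) ha) (Nat.add_left_cancel h)⟩

theorem Rx_dis {a a' j j' n : ℕ} (ha : a < R) (ha' : a' < R) (h : a ≠ a' ∨ j ≠ j') :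
    Disjoint (Vb R n N a j) (Vb R n N a' j') := by
  rw [disjoint_left]
  intro v hv hv'
  rw [Rx_mem] at hv hv'
  obtain ⟨h1, h2⟩ := Rx_inj ha ha' (hv.symm.trans hv')
  rcases h with h | h
  · exact h h1
  · exact h h2

theorem Rx_card {a j n : ℕ} (hn : 0 < n) (h : (a + R * j + 1) * n ≤ N) : (Vb R n N a j).card = n := by
  set i := a + R * j with hi
  have h1 : Vb R n N a j = (univ : Finset (Fin n)).map
      ⟨fun x : Fin n => (⟨i * n + x.val, by
        have := x.2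
        have h2 : (i + 1) * n = i * n + n := by ring
        omega⟩ : Fin N), fun x y hxy => by
          have := congrArg Fin.val hxy
          simp only at this
          exact Fin.ext (by omega)⟩ := by
    ext v
    rw [Rx_mem, mem_map]
    constructor
    · intro hv
      have h3 := Nat.div_add_mod v.val n
      have h4 := Nat.mod_lt v.val hn
      rw [hv] at h3
      refine ⟨⟨v.val % n, h4⟩, mem_univ _, ?_⟩
      apply Fin.ext
      simp only [Function.Embedding.coeFn_mk]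
      rw [mul_comm]
      exact h3
    · rintro ⟨x, _, rfl⟩
      simp only [Function.Embedding.coeFn_mk]
      rw [mul_comm, Nat.mul_add_div hn, Nat.div_eq_of_lt x.2, add_zero]
  rw [h1, card_map, card_univ, Fintype.card_fin]

theorem Rx_reg_num (c : Num) (hc : c.OK R L) (hN : c.n * (R * L) ≤ N) 
    (hp16 : 1 ≤ (c.n : ℝ) * c.p ^ (16 * L)) (hn2 : 64 * (L + 1) * Real.log (N + 1) ≤ Real.sqrt c.n) :
    2 * (N : ℝ) * ((N : ℝ) + 1) ^ (8 * L) * Real.exp (-(c.n * c.p ^ (8 * L) / 8)) ≤ 1 / (2 * N) := by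
  have hN1 : 1 ≤ N := by
    have h1 := Nat.mul_pos hc.n_pos (Nat.mul_pos hc.R_pos hc.L_pos)
    omega
  have hNr : (1 : ℝ) ≤ N := by exact_mod_cast hN1
  have h1 : Real.sqrt c.n ≤ c.n * c.p ^ (8 * L) := by
    rw [Real.sqrt_le_left (by have := hc.p_pos; positivity)]
    have h2 : (c.n * c.p ^ (8 * L)) ^ 2 = c.n * (c.n * c.p ^ (16 * L)) := by
      rw [mul_pow, ← pow_mul]
      ring_nf
    rw [h2]
    have h3 : (0 : ℝ) ≤ c.n := Nat.cast_nonneg _
    nlinarith
  have hN1p : (0 : ℝ) < (N : ℝ) + 1 := by positivity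
  have h2 : Real.exp (-(c.n * c.p ^ (8 * L) / 8)) ≤ (((N : ℝ) + 1) ^ (8 * L + 8))⁻¹ := by
    rw [← Real.exp_log (pow_pos hN1p (8 * L + 8)), ← Real.exp_neg, Real.exp_le_exp, Real.log_pow]
    push_cast
    linarith
  calc 2 * (N : ℝ) * ((N : ℝ) + 1) ^ (8 * L) * Real.exp (-(c.n * c.p ^ (8 * L) / 8))
      ≤ 2 * (N : ℝ) * ((N : ℝ) + 1) ^ (8 * L) * (((N : ℝ) + 1) ^ (8 * L + 8))⁻¹ :=
        mul_le_mul_of_nonneg_left h2 (by positivity)
    _ = 2 * N / ((N : ℝ) + 1) ^ 8 := by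
        rw [pow_add]
        field_simp
    _ ≤ 1 / (2 * N) := by
        rw [div_le_div_iff₀ (by positivity) (by positivity)]
        have h3 : (4 : ℝ) * N ^ 2 ≤ ((N : ℝ) + 1) ^ 2 * 4 := by nlinarith
        have h4 : (4 : ℝ) ≤ ((N : ℝ) + 1) ^ 6 := by
          calc (4 : ℝ) ≤ 2 ^ 6 := by norm_num
            _ ≤ _ := pow_le_pow_left₀ (by norm_num) (by linarith) 6
        have h5 : (0 : ℝ) ≤ ((N : ℝ) + 1) ^ 2 := by positivity
        nlinarith

theorem Rx_dsp_num (c : Num) (hc : c.OK R L) (hN : c.n * (R * L) ≤ N) (hw : 1 ≤ c.w)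
    (hq : 64 * ((L + c.w + 1) * Real.log N + L) ≤ c.q) (m g : ℕ) (hm : 1 ≤ m) (hg : 1 ≤ g) (hgw : g ≤ c.w) :
    2 ^ L * ((N : ℝ) ^ (L + g)) ^ (c.t g m) * Real.exp (-(c.p ^ (m * g) * (c.t g m : ℝ) ^ 2 / 8)) ≤ 1 / (N : ℝ) ^ 3 := by
  have hN1 : 1 ≤ N := by
    have h1 := Nat.mul_pos hc.n_pos (Nat.mul_pos hc.R_pos hc.L_pos)
    omega
  have hNr : (1 : ℝ) ≤ N := by exact_mod_cast hN1
  have hN0 : (0 : ℝ) < N := by linarith
  have hlog : 0 ≤ Real.log N := Real.log_nonneg hNr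
  have hL1 : (1 : ℝ) ≤ L := by exact_mod_cast hc.L_pos
  have hwr : (1 : ℝ) ≤ c.w := by exact_mod_cast hw
  have hq64 : 64 ≤ c.q := by
    have h1 : 0 ≤ ((L : ℝ) + c.w + 1) * Real.log N := by positivity
    linarith
  have hpg : c.p ^ g ≤ 1 := pow_le_one₀ hc.p_pos.le hc.p_le
  have hpg0 : 0 < c.p ^ g := pow_pos hc.p_pos g
  have hqp : c.q ≤ c.q / c.p ^ g := by
    rw [le_div_iff₀ hpg0]
    nlinarith
  set X : ℝ := (c.q / c.p ^ g) ^ m with hX
  have hXq : c.q / c.p ^ g ≤ X := le_self_pow₀ (by linarith) (by omega)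
  have hX64 : 64 ≤ X := by linarith
  have ht1 : X / 4 ≤ c.t g m := by
    have h1 := Nat.lt_floor_add_one (X / 2)
    have h2 : c.t g m = ⌊X / 2⌋₊ := rfl
    rw [h2]
    linarith
  have hpX : c.p ^ (m * g) * X = c.q ^ m := by
    rw [hX, div_pow, ← pow_mul, mul_comm m g]
    exact mul_div_cancel₀ _ (pow_pos hc.p_pos _).ne'
  have hqm : c.q ≤ c.q ^ m := le_self_pow₀ (by linarith) (by omega)
  have hpt : c.q / 4 ≤ c.p ^ (m * g) * c.t g m := by
    have h1 : c.p ^ (m * g) * (X / 4) ≤ c.p ^ (m * g) * c.t g m :=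
      mul_le_mul_of_nonneg_left ht1 (pow_pos hc.p_pos _).le
    have h2 : c.p ^ (m * g) * (X / 4) = c.q ^ m / 4 := by rw [← hpX]; ring
    linarith
  set t : ℝ := (c.t g m : ℝ) with ht
  have ht16 : 1 ≤ t := by linarith
  have hexp : 2 * t * ((L + c.w + 1) * Real.log N + L) ≤ c.p ^ (m * g) * t ^ 2 / 8 := by
    have h1 : t * (c.q / 32) ≤ c.p ^ (m * g) * t ^ 2 / 8 := by nlinarith
    have h2 : t * (64 * ((L + c.w + 1) * Real.log N + L)) ≤ t * c.q := mul_le_mul_of_nonneg_left hq (by linarith)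
    linarith
  have e1 : (2 : ℝ) ^ L ≤ Real.exp L := by
    have h1 : (2 : ℝ) ≤ Real.exp 1 := by
      have := Real.add_one_le_exp (1 : ℝ)
      linarith
    calc (2 : ℝ) ^ L ≤ (Real.exp 1) ^ L := pow_le_pow_left₀ (by norm_num) h1 L
      _ = Real.exp L := by rw [← Real.exp_nat_mul, mul_one]
  have e2 : ((N : ℝ) ^ (L + g)) ^ (c.t g m) = Real.exp (t * ((L + g) * Real.log N)) := by
    rw [← pow_mul, ← Real.exp_log (pow_pos hN0 ((L + g) * c.t g m)), Real.log_pow]
    congr 1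
    push_cast
    rw [ht]
    ring
  have e3 : 1 / (N : ℝ) ^ 3 = Real.exp (-(3 * Real.log N)) := by
    rw [Real.exp_neg, one_div, ← Real.exp_log (pow_pos hN0 3), Real.log_pow]
    push_cast
    rfl
  rw [e2, e3]
  calc 2 ^ L * Real.exp (t * ((L + g) * Real.log N)) * Real.exp (-(c.p ^ (m * g) * t ^ 2 / 8))
      ≤ Real.exp L * Real.exp (t * ((L + g) * Real.log N)) * Real.exp (-(c.p ^ (m * g) * t ^ 2 / 8)) := by
        gcongr
    _ = Real.exp (L + t * ((L + g) * Real.log N) + -(c.p ^ (m * g) * t ^ 2 / 8)) := by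
        rw [← Real.exp_add, ← Real.exp_add]
    _ ≤ Real.exp (-(3 * Real.log N)) := by
        rw [Real.exp_le_exp]
        have hgr : (g : ℝ) ≤ c.w := by exact_mod_cast hgw
        have h1 : t * ((L + g) * Real.log N) ≤ t * ((L + c.w) * Real.log N) := by gcongr
        have h2 : (L : ℝ) ≤ t * L := by nlinarith
        have h3 : 0 ≤ t * Real.log N := by positivity
        have h4 : 3 * Real.log N ≤ t * ((L + c.w + 2) * Real.log N) := by
          have h5 : 3 * Real.log N ≤ (L + c.w + 2) * Real.log N := by gcongr; linarith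
          have h6 : 0 ≤ (L + c.w + 2) * Real.log N := by positivity
          nlinarith
        nlinarith

theorem rnd_ok (c : Num) (hc : c.OK R L) (p : unitInterval) (hp : c.p = (p : ℝ))
    (hN : c.n * (R * L) ≤ N) (hNo : c.No = N) (hs : c.s = 8 * L) (hw : 1 ≤ c.w)
    (hp16 : 1 ≤ (c.n : ℝ) * c.p ^ (16 * L))
    (hq : 64 * ((L + c.w + 1) * Real.log N + L) ≤ c.q)
    (hn2 : 64 * (L + 1) * Real.log (N + 1) ≤ Real.sqrt c.n)
    (hsz : 4 * (R * c.m0 * c.w) ≤ N) :
    (SimpleGraph.binomialRandom (Fin N) p).real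
      {G | ¬ ∀ a : Fin R, (pl G (fun (a : Fin R) (j : Fin L) => Vb R c.n N a j) a).OK c} ≤ 1 / N := by
  classical
  have hN1 : 1 ≤ N := by
    have h1 := Nat.mul_pos hc.n_pos (Nat.mul_pos hc.R_pos hc.L_pos)
    omega
  have hNr : (1 : ℝ) ≤ N := by exact_mod_cast hN1
  have hnpos := hc.n_pos
  set V : Fin R → Fin L → Finset (Fin N) := fun (a : Fin R) (j : Fin L) => Vb R c.n N a j with hV
  have hVd : ∀ (a a' : Fin R) (j j' : Fin L), (a ≠ a' ∨ j ≠ j') → Disjoint (V a j) (V a' j') := by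
    intro a a' j j' h
    refine Rx_dis a.2 a'.2 ?_
    rcases h with h | h
    · exact Or.inl fun h' => h (Fin.ext h')
    · exact Or.inr fun h' => h (Fin.ext h')
  have hVc : ∀ (a : Fin R) (j : Fin L), (V a j).card = c.n := by
    intro a j
    refine Rx_card hnpos ?_
    have h1 : (a : ℕ) + R * j + 1 ≤ R * L := by
      have h2 := a.2
      have h3 := j.2
      have h4 : R * (j + 1) ≤ R * L := Nat.mul_le_mul_left R h3
      have h5 : R * ((j : ℕ) + 1) = R * j + R := by ring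
      omega
    calc ((a : ℕ) + R * j + 1) * c.n ≤ (R * L) * c.n := Nat.mul_le_mul_right _ h1
      _ = c.n * (R * L) := by ring
      _ ≤ N := hN
  have hOut : ∀ (G : SimpleGraph (Fin N)) (a : Fin R) (j : Fin L), Disjoint (pl G V a).Out ((pl G V a).V j) := by
    intro G a j
    rw [disjoint_left]
    intro v hv hv'
    rw [mem_pl_Out] at hv
    obtain ⟨b, hb, j', h1⟩ := hv
    exact disjoint_left.1 (hVd b a j' j (Or.inl hb)) h1 hv'
  set Bs : Finset (Finset (Fin N)) := (univ : Finset (Fin R × Fin L)).image (fun x => V x.1 x.2) with hBs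
  have hBsc : Bs.card ≤ N := by
    refine card_image_le.trans ?_
    rw [card_univ, Fintype.card_prod, Fintype.card_fin, Fintype.card_fin]
    refine le_trans ?_ hN
    exact Nat.le_mul_of_pos_left _ hnpos
  rw [real_eq_pr p]
  set w := fun G : SimpleGraph (Fin N) => (SimpleGraph.binomialRandom (Fin N) p).real {G} with hw'
  have hwn : ∀ G, 0 ≤ w G := (rsub_gnp (V := Fin N) p).nonneg
  set I : Finset (Fin R × ℕ × ℕ) := univ ×ˢ ((Finset.Icc 1 c.m0) ×ˢ (Finset.Icc 1 c.w)) with hI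
  have hE1 := reg_pr (N := N) p (by rw [← hp]; exact hc.p_pos) c.n (8 * L) hnpos Bs (by
    intro B hB
    obtain ⟨x, _, rfl⟩ := mem_image.1 hB
    exact hVc _ _)
  have hE2 := pr_exists_le_card hwn I (fun x G => ∃ T : Finset (Fin L), T.card = x.2.1 ∧
        ∃ y : Fin (c.t x.2.2 x.2.1) → Fin L → Fin N,
        (∀ i, ∀ j ∈ T, y i j ∈ V x.1 j) ∧ (∀ i i', i ≠ i' → ∀ j ∈ T, y i j ≠ y i' j) ∧
        ∃ z : Fin (c.t x.2.2 x.2.1) → Finset (Fin N), (∀ i, z i ⊆ (pl (⊥ : SimpleGraph (Fin N)) V x.1).Out) ∧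
        (∀ i, (z i).card = x.2.2) ∧
        (∀ i i', i ≠ i' → Disjoint (z i) (z i')) ∧ ∀ i i', ¬ Ad G T (y i) (z i')) (1 / (N : ℝ) ^ 3) (by
    rintro ⟨a, m, g⟩ hx
    rw [hI, mem_product, mem_product, Finset.mem_Icc, Finset.mem_Icc] at hx
    obtain ⟨_, ⟨hm1, hm2⟩, hg1, hg2⟩ := hx
    simp only at hm1 hm2 hg1 hg2
    refine (dsp_pr p (V a) (pl (⊥ : SimpleGraph (Fin N)) V a).Out
      (fun i j hij => hVd a a i j (Or.inr hij)) (fun j => hOut ⊥ a j) m g (c.t g m)).trans ?_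
    rw [← hp]
    exact Rx_dsp_num c hc hN hw hq m g hm1 hg1 hg2)
  refine (pr_mono hwn ?_).trans ((pr_or_le hwn _ _).trans (le_trans (add_le_add hE1 hE2) ?_))
  · intro G hG
    by_contra hcon
    push Not at hcon
    obtain ⟨hr, hd⟩ := hcon
    refine hG fun a => ?_
    have hreg : ∀ (j : Fin L) (S : Finset (Fin N)), S.card ≤ c.s → Disjoint S (V a j) →
        ((c.n : ℝ) * c.p ^ S.card / 8 ≤ (nbr G (V a j) S).card ∧
          ((nbr G (V a j) S).card : ℝ) ≤ 8 * (c.n * c.p ^ S.card)) := by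
      intro j S hS hSd
      rw [hp]
      exact hr (V a j) (mem_image.2 ⟨(a, j), mem_univ _, rfl⟩) S (by rw [← hs]; exact hS) hSd
    refine ⟨fun i j hij => hVd a a i j (Or.inr hij), fun j => hOut G a j, fun j => hVc a j, ?_,
      fun j S hS hSd => (hreg j S hS hSd).1, fun j S hS hSd => (hreg j S hS hSd).2, ?_⟩
    · rw [hNo]
      exact (card_le_univ _).trans (by rw [Fintype.card_fin])
    · intro m g hm1 hm2 hg1 hg2 T hT x hx hxd y hy hyc hyd
      by_contra hcon2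
      push Not at hcon2
      obtain ⟨i, i', h3⟩ := hd (a, m, g) (by
        rw [hI, mem_product, mem_product, Finset.mem_Icc, Finset.mem_Icc]
        exact ⟨mem_univ _, ⟨hm1, hm2⟩, hg1, hg2⟩) T hT x hx hxd y hy hyc hyd
      exact hcon2 i i' h3
  · have hNr3 : (0 : ℝ) < N := by linarith
    have e1 : 2 * (Bs.card : ℝ) * ((N : ℝ) + 1) ^ (8 * L) * Real.exp (-(c.n * (p : ℝ) ^ (8 * L) / 8)) ≤ 1 / (2 * N) := by
      have h1 := Rx_reg_num c hc hN hp16 hn2
      rw [hp] at h1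
      refine le_trans ?_ h1
      have h2 : (Bs.card : ℝ) ≤ N := by exact_mod_cast hBsc
      gcongr
    have e2 : (I.card : ℝ) * (1 / (N : ℝ) ^ 3) ≤ 1 / (2 * N) := by
      have h1 : I.card = R * c.m0 * c.w := by
        rw [hI, card_product, card_product, card_univ, Fintype.card_fin, Nat.card_Icc, Nat.card_Icc]
        simp [mul_assoc]
      have h2 : (4 : ℝ) * I.card ≤ N := by
        rw [h1]
        exact_mod_cast hsz
      rw [mul_one_div, div_le_div_iff₀ (by positivity) (by positivity)]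
      have h3 : (N : ℝ) ^ 3 = N * N ^ 2 := by ring
      have h4 : (1 : ℝ) ≤ (N : ℝ) ^ 2 := one_le_pow₀ hNr
      have h5 : (N : ℝ) ≤ N ^ 3 := by rw [h3]; nlinarith
      nlinarith
    calc _ ≤ 1 / (2 * (N : ℝ)) + 1 / (2 * N) := add_le_add e1 e2
      _ = 1 / N := by field_simp; ring

end Pool.Agent.H49.RG
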