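/-
ROW Spl (about 80 lines). Medians, and splitting a box by additive inequalities.
med. PROOF. Induction on `A.card` or: if `A = ∅` trivial. Otherwise let `m` be the least value `F x`, `x ∈ A`, with `A.card ≤ 2 * #{x ∈ A | F x ≤ m}` (the maximal value of `F` qualifies; `Finset.exists_min_image` on the filtered set of such `x`). Then `#{x ∈ A | F x < m}` is `0` or (the largest value `m' < m` of `F` on `A`
does not qualify) `2 #{x ∈ A | F x < m} = 2 #{x ∈ A | F x ≤ m'} < #A`; in both cases `#A ≤ 2 #{x ∈ A | m ≤ F x}`.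
split. PROOF. Induction over `prem` (`Finset.induction_on`, all `A`), inserting `s0`: `m a` = median of `F s0 a` on `A a`. If `∑ a, m a < t s0` take `A' a = {x ∈ A a | F s0 a x ≤ m a}` (first alternative; `2 ≤ 2^card`).
Otherwise let `B a = {x ∈ A a | m a ≤ F s0 a x}`, so `t s0 ≤ ∑ m a ≤ ∑ F s0 a (X a)` for all `X a ∈ B a`; apply the induction hypothesis to `B` (`A' a ⊆ B a` keeps this); `#A ≤ 2 #B ≤ 2 * 2^|prem| #A'`.
-/
import Mathlib

set_option autoImplicit false

open Finset

namespace Pool.Agent.H49.RG

theorem med {κ : Type} [DecidableEq κ] (F : κ → ℝ) (A : Finset κ) :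
    ∃ m : ℝ, A.card ≤ 2 * (A.filter (fun x => F x ≤ m)).card ∧
      A.card ≤ 2 * (A.filter (fun x => m ≤ F x)).card := by
  classical
  rcases A.eq_empty_or_nonempty with rfl | hA
  · exact ⟨0, by simp, by simp⟩
  · set S : Finset κ := A.filter (fun x => A.card ≤ 2 * (A.filter (fun y => F y ≤ F x)).card)
      with hS
    obtain ⟨z, hz, hzmax⟩ := Finset.exists_max_image A F hA
    have hzS : z ∈ S := by
      rw [hS, mem_filter]
      refine ⟨hz, ?_⟩
      have : A.filter (fun y => F y ≤ F z) = A := by
        rw [filter_eq_self]; intro y hy; exact hzmax y hy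
      rw [this]; omega
    obtain ⟨x0, hx0, hmin⟩ := Finset.exists_min_image S F ⟨z, hzS⟩
    rw [hS, mem_filter] at hx0
    refine ⟨F x0, hx0.2, ?_⟩
    have hsum : (A.filter (fun x => F x < F x0)).card + (A.filter (fun x => F x0 ≤ F x)).card
        = A.card := by
      rw [← card_filter_add_card_filter_not (s := A) (fun x => F x < F x0)]
      congr 2
      ext x; simp
    rcases (A.filter (fun x => F x < F x0)).eq_empty_or_nonempty with he | hne
    · rw [he, card_empty] at hsum
      omega
    · obtain ⟨x1, hx1, hmax⟩ := Finset.exists_max_image _ F hne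
      rw [mem_filter] at hx1
      have hx1S : x1 ∉ S := by
        intro h
        have := hmin x1 h
        linarith [hx1.2]
      have h2 : ¬ (A.card ≤ 2 * (A.filter (fun y => F y ≤ F x1)).card) := by
        intro h
        exact hx1S (by rw [hS, mem_filter]; exact ⟨hx1.1, h⟩)
      have h3 : (A.filter (fun x => F x < F x0)).card ≤ (A.filter (fun y => F y ≤ F x1)).card := by
        apply card_le_card
        intro x hx
        rw [mem_filter]
        exact ⟨(mem_filter.1 hx).1, hmax x hx⟩
      omega

theorem split {κ : Type} [DecidableEq κ] {R : ℕ} (F : ℕ → Fin R → κ → ℝ) (t : ℕ → ℝ)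
    (prem : Finset ℕ) (A : Fin R → Finset κ) :
    ∃ A' : Fin R → Finset κ, (∀ a, A' a ⊆ A a) ∧
      (∀ a, (A a).card ≤ 2 ^ prem.card * (A' a).card) ∧
      ((∃ s ∈ prem, ∀ X : Fin R → κ, (∀ a, X a ∈ A' a) → ∑ a, F s a (X a) < t s) ∨
        ∀ s ∈ prem, ∀ X : Fin R → κ, (∀ a, X a ∈ A' a) → t s ≤ ∑ a, F s a (X a)) := by
  classical
  induction prem using Finset.induction_on generalizing A with
  | empty =>
    refine ⟨A, fun a => Subset.refl _, fun a => by simp, Or.inr ?_⟩
    intro s hs; simp at hs
  | insert s0 prem hs0 ih =>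
    choose m hm1 hm2 using fun a => med (F s0 a) (A a)
    rw [card_insert_of_notMem hs0]
    by_cases hlt : ∑ a, m a < t s0
    · refine ⟨fun a => (A a).filter (fun x => F s0 a x ≤ m a), fun a => filter_subset _ _, ?_,
        Or.inl ⟨s0, mem_insert_self _ _, ?_⟩⟩
      · intro a
        refine (hm1 a).trans (Nat.mul_le_mul_right _ ?_)
        calc 2 = 2 ^ 1 := rfl
          _ ≤ 2 ^ (prem.card + 1) := Nat.pow_le_pow_right (by norm_num) (by omega)
      · intro X hX
        refine lt_of_le_of_lt (sum_le_sum fun a _ => ?_) hlt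
        exact (mem_filter.1 (hX a)).2
    · push Not at hlt
      obtain ⟨A', hA', hcard, hcase⟩ := ih (fun a => (A a).filter (fun x => m a ≤ F s0 a x))
      refine ⟨A', fun a => (hA' a).trans (filter_subset _ _), ?_, ?_⟩
      · intro a
        calc (A a).card ≤ 2 * ((A a).filter (fun x => m a ≤ F s0 a x)).card := hm2 a
          _ ≤ 2 * (2 ^ prem.card * (A' a).card) := Nat.mul_le_mul_left _ (hcard a)
          _ = 2 ^ (prem.card + 1) * (A' a).card := by ring
      · rcases hcase with ⟨s, hs, h⟩ | h
        · exact Or.inl ⟨s, mem_insert_of_mem hs, h⟩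
        · right
          intro s hs X hX
          rcases mem_insert.1 hs with rfl | hs
          · refine hlt.trans (sum_le_sum fun a _ => ?_)
            exact (mem_filter.1 (hA' a (hX a))).2
          · exact h s hs X hX

end Pool.Agent.H49.RG
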