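import Pool.Agent.H35.CL.Stmt

/-!
# Refutations of the k-clique formula with lines that are sums over groups of indices

A choice `u : Fin k → Fin N` takes `k` vertices of the graph `G` on `Fin N`.
-/

namespace Pool.Agent.H49.RG

open Finset

/-- A refutation of the statement that some choice `u` is a clique of `G`: lines `0 ≤ f s u`, each a sum of `R` functions,
the `a`-th of them an arbitrary function of the vertices `u i` with `i % R = a`; every line is implied, for all choices, by at
most `q` earlier lines together with the edge between `u i` and `u j` for one pair `i ≠ j`; some line is false for all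
choices. -/
structure GroupRefutation {N k : ℕ} (G : SimpleGraph (Fin N)) (R q S : ℕ)
    (f : Fin S → (Fin k → Fin N) → ℝ) : Prop where
  split : ∀ s, ∃ F : Fin R → (Fin k → Fin N) → ℝ,
    (∀ (a : Fin R) (u u' : Fin k → Fin N), (∀ i : Fin k, (i : ℕ) % R = a → u i = u' i) →
      F a u = F a u') ∧
    ∀ u, f s u = ∑ a, F a u
  step : ∀ s, ∃ (P : Finset (Fin S)) (i j : Fin k), P.card ≤ q ∧ (∀ p ∈ P, p < s) ∧ i ≠ j ∧
    ∀ u, f s u < 0 → G.Adj (u i) (u j) → ∃ p ∈ P, f p u < 0
  last : ∃ s, ∀ u, f s u < 0

end Pool.Agent.H49.RG
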