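/-
ROW Cp. Cutting planes refutations of the unary `k`-clique formula are group refutations (for every `R ≥ 1`).
PROOF. As `cutting_refutation` in Pool/Agent/H35/CL/Uny.lean: the choice `u` gives the assignment `z u (i, v) = (v = u i)`,
the line is `(∑ i, c s (i, u i)) - b s`, and the a-th function is the sum over the `i` with `i % R = a`, minus `b s` for `a = 0`.
-/
import Pool.Agent.H49.RG.Stmt

set_option autoImplicit false

namespace Pool.Agent.H49.RG

open Finset Pool.Agent.H35.CL

theorem cutting_group {N k q S R : ℕ} (h2 : 2 ≤ k) (hR : 1 ≤ R) (G : SimpleGraph (Fin N))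
    {c : Fin S → Fin k × Fin N → ℝ} {b : Fin S → ℝ}
    (h : CuttingPlanesOf (KClique G k) q S c b) : ∃ f, GroupRefutation (k := k) G R q S f := by
  classical
  let z : (Fin k → Fin N) → Fin k × Fin N → Bool := fun u x => decide (x.2 = u x.1)
  have hz : ∀ u (d : Fin k × Fin N → ℝ),
      (∑ x, if z u x then d x else 0) = ∑ i, d (i, u i) := by
    intro u d
    rw [Fintype.sum_prod_type]
    refine sum_congr rfl fun i _ => ?_
    simp only [z, decide_eq_true_eq]
    rw [sum_ite_eq' univ (u i) (fun v => d (i, v))]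
    simp
  let f : Fin S → (Fin k → Fin N) → ℝ := fun s u => (∑ i, c s (i, u i)) - b s
  have hf : ∀ s u, f s u < 0 ↔ ¬ b s ≤ ∑ x, if z u x then c s x else 0 := by
    intro s u
    rw [hz, not_le]
    simp only [f]
    constructor <;> intro h <;> linarith
  have h01 : ∃ i j : Fin k, i ≠ j := ⟨⟨0, by omega⟩, ⟨1, by omega⟩, by simp⟩
  refine ⟨f, fun s => ?_, fun s => ?_, ?_⟩
  · let g : Fin k → Fin R := fun i => ⟨(i : ℕ) % R, Nat.mod_lt _ hR⟩
    refine ⟨fun a u => (∑ i ∈ univ.filter (fun i => g i = a), c s (i, u i)) -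
      (if a = ⟨0, hR⟩ then b s else 0), ?_, ?_⟩
    · intro a u u' huu
      simp only
      congr 1
      refine sum_congr rfl fun i hi => ?_
      have hi' : g i = a := (mem_filter.1 hi).2
      have : ((i : ℕ) % R) = (a : ℕ) := by rw [← hi']
      rw [huu i this]
    · intro u
      simp only [f]
      rw [sum_sub_distrib, sum_ite_eq' univ (⟨0, hR⟩ : Fin R) (fun _ => b s)]
      rw [sum_fiberwise univ g (fun i => c s (i, u i))]
      simp
  · obtain ⟨P, E, hP, hPs, hE, hstep⟩ := h.step s
    have hstep' : ∀ u, f s u < 0 → Sat (z u) E → ∃ p ∈ P, f p u < 0 := by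
      intro u hu hsat
      by_contra hcon
      push Not at hcon
      refine (hf s u).1 hu (hstep (z u) hsat fun p hp => ?_)
      by_contra hp'
      exact absurd ((hf p u).2 hp') (not_lt.2 (hcon p hp))
    obtain ⟨i0, j0, h0⟩ := h01
    cases hE with
    | chosen i =>
      refine ⟨P, i0, j0, hP, hPs, h0, fun u hu _ => hstep' u hu ⟨((i, u i), true), ?_, ?_⟩⟩
      · exact mem_image.2 ⟨u i, mem_univ _, rfl⟩
      · simp [z]
    | single i v w hvw =>
      refine ⟨P, i0, j0, hP, hPs, h0, fun u hu _ => hstep' u hu ?_⟩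
      by_cases hv : v = u i
      · refine ⟨((i, w), false), by simp, ?_⟩
        have : w ≠ u i := fun h => hvw (hv.trans h.symm)
        simp [z, this]
      · exact ⟨((i, v), false), by simp, by simp [z, hv]⟩
    | edge i j v w hij hvw =>
      refine ⟨P, i, j, hP, hPs, hij, fun u hu hadj => hstep' u hu ?_⟩
      by_cases hv : v = u i
      · refine ⟨((j, w), false), by simp, ?_⟩
        have : w ≠ u j := fun h => hvw (by rw [hv, h]; exact hadj)
        simp [z, this]
      · exact ⟨((i, v), false), by simp, by simp [z, hv]⟩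
  · obtain ⟨s, hs⟩ := h.last
    exact ⟨s, fun u => (hf s u).2 (not_le.2 (hs (z u)))⟩

end Pool.Agent.H49.RG
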