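/-
ROW Hlf (about 60 lines). Lower and upper parts.
half: sort `C` by `F` (e.g. induction on the number `m ≤ #C`: there is `A ⊆ C` with `#A = m` and `F x ≤ F x'` for `x ∈ A`, `x' ∈ C \ A`: add a minimiser of `F` on the rest). Take `m = (#C + 1)/2`.
-/
import Mathlib

set_option autoImplicit false

open Finset

namespace Pool.Agent.H49.RG

theorem lower_part {κ : Type} [DecidableEq κ] (F : κ → ℝ) (C : Finset κ) (m : ℕ)
    (hm : m ≤ C.card) : ∃ A : Finset κ, A ⊆ C ∧ A.card = m ∧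
      ∀ x ∈ A, ∀ x' ∈ C \ A, F x ≤ F x' := by
  induction m with
  | zero => exact ⟨∅, Finset.empty_subset _, rfl, fun x hx => absurd hx (Finset.notMem_empty x)⟩
  | succ m ih =>
    obtain ⟨A, hAC, hA, hF⟩ := ih (Nat.le_of_succ_le hm)
    have hne : (C \ A).Nonempty := by
      rw [← Finset.card_pos, Finset.card_sdiff_of_subset hAC]
      omega
    obtain ⟨y, hy, hmin⟩ := Finset.exists_min_image (C \ A) F hne
    have hyC : y ∈ C := (Finset.mem_sdiff.mp hy).1
    have hyA : y ∉ A := (Finset.mem_sdiff.mp hy).2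
    refine ⟨insert y A, Finset.insert_subset hyC hAC, ?_, ?_⟩
    · rw [Finset.card_insert_of_notMem hyA, hA]
    · intro x hx x' hx'
      have hx'C : x' ∈ C := (Finset.mem_sdiff.mp hx').1
      have hx'n : x' ∉ insert y A := (Finset.mem_sdiff.mp hx').2
      have hx'A : x' ∉ A := fun h => hx'n (Finset.mem_insert_of_mem h)
      have hx's : x' ∈ C \ A := Finset.mem_sdiff.mpr ⟨hx'C, hx'A⟩
      rcases Finset.mem_insert.mp hx with h | h
      · subst h
        exact hmin x' hx's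
      · exact hF x h x' hx's

theorem half {κ : Type} [DecidableEq κ] (F : κ → ℝ) (C : Finset κ) (hC : 2 ≤ C.card) :
    ∃ A : Finset κ, A ⊆ C ∧ C.card ≤ 2 * A.card ∧ 3 * A.card ≤ 2 * C.card ∧
      ∀ x ∈ A, ∀ x' ∈ C \ A, F x ≤ F x' := by
  obtain ⟨A, hAC, hA, hF⟩ := lower_part F C ((C.card + 1) / 2) (by omega)
  refine ⟨A, hAC, ?_, ?_, hF⟩
  · omega
  · omega

end Pool.Agent.H49.RG
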