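/-
ROW SpB (about 120 lines). Basic lemmas on spread sets.
(1) Sp.mono: larger constants, smaller `v` (den ≥ 0, `1 ≤ h, h1`).
(2) Sp.congr: `α` may be changed outside `U` (`cell`, `den` do not change).
(3) Sp.shrink: `C = cell X U α (Φ ∪ F)`: `den C U α (Φ ∪ F) = den X U α (Φ ∪ F)` (cell_cell with equalities). dens: `Tot ≤ Z den X Φ ≤ Z θ den X (Φ∪F)`. upper: for `U', α', Φ' ⊇ Φ ∪ F`, `Φ'.card ≤ (Φ∪F).card + (v - d) ≤ Φ.card + v`: `den C U' α' Φ' ≤ den X U' α' Φ' ≤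
 G h^(..) h1^(Φ'.card - Φ.card) den X U α Φ ≤ G h^(..) h1^(Φ'.card - (Φ∪F).card) h1^d θ den X U α (Φ∪F)` as `Φ'.card - Φ.card ≤ (Φ'.card - (Φ∪F).card) + d` (`F.card ≤ d`).
(4) Sp.part: `C ⊆ X`, `#X ≤ κ #C`: `den X U α Φ = #X * W`, `den C U α Φ = #C * W` (den_of_sub), `den C U' α' Φ' ≤ den X U' α' Φ'`.
(5) Sp.nonempty: `0 < Tot ≤ Z den X`.
(6) Sp.Val: val_of_mem.
-/
import Pool.Agent.H49.RG.Cn3

set_option autoImplicit false
set_option linter.unusedSectionVars false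

open Finset

namespace Pool.Agent.H49.RG

variable {ν : Type} [Fintype ν] [DecidableEq ν] {L : ℕ}

theorem SpB_cell_congr (G : SimpleGraph ν) (X : Finset (Fin L → ν)) {U : Finset (Fin L)}
    {α α' : Fin L → ν} (hα : Eqn U α' α) (Φ : Finset ν) : cell G X U α' Φ = cell G X U α Φ := by
  ext x
  rw [mem_cell, mem_cell]
  constructor
  · rintro ⟨h1, h2, h3⟩
    exact ⟨h1, fun j hj => (h2 j hj).trans (hα j hj), h3⟩
  · rintro ⟨h1, h2, h3⟩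
    exact ⟨h1, fun j hj => (h2 j hj).trans (hα j hj).symm, h3⟩

theorem SpB_den_congr (P : Pl ν L) (c : Num) (X : Finset (Fin L → ν)) {U : Finset (Fin L)}
    {α α' : Fin L → ν} (hα : Eqn U α' α) (Φ : Finset ν) :
    P.den c X U α' Φ = P.den c X U α Φ := by
  unfold Pl.den
  rw [SpB_cell_congr P.G X hα Φ]

theorem SpB_Eqn_refl (U : Finset (Fin L)) (α : Fin L → ν) : Eqn U α α := fun _ _ => rfl

theorem Pl.Sp.mono {P : Pl ν L} {c : Num} {R : ℕ} (hc : c.OK R L) {X : Finset (Fin L → ν)}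
    {U : Finset (Fin L)} {α : Fin L → ν} {Φ : Finset ν} {Z G Z' G' : ℝ} {v v' : ℕ}
    (h : P.Sp c X U α Φ Z G v) (hZ : Z ≤ Z') (hG : G ≤ G') (hv : v' ≤ v) :
    P.Sp c X U α Φ Z' G' v' := by
  have hd := P.den_nonneg hc.p_pos hc.n_pos X U α Φ
  refine ⟨h.sub, h.out, h.card_le, h.dens.trans (mul_le_mul_of_nonneg_right hZ hd), ?_⟩
  intro U' α' Φ' h1 h2 h3 h4 h5
  refine (h.upper U' α' Φ' h1 h2 h3 h4 (by omega)).trans ?_
  have hh : (0 : ℝ) ≤ c.h ^ (U'.card - U.card) := pow_nonneg (by linarith [hc.h_ge]) _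
  have hh1 : (0 : ℝ) ≤ c.h1 ^ (Φ'.card - Φ.card) := pow_nonneg (by linarith [hc.h1_ge]) _
  exact mul_le_mul_of_nonneg_right (mul_le_mul_of_nonneg_right
    (mul_le_mul_of_nonneg_right hG hh) hh1) hd

theorem Pl.Sp.congr {P : Pl ν L} {c : Num} {X : Finset (Fin L → ν)}
    {U : Finset (Fin L)} {α α' : Fin L → ν} {Φ : Finset ν} {Z G : ℝ} {v : ℕ}
    (h : P.Sp c X U α Φ Z G v) (hα : Eqn U α' α) : P.Sp c X U α' Φ Z G v := by
  refine ⟨?_, h.out, h.card_le, ?_, ?_⟩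
  · rw [SpB_cell_congr P.G _ hα Φ]
    exact h.sub
  · rw [SpB_den_congr P c X hα Φ]
    exact h.dens
  · intro U' β Φ' h1 h2 h3 h4 h5
    rw [SpB_den_congr P c X hα Φ]
    exact h.upper U' β Φ' h1 (fun j hj => (h2 j hj).trans (hα j hj)) h3 h4 h5

theorem Pl.Sp.shrink {P : Pl ν L} {c : Num} {R : ℕ} (hc : c.OK R L) {X : Finset (Fin L → ν)}
    {U : Finset (Fin L)} {α : Fin L → ν} {Φ : Finset ν} {Z G θ : ℝ} {v : ℕ}
    (h : P.Sp c X U α Φ Z G v) (hZ : 0 ≤ Z) (hG : 0 ≤ G) (hθ : 0 ≤ θ) (F : Finset ν)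
    (hF : F ⊆ P.Out) (d : ℕ) (hd : F.card ≤ d) (hcard : (Φ ∪ F).card ≤ 3 * L) (hdv : d ≤ v)
    (hden : P.den c X U α Φ ≤ θ * P.den c X U α (Φ ∪ F)) :
    P.Sp c (cell P.G X U α (Φ ∪ F)) U α (Φ ∪ F) (Z * θ) (G * (θ * c.h1 ^ d)) (v - d) := by
  have hsub : Φ ⊆ Φ ∪ F := subset_union_left
  have hdenC : ∀ (U' : Finset (Fin L)) (α' : Fin L → ν) (Φ' : Finset ν), U ⊆ U' →
      Eqn U α' α → Φ ∪ F ⊆ Φ' →
      P.den c (cell P.G X U α (Φ ∪ F)) U' α' Φ' = P.den c X U' α' Φ' := by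
    intro U' α' Φ' h1 h2 h3
    unfold Pl.den
    rw [cell_cell X h1 h2 h3]
  have hself := hdenC U α (Φ ∪ F) (Finset.Subset.refl _) (SpB_Eqn_refl U α)
    (Finset.Subset.refl _)
  have hunion : (Φ ∪ F).card ≤ Φ.card + F.card := card_union_le _ _
  have hge : Φ.card ≤ (Φ ∪ F).card := card_le_card hsub
  have hh1 : (1 : ℝ) ≤ c.h1 := hc.h1_ge
  have hdF := P.den_nonneg hc.p_pos hc.n_pos X U α (Φ ∪ F)
  refine ⟨?_, union_subset h.out hF, hcard, ?_, ?_⟩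
  · intro x hx
    obtain ⟨h1, h2, h3⟩ := mem_cell.1 hx
    exact mem_cell.2 ⟨(mem_cell.1 (h.sub h1)).1, h2, h3⟩
  · rw [hself]
    calc c.Tot L ≤ Z * P.den c X U α Φ := h.dens
      _ ≤ Z * (θ * P.den c X U α (Φ ∪ F)) := mul_le_mul_of_nonneg_left hden hZ
      _ = Z * θ * P.den c X U α (Φ ∪ F) := by ring
  · intro U' α' Φ' h1 h2 h3 h4 h5
    rw [hself, hdenC U' α' Φ' h1 h2 h3]
    have h6 := h.upper U' α' Φ' h1 h2 (hsub.trans h3) h4 (by omega)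
    have hh : (0 : ℝ) ≤ c.h ^ (U'.card - U.card) := pow_nonneg (by linarith [hc.h_ge]) _
    have h7 : c.h1 ^ (Φ'.card - Φ.card) ≤ c.h1 ^ (Φ'.card - (Φ ∪ F).card) * c.h1 ^ d := by
      rw [← pow_add]
      exact pow_le_pow_right₀ hh1 (by omega)
    calc P.den c X U' α' Φ'
        ≤ G * c.h ^ (U'.card - U.card) * c.h1 ^ (Φ'.card - Φ.card) * P.den c X U α Φ := h6
      _ ≤ G * c.h ^ (U'.card - U.card) * c.h1 ^ (Φ'.card - Φ.card) *
          (θ * P.den c X U α (Φ ∪ F)) :=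
        mul_le_mul_of_nonneg_left hden (mul_nonneg (mul_nonneg hG hh)
          (pow_nonneg (by linarith) _))
      _ ≤ G * c.h ^ (U'.card - U.card) * (c.h1 ^ (Φ'.card - (Φ ∪ F).card) * c.h1 ^ d) *
          (θ * P.den c X U α (Φ ∪ F)) :=
        mul_le_mul_of_nonneg_right (mul_le_mul_of_nonneg_left h7 (mul_nonneg hG hh))
          (mul_nonneg hθ hdF)
      _ = G * (θ * c.h1 ^ d) * c.h ^ (U'.card - U.card) *
          c.h1 ^ (Φ'.card - (Φ ∪ F).card) * P.den c X U α (Φ ∪ F) := by ring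

theorem Pl.Sp.part {P : Pl ν L} {c : Num} {R : ℕ} (hc : c.OK R L) {X C : Finset (Fin L → ν)}
    {U : Finset (Fin L)} {α : Fin L → ν} {Φ : Finset ν} {Z G κ : ℝ} {v : ℕ}
    (h : P.Sp c X U α Φ Z G v) (hZ : 0 ≤ Z) (hG : 0 ≤ G) (hκ : 0 ≤ κ) (hC : C ⊆ X)
    (hcard : (X.card : ℝ) ≤ κ * C.card) : P.Sp c C U α Φ (Z * κ) (G * κ) v := by
  have hW : 0 < c.W L U.card Φ.card := Num.W_pos hc.p_pos hc.n_pos _ _ _
  have hX := P.den_of_sub c h.sub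
  have hCd := P.den_of_sub c (hC.trans h.sub)
  have hXC : P.den c X U α Φ ≤ κ * P.den c C U α Φ := by
    rw [hX, hCd, ← mul_assoc]
    exact mul_le_mul_of_nonneg_right hcard hW.le
  refine ⟨hC.trans h.sub, h.out, h.card_le, ?_, ?_⟩
  · calc c.Tot L ≤ Z * P.den c X U α Φ := h.dens
      _ ≤ Z * (κ * P.den c C U α Φ) := mul_le_mul_of_nonneg_left hXC hZ
      _ = Z * κ * P.den c C U α Φ := by ring
  · intro U' α' Φ' h1 h2 h3 h4 h5
    have hh : (0 : ℝ) ≤ c.h ^ (U'.card - U.card) := pow_nonneg (by linarith [hc.h_ge]) _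
    have hh1 : (0 : ℝ) ≤ c.h1 ^ (Φ'.card - Φ.card) := pow_nonneg (by linarith [hc.h1_ge]) _
    calc P.den c C U' α' Φ' ≤ P.den c X U' α' Φ' := P.den_mono hc.p_pos hc.n_pos hC _ _ _
      _ ≤ G * c.h ^ (U'.card - U.card) * c.h1 ^ (Φ'.card - Φ.card) * P.den c X U α Φ :=
        h.upper U' α' Φ' h1 h2 h3 h4 h5
      _ ≤ G * c.h ^ (U'.card - U.card) * c.h1 ^ (Φ'.card - Φ.card) *
          (κ * P.den c C U α Φ) :=
        mul_le_mul_of_nonneg_left hXC (mul_nonneg (mul_nonneg hG hh) hh1)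
      _ = G * κ * c.h ^ (U'.card - U.card) * c.h1 ^ (Φ'.card - Φ.card) *
          P.den c C U α Φ := by ring

theorem Pl.Sp.nonempty {P : Pl ν L} {c : Num} {R : ℕ} (hc : c.OK R L) {X : Finset (Fin L → ν)}
    {U : Finset (Fin L)} {α : Fin L → ν} {Φ : Finset ν} {Z G : ℝ} {v : ℕ}
    (h : P.Sp c X U α Φ Z G v) : X.Nonempty := by
  by_contra hX
  rw [not_nonempty_iff_eq_empty] at hX
  have hT : 0 < c.Tot L := Num.Tot_pos hc.p_pos hc.n_pos L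
  have h1 := h.dens
  rw [P.den_of_sub c h.sub, hX, card_empty, Nat.cast_zero, zero_mul, mul_zero] at h1
  linarith

theorem Pl.Sp.val {P : Pl ν L} {c : Num} {R : ℕ} (hc : c.OK R L) {X : Finset (Fin L → ν)}
    {U : Finset (Fin L)} {α : Fin L → ν} {Φ : Finset ν} {Z G : ℝ} {v : ℕ}
    (h : P.Sp c X U α Φ Z G v) : P.Val U α Φ := by
  obtain ⟨x, hx⟩ := h.nonempty hc
  exact val_of_mem (h.sub hx)

end Pool.Agent.H49.RG
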