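/-
ROW Tsg (about 150 lines). THIS FILE: only part (c) of the following plan, theorem ts_global. Uses spiky_card, thin_card, cell_le, W_le, den_all_le as stated.
Let `W = c.W L u φ`, `u = U.card`, `τ = p^g/q`, `C0 = cell (pts) U α Φ`. `X ⊆ C0` nonempty (`0 < Tot ≤ Z1 den X`, and `den X = #X * W`, den_of_sub). `Val` by val_of_mem.
`#C0 ≤ 8^L Z1 #X` (den_all_le: `#C0 W ≤ 8^L Tot ≤ 8^L Z1 #X W`).
Call `x ∈ X` bad if `¬ NoSpike Uᶜ x` or `Thin Uᶜ x`. If `NoSpike` and `Thin Uᶜ x` then some minimal `T ⊆ Uᶜ` with `Thin T x` (`Finset.exists_minimal`..), `T ≠ ∅` (`Thin ∅` would be `#O < #O`), and `MT T x`.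
(a) `#{x ∈ X | ¬ NoSpike} ≤ 128^L No #C0 / β^k ≤ 1024^L No Z1 #X/β^k ≤ #X/8` (F2).
(b) For `T ⊆ Uᶜ`, `1 ≤ m = |T| < m0`: `#{x ∈ X | MT T x} ≤ #X/(8 * 2^L)`. The restriction to `T` (map `x ↦ fun j => if j ∈ T then x j else x0 j`, `x0` fixed with letters in the blocks, e.g. a member of `X`) sends these
 points into the set of thin_card with `S = T` (`MT T` depends only on `x` on `T`), at most `B^m` images; the fibre of `σ` is contained in `cell X (U ∪ T) σ' Φ` (`σ' = σ` on `T`, `α` on `U`), and (upper with `Φ' = Φ`)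
 `#cell X (U∪T) σ' Φ * W L (u+m) φ ≤ G1 h^m #X W`, with W_le: `#fibre * (n p^(4L))^m ≤ G1 h^m #X`. So `#{..} * (n p^(4L))^m ≤ G1 (B h)^m #X`, and `B h ≤ n p^(4L)` (F3), `m ≥ 1`, F3 give the claim
 (`Finset.card_le_mul_card_image` or `card_eq_sum_card_fiberwise`).
(c) For `T ⊆ Uᶜ`, `|T| ≥ m0`: `#{x ∈ C0 | MT T x} ≤ #X/(8 * 2^L)`. Take `T' ⊆ T`, `|T'| = m0`. Fibre over the restriction to `T \ T'`: for a value `κ` (a member `x1`), `D = cell (pts) (U ∪ (T\T')) κ' Φ`; the points of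
 the fibre with `MT T` are divided by their values on `T'`: at most `B^m0` values (thin_card with `S = T'`, `x0 = x1` off `T'`, map as in (b)), and each value has at most `64^L #D / (n p^(4L))^m0` points of `D` (cell_le, `Val` for `D` by
 val_of_mem). The sum of the `#D` over the values `κ` is at most `#C0`. So `#{..} ≤ (B/(n p^(4L)))^m0 64^L #C0 ≤ (B/(n p^(4L)))^m0 64^L 8^L Z1 #X`, and F4: `8 * 1024^L Z1 B^m0 ≤ (n p^(4L))^m0` gives `≤ #X/(8 * 2^L)`.
 Hence at most `3/8 #X` bad points (`2^L` sets `T`), so `∑_{x ∈ X} cnt Uᶜ x ≥ (1/2) #X τ^(L-u) #O`; exchange the sums: some `o ∈ O` has `#{x ∈ X | Ad Uᶜ x (y o)} ≥ (1/2) τ^(L-u) #X`; for `x ∈ X`: `Ad Uᶜ x (y o)`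
 and `Ad U α (y o)`, `x = α` on `U` give `Ad univ x (y o)`, so this set is `cell X U α (Φ ∪ y o)`, whose weight is `W L u (φ+g) = W / p^(g(L-u))` (`Disjoint (y o) Φ`). `τ^(L-u)/p^(g(L-u)) = q^-(L-u) ≥ q^-L`.
(The case analysis (b)/(c) is by `m < m0` or `m ≥ m0`; if you want two rows, (a)+(b) and (c) are independent lemmas.)
-/
import Pool.Agent.H49.RG.Thn

set_option autoImplicit false
set_option linter.unusedSectionVars false

open Finset

namespace Pool.Agent.H49.RG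

variable {ν ω : Type} [Fintype ν] [DecidableEq ν] [DecidableEq ω] {L : ℕ}

lemma Tsg_ad {G : SimpleGraph ν} {T : Finset (Fin L)} {x x' : Fin L → ν} (h : Eqn T x x')
    (S : Finset ν) : Ad G T x S ↔ Ad G T x' S := by
  constructor
  · intro h1 j hj v hv
    rw [← h j hj]
    exact h1 j hj v hv
  · intro h1 j hj v hv
    rw [h j hj]
    exact h1 j hj v hv

lemma Tsg_eqn {T T' : Finset (Fin L)} {x x' : Fin L → ν} (h : Eqn T x x') (hT : T' ⊆ T) :
    Eqn T' x x' := fun j hj => h j (hT hj)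

open Classical in
lemma Tsg_cnt {G : SimpleGraph ν} {T : Finset (Fin L)} {x x' : Fin L → ν} (h : Eqn T x x')
    (O : Finset ω) (y : ω → Finset ν) : cnt G O y T x = cnt G O y T x' := by
  unfold cnt
  apply congrArg card
  ext o
  rw [mem_filter, mem_filter, Tsg_ad h]

open Classical in
lemma Tsg_cntl {G : SimpleGraph ν} {T : Finset (Fin L)} {x x' : Fin L → ν} (h : Eqn T x x')
    (O : Finset ω) (y : ω → Finset ν) (γ : ν) : cntl G O y γ T x = cntl G O y γ T x' := by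
  unfold cntl
  apply congrArg card
  ext o
  rw [mem_filter, mem_filter, Tsg_ad h]

lemma Tsg_thin {P : Pl ν L} {c : Num} {T : Finset (Fin L)} {x x' : Fin L → ν} (h : Eqn T x x')
    (O : Finset ω) (y : ω → Finset ν) (g : ℕ) : P.Thin c O y g T x ↔ P.Thin c O y g T x' := by
  unfold Pl.Thin
  rw [Tsg_cnt h]

lemma Tsg_MT {P : Pl ν L} {c : Num} {T : Finset (Fin L)} {x x' : Fin L → ν} (h : Eqn T x x')
    (O : Finset ω) (y : ω → Finset ν) (g : ℕ) (hx : P.MT c O y g T x) : P.MT c O y g T x' := by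
  obtain ⟨h1, h2, h3⟩ := hx
  refine ⟨(Tsg_thin h O y g).1 h1, ?_, ?_⟩
  · intro T' hT' hne ht
    exact h2 T' hT' hne ((Tsg_thin (Tsg_eqn h hT') O y g).2 ht)
  · intro T' hT' γ
    rw [← Tsg_cntl (Tsg_eqn h hT') O y γ]
    exact h3 T' hT' γ

/-- The number of points of a cell, in terms of the dense set. -/
lemma Tsg_cell {P : Pl ν L} {c : Num} {R : ℕ} (h : P.OK c) (hc : c.OK R L)
    (X : Finset (Fin L → ν)) (U : Finset (Fin L)) (α : Fin L → ν) (Φ : Finset ν) (v : ℕ)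
    (hX : P.Sp c X U α Φ c.Z1 c.G1 v) :
    ((cell P.G (pts P.G P.V) U α Φ).card : ℝ) ≤ 8 ^ L * c.Z1 * X.card := by
  have h1 := den_all_le h hc U α Φ hX.out hX.card_le
  have h2 := hX.dens
  rw [Pl.den_of_sub P c hX.sub] at h2
  unfold Pl.den at h1
  have hW : 0 < c.W L U.card Φ.card := Num.W_pos hc.p_pos hc.n_pos _ _ _
  have h3 : ((cell P.G (pts P.G P.V) U α Φ).card : ℝ) * c.W L U.card Φ.card ≤
      (8 ^ L * c.Z1 * X.card) * c.W L U.card Φ.card := by
    calc ((cell P.G (pts P.G P.V) U α Φ).card : ℝ) * c.W L U.card Φ.card ≤ 8 ^ L * c.Tot L := h1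
      _ ≤ 8 ^ L * (c.Z1 * (X.card * c.W L U.card Φ.card)) := by
          apply mul_le_mul_of_nonneg_left h2 (by positivity)
      _ = (8 ^ L * c.Z1 * X.card) * c.W L U.card Φ.card := by ring
  exact le_of_mul_le_mul_right h3 hW

open Classical in
/-- One fibre: the points with given values outside `T'`. -/
lemma Tsg_fibre {P : Pl ν L} {c : Num} {R : ℕ} (h : P.OK c) (hc : c.OK R L)
    (U : Finset (Fin L)) (α : Fin L → ν) (Φ : Finset ν) (hΦ : Φ ⊆ P.Out)
    (hΦc : Φ.card ≤ 3 * L) (O : Finset ω) (y : ω → Finset ν) (g : ℕ)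
    (hf : P.Fam c U α Φ O y g) (hO : O.Nonempty) (T T' : Finset (Fin L)) (hT' : T' ⊆ T)
    (hm : T'.card = c.m0) (U2 : Finset (Fin L)) (hU2 : T \ T' ⊆ U2) (hdis : Disjoint T' U2)
    (β : Fin L → ν) (E : Finset (Fin L → ν))
    (hE : ∀ x ∈ E, x ∈ cell P.G (pts P.G P.V) U2 β Φ ∧ P.MT c O y g T x) :
    (E.card : ℝ) * (c.n * c.p ^ (4 * L)) ^ c.m0 ≤
      c.B ^ c.m0 * (64 ^ L * (cell P.G (pts P.G P.V) U2 β Φ).card) := by
  have hBn : (0 : ℝ) ≤ c.B ^ c.m0 := pow_nonneg (le_trans zero_le_one hc.B_ge) _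
  rcases E.eq_empty_or_nonempty with hE0 | ⟨x1, hx1⟩
  · rw [hE0, card_empty, Nat.cast_zero, zero_mul]
    positivity
  have hx1c := (hE x1 hx1).1
  have hv : P.Val U2 β Φ := val_of_mem hx1c
  have hx1V : ∀ j, x1 j ∈ P.V j := (mem_pts.1 (mem_cell.1 hx1c).1).1
  have hx1e : Eqn U2 x1 β := (mem_cell.1 hx1c).2.1
  set f : (Fin L → ν) → (Fin L → ν) := fun x j => if j ∈ T' then x j else x1 j with hfdef
  have himg : E.image f ⊆ (Fintype.piFinset P.V).filter
      (fun x => (∀ j, j ∉ T' → x j = x1 j) ∧ P.MT c O y g T x) := by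
    intro τ hτ
    obtain ⟨x, hx, rfl⟩ := mem_image.1 hτ
    have hxc := (hE x hx).1
    have hxe : Eqn U2 x β := (mem_cell.1 hxc).2.1
    rw [mem_filter, Fintype.mem_piFinset]
    refine ⟨?_, ?_, ?_⟩
    · intro j
      by_cases hj : j ∈ T'
      · simp only [hfdef, if_pos hj]
        exact (mem_pts.1 (mem_cell.1 hxc).1).1 j
      · simp only [hfdef, if_neg hj]
        exact hx1V j
    · intro j hj
      simp only [hfdef, if_neg hj]
    · apply Tsg_MT (x := x) _ O y g (hE x hx).2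
      intro j hj
      by_cases hj' : j ∈ T'
      · simp only [hfdef, if_pos hj']
      · simp only [hfdef, if_neg hj']
        have hjU : j ∈ U2 := hU2 (mem_sdiff.2 ⟨hj, hj'⟩)
        rw [hxe j hjU, hx1e j hjU]
  have hic : ((E.image f).card : ℝ) ≤ c.B ^ c.m0 := by
    have h1 := thin_card h hc U α Φ O y g hf hO T T' hT' (le_of_eq hm) x1
    rw [hm] at h1
    exact le_trans (by exact_mod_cast card_le_card himg) h1
  have hcu : (U2 ∪ T').card - U2.card = c.m0 := by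
    rw [card_union_of_disjoint hdis.symm, hm]
    omega
  have hfib : ∀ τ ∈ E.image f, ((E.filter (fun x => f x = τ)).card : ℝ) *
      (c.n * c.p ^ (4 * L)) ^ c.m0 ≤ 64 ^ L * (cell P.G (pts P.G P.V) U2 β Φ).card := by
    intro τ hτ
    have h1 := cell_le h hc U2 (U2 ∪ T') β (fun j => if j ∈ T' then τ j else β j) Φ
      subset_union_left hΦ hΦc hv
    rw [hcu] at h1
    refine le_trans ?_ h1
    apply mul_le_mul_of_nonneg_right
    · have hsub : E.filter (fun x => f x = τ) ⊆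
          cell P.G (pts P.G P.V) (U2 ∪ T') (fun j => if j ∈ T' then τ j else β j) Φ := by
        intro x hx
        obtain ⟨hxE, hxτ⟩ := mem_filter.1 hx
        have hxc := (hE x hxE).1
        refine mem_cell.2 ⟨(mem_cell.1 hxc).1, ?_, (mem_cell.1 hxc).2.2⟩
        intro j hj
        by_cases hj' : j ∈ T'
        · simp only [if_pos hj']
          have := congrFun hxτ j
          simp only [hfdef, if_pos hj'] at this
          exact this
        · simp only [if_neg hj']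
          have hjU : j ∈ U2 := by
            rcases mem_union.1 hj with hj1 | hj1
            · exact hj1
            · exact absurd hj1 hj'
          exact (mem_cell.1 hxc).2.1 j hjU
      exact_mod_cast card_le_card hsub
    · have hn : (0 : ℝ) ≤ c.n := Nat.cast_nonneg _
      have hp : (0 : ℝ) ≤ c.p := hc.p_pos.le
      positivity
  have hsum : (E.card : ℝ) = ∑ τ ∈ E.image f, ((E.filter (fun x => f x = τ)).card : ℝ) := by
    rw [card_eq_sum_card_image f E]
    push_cast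
    rfl
  rw [hsum, sum_mul]
  calc ∑ τ ∈ E.image f, ((E.filter (fun x => f x = τ)).card : ℝ) *
        (c.n * c.p ^ (4 * L)) ^ c.m0
      ≤ ∑ _τ ∈ E.image f, (64 ^ L * ((cell P.G (pts P.G P.V) U2 β Φ).card : ℝ)) :=
        sum_le_sum hfib
    _ = ((E.image f).card : ℝ) * (64 ^ L * (cell P.G (pts P.G P.V) U2 β Φ).card) := by
        rw [sum_const, nsmul_eq_mul]
    _ ≤ c.B ^ c.m0 * (64 ^ L * (cell P.G (pts P.G P.V) U2 β Φ).card) :=
        mul_le_mul_of_nonneg_right hic (by positivity)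

open Classical in
/-- (c): the minimal thin tuples of at least `m0` rows. -/
theorem ts_global {P : Pl ν L} {c : Num} {R : ℕ} (h : P.OK c) (hc : c.OK R L)
    (X : Finset (Fin L → ν)) (U : Finset (Fin L)) (α : Fin L → ν) (Φ : Finset ν) (v : ℕ)
    (hX : P.Sp c X U α Φ c.Z1 c.G1 v) (O : Finset ω) (y : ω → Finset ν) (g : ℕ)
    (hf : P.Fam c U α Φ O y g) (hO : O.Nonempty) (T : Finset (Fin L)) (hT : T ⊆ Uᶜ)
    (hTm : c.m0 ≤ T.card) :
    8 * 2 ^ L * ((X.filter (fun x => P.MT c O y g T x)).card : ℝ) ≤ X.card := by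
  obtain ⟨T', hT', hm⟩ := exists_subset_card_eq hTm
  set E := X.filter (fun x => P.MT c O y g T x) with hEdef
  set Q := T \ T' with hQ
  have hUQ : Disjoint U Q := by
    rw [disjoint_left]
    intro j hjU hjQ
    exact (mem_compl.1 (hT (mem_sdiff.1 hjQ).1)) hjU
  have hdis : Disjoint T' (U ∪ Q) := by
    rw [disjoint_left]
    intro j hj hj'
    rcases mem_union.1 hj' with h1 | h1
    · exact (mem_compl.1 (hT (hT' hj))) h1
    · exact (mem_sdiff.1 h1).2 hj
  set f : (Fin L → ν) → (Fin L → ν) := fun x j => if j ∈ Q then x j else α j with hfdef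
  have hXc : ∀ x ∈ E, x ∈ cell P.G (pts P.G P.V) U α Φ := fun x hx =>
    hX.sub (mem_filter.1 hx).1
  have hmem : ∀ x ∈ E, x ∈ cell P.G (pts P.G P.V) (U ∪ Q) (f x) Φ := by
    intro x hx
    have hxc := hXc x hx
    refine mem_cell.2 ⟨(mem_cell.1 hxc).1, ?_, (mem_cell.1 hxc).2.2⟩
    intro j hj
    by_cases hjQ : j ∈ Q
    · simp only [hfdef, if_pos hjQ]
    · simp only [hfdef, if_neg hjQ]
      rcases mem_union.1 hj with h1 | h1
      · exact (mem_cell.1 hxc).2.1 j h1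
      · exact absurd h1 hjQ
  have hfib : ∀ σ ∈ E.image f, ((E.filter (fun x => f x = σ)).card : ℝ) *
      (c.n * c.p ^ (4 * L)) ^ c.m0 ≤
      c.B ^ c.m0 * (64 ^ L * (cell P.G (pts P.G P.V) (U ∪ Q) σ Φ).card) := by
    intro σ hσ
    apply Tsg_fibre h hc U α Φ hX.out hX.card_le O y g hf hO T T' hT' hm (U ∪ Q)
      subset_union_right hdis σ
    intro x hx
    obtain ⟨hxE, hxσ⟩ := mem_filter.1 hx
    refine ⟨?_, (mem_filter.1 hxE).2⟩
    have := hmem x hxE
    rwa [hxσ] at this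
  have hD : ∑ σ ∈ E.image f, ((cell P.G (pts P.G P.V) (U ∪ Q) σ Φ).card : ℝ) ≤
      (cell P.G (pts P.G P.V) U α Φ).card := by
    have hpd : ∀ σ ∈ E.image f, ∀ σ' ∈ E.image f, σ ≠ σ' →
        Disjoint (cell P.G (pts P.G P.V) (U ∪ Q) σ Φ) (cell P.G (pts P.G P.V) (U ∪ Q) σ' Φ) := by
      intro σ hσ σ' hσ' hne
      rw [disjoint_left]
      intro x hx hx'
      apply hne
      obtain ⟨z, hz, rfl⟩ := mem_image.1 hσ
      obtain ⟨z', hz', rfl⟩ := mem_image.1 hσ'
      funext j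
      by_cases hjQ : j ∈ Q
      · have e1 := (mem_cell.1 hx).2.1 j (mem_union_right _ hjQ)
        have e2 := (mem_cell.1 hx').2.1 j (mem_union_right _ hjQ)
        rw [← e1, ← e2]
      · simp only [hfdef, if_neg hjQ]
    have h1 : ∑ σ ∈ E.image f, (cell P.G (pts P.G P.V) (U ∪ Q) σ Φ).card =
        ((E.image f).biUnion (fun σ => cell P.G (pts P.G P.V) (U ∪ Q) σ Φ)).card :=
      (card_biUnion hpd).symm
    have h2 : ((E.image f).biUnion (fun σ => cell P.G (pts P.G P.V) (U ∪ Q) σ Φ)).card ≤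
        (cell P.G (pts P.G P.V) U α Φ).card := by
      apply card_le_card
      intro x hx
      obtain ⟨σ, hσ, hxσ⟩ := mem_biUnion.1 hx
      obtain ⟨z, hz, rfl⟩ := mem_image.1 hσ
      refine cell_anti _ subset_union_left ?_ (Subset.refl _) hxσ
      intro j hj
      have hjQ : j ∉ Q := disjoint_left.1 hUQ hj
      simp only [hfdef, if_neg hjQ]
    rw [← h1] at h2
    exact_mod_cast h2
  have hsum : (E.card : ℝ) = ∑ σ ∈ E.image f, ((E.filter (fun x => f x = σ)).card : ℝ) := by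
    rw [card_eq_sum_card_image f E]
    push_cast
    rfl
  have hB0 : (0 : ℝ) ≤ c.B := le_trans zero_le_one hc.B_ge
  have hBn : (0 : ℝ) ≤ c.B ^ c.m0 := pow_nonneg hB0 _
  have hn : (0 : ℝ) < c.n := by exact_mod_cast hc.n_pos
  have hp : (0 : ℝ) < c.p := hc.p_pos
  have hN : (0 : ℝ) < (c.n * c.p ^ (4 * L)) ^ c.m0 := by positivity
  have hE1 : (E.card : ℝ) * (c.n * c.p ^ (4 * L)) ^ c.m0 ≤
      c.B ^ c.m0 * (64 ^ L * (cell P.G (pts P.G P.V) U α Φ).card) := by
    rw [hsum, sum_mul]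
    calc ∑ σ ∈ E.image f, ((E.filter (fun x => f x = σ)).card : ℝ) *
          (c.n * c.p ^ (4 * L)) ^ c.m0
        ≤ ∑ σ ∈ E.image f, c.B ^ c.m0 *
            (64 ^ L * ((cell P.G (pts P.G P.V) (U ∪ Q) σ Φ).card : ℝ)) := sum_le_sum hfib
      _ = c.B ^ c.m0 * (64 ^ L *
            ∑ σ ∈ E.image f, ((cell P.G (pts P.G P.V) (U ∪ Q) σ Φ).card : ℝ)) := by
          rw [← mul_sum, ← mul_sum]
      _ ≤ c.B ^ c.m0 * (64 ^ L * (cell P.G (pts P.G P.V) U α Φ).card) := by
          apply mul_le_mul_of_nonneg_left _ hBn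
          exact mul_le_mul_of_nonneg_left hD (by positivity)
  have hC := Tsg_cell h hc X U α Φ v hX
  have hF4 := hc.F4
  have hXn : (0 : ℝ) ≤ X.card := Nat.cast_nonneg _
  have h512 : (2 : ℝ) ^ L * (64 ^ L * 8 ^ L) = 1024 ^ L := by
    rw [← mul_pow, ← mul_pow]
    norm_num
  have hfin : (8 * 2 ^ L * (E.card : ℝ)) * (c.n * c.p ^ (4 * L)) ^ c.m0 ≤
      (X.card : ℝ) * (c.n * c.p ^ (4 * L)) ^ c.m0 := by
    calc (8 * 2 ^ L * (E.card : ℝ)) * (c.n * c.p ^ (4 * L)) ^ c.m0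
        = 8 * 2 ^ L * ((E.card : ℝ) * (c.n * c.p ^ (4 * L)) ^ c.m0) := by ring
      _ ≤ 8 * 2 ^ L * (c.B ^ c.m0 * (64 ^ L * (cell P.G (pts P.G P.V) U α Φ).card)) :=
          mul_le_mul_of_nonneg_left hE1 (by positivity)
      _ ≤ 8 * 2 ^ L * (c.B ^ c.m0 * (64 ^ L * (8 ^ L * c.Z1 * X.card))) := by
          apply mul_le_mul_of_nonneg_left _ (by positivity)
          apply mul_le_mul_of_nonneg_left _ hBn
          exact mul_le_mul_of_nonneg_left hC (by positivity)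
      _ = (8 * (2 ^ L * (64 ^ L * 8 ^ L)) * c.Z1 * c.B ^ c.m0) * X.card := by ring
      _ = (8 * 1024 ^ L * c.Z1 * c.B ^ c.m0) * X.card := by rw [h512]
      _ ≤ (c.n * c.p ^ (4 * L)) ^ c.m0 * X.card := mul_le_mul_of_nonneg_right hF4 hXn
      _ = (X.card : ℝ) * (c.n * c.p ^ (4 * L)) ^ c.m0 := by ring
  exact le_of_mul_le_mul_right hfin hN

end Pool.Agent.H49.RG
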