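/-
ROW Ts (about 120 lines). The main lemma from ts_local, ts_global, spiky_card (used as stated). Uses spiky_card, thin_card, cell_le, W_le, den_all_le as stated.
Let `W = c.W L u φ`, `u = U.card`, `τ = p^g/q`, `C0 = cell (pts) U α Φ`. `X ⊆ C0` nonempty (`0 < Tot ≤ Z1 den X`, and `den X = #X * W`, den_of_sub). `Val` by val_of_mem.
`#C0 ≤ 8^L Z1 #X` (den_all_le: `#C0 W ≤ 8^L Tot ≤ 8^L Z1 #X W`).
Call `x ∈ X` bad if `¬ NoSpike Uᶜ x` or `Thin Uᶜ x`. If `NoSpike` and `Thin Uᶜ x` then some minimal `T ⊆ Uᶜ` with `Thin T x` (`Finset.exists_minimal`..), `T ≠ ∅` (`Thin ∅` would be `#O < #O`), and `MT T x`.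
(a) `#{x ∈ X | ¬ NoSpike} ≤ 128^L No #C0 / β^k ≤ 1024^L No Z1 #X/β^k ≤ #X/8` (F2).
(b) For `T ⊆ Uᶜ`, `1 ≤ m = |T| < m0`: `#{x ∈ X | MT T x} ≤ #X/(8 * 2^L)`. The restriction to `T` (map `x ↦ fun j => if j ∈ T then x j else x0 j`, `x0` fixed with letters in the blocks, e.g. a member of `X`) sends these
 points into the set of thin_card with `S = T` (`MT T` depends only on `x` on `T`), at most `B^m` images; the fibre of `σ` is contained in `cell X (U ∪ T) σ' Φ` (`σ' = σ` on `T`, `α` on `U`), and (upper with `Φ' = Φ`)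
 `#cell X (U∪T) σ' Φ * W L (u+m) φ ≤ G1 h^m #X W`, with W_le: `#fibre * (n p^(4L))^m ≤ G1 h^m #X`. So `#{..} * (n p^(4L))^m ≤ G1 (B h)^m #X`, and `B h ≤ n p^(4L)` (F3), `m ≥ 1`, F3 give the claim
 (`Finset.card_le_mul_card_image` or `card_eq_sum_card_fiberwise`).
(c) For `T ⊆ Uᶜ`, `|T| ≥ m0`: `#{x ∈ C0 | MT T x} ≤ #X/(8 * 2^L)`. Take `T' ⊆ T`, `|T'| = m0`. Fibre over the restriction to `T \ T'`: for a value `κ` (a member `x1`), `D = cell (pts) (U ∪ (T\T')) κ' Φ`; the points of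
 the fibre with `MT T` are divided by their values on `T'`: at most `B^m0` values (thin_card with `S = T'`, `x0 = x1` off `T'`, map as in (b)), and each value has at most `64^L #D / (n p^(4L))^m0` points of `D` (cell_le, `Val` for `D` by
 val_of_mem). The sum of the `#D` over the values `κ` is at most `#C0`. So `#{..} ≤ (B/(n p^(4L)))^m0 64^L #C0 ≤ (B/(n p^(4L)))^m0 64^L 8^L Z1 #X`, and F4: `8 * 1024^L Z1 B^m0 ≤ (n p^(4L))^m0` gives `≤ #X/(8 * 2^L)`.
 Hence at most `3/8 #X` bad points (`2^L` sets `T`), so `∑_{x ∈ X} cnt Uᶜ x ≥ (1/2) #X τ^(L-u) #O`; exchange the sums: some `o ∈ O` has `#{x ∈ X | Ad Uᶜ x (y o)} ≥ (1/2) τ^(L-u) #X`; for `x ∈ X`: `Ad Uᶜ x (y o)`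
 and `Ad U α (y o)`, `x = α` on `U` give `Ad univ x (y o)`, so this set is `cell X U α (Φ ∪ y o)`, whose weight is `W L u (φ+g) = W / p^(g(L-u))` (`Disjoint (y o) Φ`). `τ^(L-u)/p^(g(L-u)) = q^-(L-u) ≥ q^-L`.
(The case analysis (b)/(c) is by `m < m0` or `m ≥ m0`; if you want two rows, (a)+(b) and (c) are independent lemmas.)
-/
import Pool.Agent.H49.RG.Tsl
import Pool.Agent.H49.RG.Tsg

set_option autoImplicit false
set_option linter.unusedSectionVars false

open Finset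

namespace Pool.Agent.H49.RG

variable {ν ω : Type} [Fintype ν] [DecidableEq ν] [DecidableEq ω] {L : ℕ}

private lemma Ts_minimal {P : Pl ν L} {c : Num} {O : Finset ω} {y : ω → Finset ν} {g : ℕ}
    (T0 : Finset (Fin L)) (x : Fin L → ν) (hN : P.NoSpike c O y g T0 x)
    (hT : P.Thin c O y g T0 x) : ∃ T ⊆ T0, T.Nonempty ∧ P.MT c O y g T x := by
  classical
  have hS : (T0.powerset.filter (fun T => P.Thin c O y g T x)).Nonempty :=
    ⟨T0, mem_filter.2 ⟨mem_powerset_self _, hT⟩⟩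
  obtain ⟨T, hTS, hmin⟩ := exists_min_image _ card hS
  obtain ⟨hT1, hT2⟩ := mem_filter.1 hTS
  rw [mem_powerset] at hT1
  refine ⟨T, hT1, ?_, hT2, fun T' hT' hne hthin => ?_, fun T' hT' γ => hN T' (hT'.trans hT1) γ⟩
  · rw [nonempty_iff_ne_empty]
    rintro rfl
    have h1 : cnt P.G O y ∅ x = O.card := by
      unfold cnt
      rw [filter_true_of_mem]
      intro o _ j hj
      exact absurd hj (notMem_empty j)
    unfold Pl.Thin at hT2
    rw [h1, card_empty, pow_zero, one_mul] at hT2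
    exact lt_irrefl _ hT2
  · have h1 := hmin T' (mem_filter.2 ⟨mem_powerset.2 (hT'.trans hT1), hthin⟩)
    exact absurd (card_lt_card (Finset.ssubset_iff_subset_ne.2 ⟨hT', hne⟩)) (not_lt.2 h1)

theorem ts {P : Pl ν L} {c : Num} {R : ℕ} (h : P.OK c) (hc : c.OK R L)
    (X : Finset (Fin L → ν)) (U : Finset (Fin L)) (α : Fin L → ν) (Φ : Finset ν) (v : ℕ)
    (hX : P.Sp c X U α Φ c.Z1 c.G1 v) (O : Finset ω) (y : ω → Finset ν) (g : ℕ)
    (hf : P.Fam c U α Φ O y g) (hO : O.Nonempty) :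
    ∃ o ∈ O, P.den c X U α Φ ≤ 2 * c.q ^ L * P.den c X U α (Φ ∪ y o) := by
  classical
  have hp := hc.p_pos
  have hq : (2 : ℝ) ≤ c.q := hc.q_ge
  have hq0 : 0 < c.q := by linarith
  have hβ : (16 : ℝ) ≤ c.β := hc.β_ge
  have hβ0 : 0 < c.β := by linarith
  have hden := P.den_of_sub c hX.sub
  have hW0 : 0 < c.W L U.card Φ.card := Num.W_pos hp hc.n_pos _ _ _
  have hTot : 0 < c.Tot L := Num.Tot_pos hp hc.n_pos L
  have hZ : (1 : ℝ) ≤ c.Z1 := hc.Z1_ge
  have hdens := hX.dens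
  rw [hden] at hdens
  have hXne : X.Nonempty := by
    rw [nonempty_iff_ne_empty]
    rintro rfl
    rw [card_empty] at hdens
    simp only [Nat.cast_zero, zero_mul, mul_zero] at hdens
    linarith
  obtain ⟨x0, hx0⟩ := hXne
  have hv := val_of_mem (hX.sub hx0)
  set W := c.W L U.card Φ.card with hW
  set C0 := cell P.G (pts P.G P.V) U α Φ with hC0
  have hC0card : (C0.card : ℝ) ≤ 8 ^ L * c.Z1 * X.card := by
    have h1 := den_all_le h hc U α Φ hX.out hX.card_le
    unfold Pl.den at h1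
    have h2 : (C0.card : ℝ) * W ≤ (8 ^ L * c.Z1 * X.card) * W := by
      calc (C0.card : ℝ) * W ≤ 8 ^ L * c.Tot L := h1
        _ ≤ 8 ^ L * (c.Z1 * (X.card * W)) := by gcongr
        _ = _ := by ring
    exact le_of_mul_le_mul_right h2 hW0
  set A1 := X.filter (fun x => ¬ P.NoSpike c O y g Uᶜ x) with hA1
  have ha : 8 * (A1.card : ℝ) ≤ X.card := by
    have h1 := spiky_card h hc U α Φ hX.out hX.card_le hv O y g hf hO
    have h2 : A1.card ≤ (C0.filter (fun x => ¬ P.NoSpike c O y g Uᶜ x)).card :=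
      card_le_card (filter_subset_filter _ hX.sub)
    have h3 : (A1.card : ℝ) * c.β ^ c.k ≤ 128 ^ L * c.No * (8 ^ L * c.Z1 * X.card) := by
      calc (A1.card : ℝ) * c.β ^ c.k
          ≤ ((C0.filter (fun x => ¬ P.NoSpike c O y g Uᶜ x)).card : ℝ) * c.β ^ c.k := by
            have : (A1.card : ℝ) ≤ ((C0.filter (fun x => ¬ P.NoSpike c O y g Uᶜ x)).card : ℝ) := by
              exact_mod_cast h2
            exact mul_le_mul_of_nonneg_right this (by positivity)
        _ ≤ 128 ^ L * c.No * C0.card := by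
            convert h1 using 3
        _ ≤ _ := by gcongr
    have h4 := hc.F2
    have h5 : (128 : ℝ) ^ L * 8 ^ L = 1024 ^ L := by rw [← mul_pow]; norm_num
    have h6 : 8 * (A1.card : ℝ) * c.β ^ c.k ≤ X.card * c.β ^ c.k := by
      calc 8 * (A1.card : ℝ) * c.β ^ c.k = 8 * ((A1.card : ℝ) * c.β ^ c.k) := by ring
        _ ≤ 8 * (128 ^ L * c.No * (8 ^ L * c.Z1 * X.card)) := by gcongr
        _ = X.card * (8 * (128 ^ L * 8 ^ L) * c.No * c.Z1) := by ring
        _ ≤ X.card * c.β ^ c.k := by rw [h5]; gcongr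
    exact le_of_mul_le_mul_right h6 (by positivity)
  set I := (Uᶜ : Finset (Fin L)).powerset.filter (fun T => T.Nonempty) with hI
  have hT : ∀ T ∈ I, 8 * 2 ^ L * ((X.filter (fun x => P.MT c O y g T x)).card : ℝ) ≤ X.card := by
    intro T hT
    obtain ⟨h1, h2⟩ := mem_filter.1 hT
    rw [mem_powerset] at h1
    rcases le_total T.card c.m0 with h3 | h3
    · convert ts_local h hc X U α Φ v hX O y g hf hO T h1 h2.card_pos h3 using 4
    · convert ts_global h hc X U α Φ v hX O y g hf hO T h1 h3 using 4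
  set B := X.filter (fun x => P.Thin c O y g Uᶜ x) with hBdef
  have hB : B ⊆ A1 ∪ I.biUnion (fun T => X.filter (fun x => P.MT c O y g T x)) := by
    intro x hx
    obtain ⟨hxX, hxT⟩ := mem_filter.1 hx
    by_cases hN : P.NoSpike c O y g Uᶜ x
    · obtain ⟨T, hT1, hT2, hT3⟩ := Ts_minimal Uᶜ x hN hxT
      exact mem_union_right _ (mem_biUnion.2 ⟨T, mem_filter.2 ⟨mem_powerset.2 hT1, hT2⟩,
        mem_filter.2 ⟨hxX, hT3⟩⟩)
    · exact mem_union_left _ (mem_filter.2 ⟨hxX, hN⟩)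
  have hBc : 4 * (B.card : ℝ) ≤ X.card := by
    have h1 : (B.card : ℝ) ≤ A1.card +
        ∑ T ∈ I, ((X.filter (fun x => P.MT c O y g T x)).card : ℝ) := by
      have := (card_le_card hB).trans ((card_union_le _ _).trans
        (Nat.add_le_add_left card_biUnion_le _))
      exact_mod_cast this
    have hIc : (I.card : ℝ) ≤ 2 ^ L := by
      have h3 : I.card ≤ (Uᶜ : Finset (Fin L)).powerset.card := card_filter_le _ _
      rw [card_powerset] at h3
      have h4 : (Uᶜ : Finset (Fin L)).card ≤ L := by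
        have := card_le_univ (Uᶜ : Finset (Fin L))
        rwa [Fintype.card_fin] at this
      have h5 : 2 ^ (Uᶜ : Finset (Fin L)).card ≤ 2 ^ L := Nat.pow_le_pow_right (by norm_num) h4
      exact_mod_cast h3.trans h5
    have h2 : 8 * 2 ^ L * ∑ T ∈ I, ((X.filter (fun x => P.MT c O y g T x)).card : ℝ) ≤
        2 ^ L * X.card := by
      rw [mul_sum]
      calc _ ≤ ∑ T ∈ I, (X.card : ℝ) := sum_le_sum hT
        _ = I.card * X.card := by rw [sum_const, nsmul_eq_mul]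
        _ ≤ 2 ^ L * X.card := by gcongr
    have h3 : 8 * ∑ T ∈ I, ((X.filter (fun x => P.MT c O y g T x)).card : ℝ) ≤ X.card := by
      have h4 : (2 : ℝ) ^ L * (8 * ∑ T ∈ I, ((X.filter (fun x => P.MT c O y g T x)).card : ℝ)) ≤
          2 ^ L * X.card := by
        calc _ = 8 * 2 ^ L * ∑ T ∈ I, ((X.filter (fun x => P.MT c O y g T x)).card : ℝ) := by ring
          _ ≤ _ := h2
      exact le_of_mul_le_mul_left h4 (by positivity)
    linarith
  set τ := c.p ^ g / c.q with hτ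
  have hτ0 : 0 < τ := by positivity
  have hu : (Uᶜ : Finset (Fin L)).card = L - U.card := by rw [card_compl, Fintype.card_fin]
  have hgood : 1 / 2 * (X.card : ℝ) * (τ ^ (L - U.card) * O.card) ≤
      ∑ x ∈ X, (cnt P.G O y Uᶜ x : ℝ) := by
    have h1 : ∑ x ∈ X \ B, (τ ^ (L - U.card) * (O.card : ℝ)) ≤
        ∑ x ∈ X \ B, (cnt P.G O y Uᶜ x : ℝ) := by
      apply sum_le_sum
      intro x hx
      have hx' : ¬ P.Thin c O y g Uᶜ x := fun ht =>
        (mem_sdiff.1 hx).2 (mem_filter.2 ⟨(mem_sdiff.1 hx).1, ht⟩)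
      unfold Pl.Thin at hx'
      rw [not_lt, hu] at hx'
      exact hx'
    have h2 : ∑ x ∈ X \ B, (cnt P.G O y Uᶜ x : ℝ) ≤ ∑ x ∈ X, (cnt P.G O y Uᶜ x : ℝ) :=
      sum_le_sum_of_subset_of_nonneg sdiff_subset (fun _ _ _ => Nat.cast_nonneg _)
    have h3 : B.card ≤ X.card := card_filter_le _ _
    rw [sum_const, nsmul_eq_mul, card_sdiff_of_subset (filter_subset _ _), Nat.cast_sub h3] at h1
    have h4 : 1 / 2 * (X.card : ℝ) ≤ (X.card : ℝ) - B.card := by
      have : (0 : ℝ) ≤ B.card := Nat.cast_nonneg _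
      linarith
    calc 1 / 2 * (X.card : ℝ) * (τ ^ (L - U.card) * O.card)
        ≤ ((X.card : ℝ) - B.card) * (τ ^ (L - U.card) * O.card) :=
          mul_le_mul_of_nonneg_right h4 (by positivity)
      _ ≤ _ := h1.trans h2
  have hex : ∑ x ∈ X, (cnt P.G O y Uᶜ x : ℝ) =
      ∑ o ∈ O, ((X.filter (fun x => Ad P.G Uᶜ x (y o))).card : ℝ) := by
    unfold cnt
    simp only [card_filter, Nat.cast_sum]
    rw [sum_comm]
  obtain ⟨o, ho, hoc⟩ : ∃ o ∈ O, 1 / 2 * (X.card : ℝ) * τ ^ (L - U.card) ≤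
      ((X.filter (fun x => Ad P.G Uᶜ x (y o))).card : ℝ) := by
    by_contra hcon
    push Not at hcon
    have h1 := sum_lt_sum_of_nonempty hO hcon
    rw [sum_const, nsmul_eq_mul, ← hex] at h1
    have h2 : (O.card : ℝ) * (1 / 2 * (X.card : ℝ) * τ ^ (L - U.card)) =
        1 / 2 * (X.card : ℝ) * (τ ^ (L - U.card) * O.card) := by ring
    rw [h2] at h1
    exact absurd hgood (not_le.2 h1)
  refine ⟨o, ho, ?_⟩
  have hsub : X.filter (fun x => Ad P.G Uᶜ x (y o)) ⊆ cell P.G X U α (Φ ∪ y o) := by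
    intro x hx
    obtain ⟨hxX, hxa⟩ := mem_filter.1 hx
    obtain ⟨h1, h2, h3⟩ := mem_cell.1 (hX.sub hxX)
    refine mem_cell.2 ⟨hxX, h2, fun j _ w hw => ?_⟩
    rcases mem_union.1 hw with hw | hw
    · exact h3 j (mem_univ j) w hw
    · by_cases hj : j ∈ U
      · rw [h2 j hj]
        exact hf.ad o ho j hj w hw
      · exact hxa j (mem_compl.2 hj) w hw
  have hcard : (Φ ∪ y o).card = Φ.card + g := by
    rw [card_union_of_disjoint (hf.dis o ho).symm, hf.card o ho]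
  have hWg : c.W L U.card (Φ.card + g) = W / c.p ^ (g * (L - U.card)) := by
    rw [hW]
    unfold Num.W
    rw [add_mul, pow_add, div_div]
  have hc1 : 1 / 2 * (X.card : ℝ) * τ ^ (L - U.card) ≤
      ((cell P.G X U α (Φ ∪ y o)).card : ℝ) :=
    hoc.trans (by exact_mod_cast card_le_card hsub)
  have hτp : τ ^ (L - U.card) = c.p ^ (g * (L - U.card)) / c.q ^ (L - U.card) := by
    rw [hτ, div_pow, ← pow_mul]
  have hqL : c.q ^ (L - U.card) ≤ c.q ^ L := pow_le_pow_right₀ (by linarith) (Nat.sub_le _ _)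
  rw [hden]
  unfold Pl.den
  rw [hcard, hWg]
  calc (X.card : ℝ) * W = 2 * c.q ^ (L - U.card) *
        ((1 / 2 * (X.card : ℝ) * τ ^ (L - U.card)) * (W / c.p ^ (g * (L - U.card)))) := by
        rw [hτp]
        field_simp
    _ ≤ 2 * c.q ^ L * (((cell P.G X U α (Φ ∪ y o)).card : ℝ) *
        (W / c.p ^ (g * (L - U.card)))) := by
        gcongr

end Pool.Agent.H49.RG
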