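/-
ROW Lg (about 170 lines). Few minimal light sets. Uses ts, Sp.shrink, Sp.mono as stated. Let `ρ = (1/p)^(L-u) β^2 ≥ 1` and `A` with `Sp A U α Φ (2 β^(8w)/κ0) 8 (3w)`.
ml_card: for `1 ≤ g ≤ w` and every `Q`: `#{γ ∈ ML_g | Q ⊆ γ} ρ^|Q| ≤ ρ^g`.
PROOF. Suppose it fails for `Q`. Take `b ⊇ Q` maximising `#{γ ∈ ML_g | b ⊆ γ} ρ^|b|` over all `b ⊇ Q`; the value is `> ρ^g`, so `{γ ∈ ML_g | b ⊆ γ}` is nonempty and `|b| < g` (if `|b| = g` it is `{b}` and the value is `ρ^g`). `O = {γ ∈ ML_g | b ⊆ γ}`, family `γ ↦ γ \ b`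
 of size `g' = g - |b|`, `1 ≤ g' ≤ w`. `Fam` for `(U, α, Φ ∪ b)`: out, dis, ad clear from Light. rate: for `δ` with `δ ∩ b = ∅`: `{γ ∈ O | δ ⊆ γ \ b} = {γ ∈ ML_g | b ∪ δ ⊆ γ}` and maximality (`b ∪ δ ⊇ Q`) gives `#.. ρ^(|b|+|δ|) ≤ #O ρ^|b|`; if `δ ∩ b ≠ ∅` it is empty.
 `b` is not light: it is a proper subset of a member of `ML_g`. As `b ⊆ Out`, disjoint from `Φ`, adjacent to `α`: `den A Φ ≤ h1^|b| den A (Φ∪b)`. `Sp.shrink` with `F = b`, `d = |b| < w`.. (take `θ = h1^|b| ≤ h1^w`, `d = |b|`): `Sp (cell A U α (Φ∪b)) U α (Φ∪b) (2β^(8w)/κ0 * h1^|b|) (8 * (h1^|b| * h1^|b|)) (3w - |b|)`,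
 and by FZ, FG constants `≤ Z1, G1` (mono). `ts` gives `γ ∈ O` with `den (Φ∪b) ≤ 2 q^L den (Φ ∪ b ∪ (γ \ b))`, `Φ ∪ b ∪ (γ \ b) = Φ ∪ γ`, `den` of the cell = `den A`. So `den A Φ ≤ h1^|b| 2 q^L den A (Φ∪γ) ≤ h1^(|b|+1) den A (Φ∪γ) ≤ h1^g den A (Φ∪γ)` (F5): not light. Contradiction.
 (The card bound `(Φ ∪ b).card ≤ 3L`: hypothesis hΦ.)
-/
import Pool.Agent.H49.RG.Ts
import Pool.Agent.H49.RG.SpB

set_option autoImplicit false
set_option linter.unusedSectionVars false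

open Finset

namespace Pool.Agent.H49.RG

variable {ν : Type} [Fintype ν] [DecidableEq ν] {L : ℕ}

lemma Lg_rho_pos {c : Num} {R : ℕ} (hc : c.OK R L) (u : ℕ) :
    1 ≤ (1 / c.p) ^ (L - u) * c.β ^ 2 := by
  have hp := hc.p_pos
  have h1 : 1 ≤ 1 / c.p := by
    rw [le_div_iff₀ hp, one_mul]
    exact hc.p_le
  have h2 : 1 ≤ (1 / c.p) ^ (L - u) := one_le_pow₀ h1
  have h3 : 1 ≤ c.β ^ 2 := one_le_pow₀ (by linarith [hc.β_ge])
  nlinarith

open Classical in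
theorem ml_card {P : Pl ν L} {c : Num} {R : ℕ} (h : P.OK c) (hc : c.OK R L)
    (A : Finset (Fin L → ν)) (U : Finset (Fin L)) (α : Fin L → ν) (Φ : Finset ν)
    (hA : P.Sp c A U α Φ (2 * c.β ^ (8 * c.w) / c.κ0) 8 (3 * c.w))
    (hΦ : Φ.card + c.w ≤ 3 * L) (g : ℕ) (hg : 1 ≤ g) (hgw : g ≤ c.w) (Q : Finset ν) :
    (((P.ML c A U α Φ g).filter (fun γ => Q ⊆ γ)).card : ℝ) *
      ((1 / c.p) ^ (L - U.card) * c.β ^ 2) ^ Q.card ≤
      ((1 / c.p) ^ (L - U.card) * c.β ^ 2) ^ g := by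
  by_contra hcon
  have hρ := Lg_rho_pos (L := L) hc U.card
  set ρ : ℝ := (1 / c.p) ^ (L - U.card) * c.β ^ 2 with hρdef
  have hρ0 : 0 < ρ := by linarith
  set f : Finset ν → ℝ := fun b =>
    (((P.ML c A U α Φ g).filter (fun γ => b ⊆ γ)).card : ℝ) * ρ ^ b.card with hf
  obtain ⟨b, hb1, hb2⟩ := Finset.exists_max_image
    ((univ : Finset (Finset ν)).filter (fun b => Q ⊆ b)) f
    ⟨Q, Finset.mem_filter.2 ⟨Finset.mem_univ _, Finset.Subset.refl _⟩⟩
  have hQb : Q ⊆ b := (Finset.mem_filter.1 hb1).2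
  have hfQ : ρ ^ g < f b := by
    refine lt_of_lt_of_le (not_le.1 hcon) ?_
    exact hb2 Q (Finset.mem_filter.2 ⟨Finset.mem_univ _, Finset.Subset.refl _⟩)
  set O : Finset (Finset ν) := (P.ML c A U α Φ g).filter (fun γ => b ⊆ γ) with hOdef
  have hfb : f b = (O.card : ℝ) * ρ ^ b.card := rfl
  have hOne : O.Nonempty := by
    rw [Finset.nonempty_iff_ne_empty]
    intro h0
    rw [hfb, h0] at hfQ
    have : (0 : ℝ) < ρ ^ g := pow_pos hρ0 _
    simp at hfQ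
    linarith
  have hOmem : ∀ γ ∈ O, γ ∈ P.ML c A U α Φ g ∧ b ⊆ γ := fun γ hγ => Finset.mem_filter.1 hγ
  obtain ⟨γ0, hγ0⟩ := hOne
  obtain ⟨hγ0m, hbγ0⟩ := hOmem γ0 hγ0
  obtain ⟨hγ0c, hγ0L, hγ0min⟩ := Pl.mem_ML.1 hγ0m
  have hbg : b.card < g := by
    rcases lt_or_ge b.card g with h1 | h1
    · exact h1
    · exfalso
      have h2 : ∀ γ ∈ O, γ = b := by
        intro γ hγ
        obtain ⟨h3, h4⟩ := hOmem γ hγ
        have h5 := (Pl.mem_ML.1 h3).1
        exact (Finset.eq_of_subset_of_card_le h4 (by omega)).symm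
      have h3 : O.card ≤ 1 := by
        rw [Finset.card_le_one]
        intro x hx z hz
        rw [h2 x hx, h2 z hz]
      have h4 : b.card ≤ g := by
        rw [← hγ0c]
        exact Finset.card_le_card hbγ0
      have h5 : b.card = g := le_antisymm h4 h1
      have h6 : f b ≤ ρ ^ g := by
        rw [hfb, h5]
        have h7 : (O.card : ℝ) ≤ 1 := by exact_mod_cast h3
        have h8 : 0 < ρ ^ g := pow_pos hρ0 _
        nlinarith
      linarith
  have hbne : b ≠ γ0 := by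
    intro h1
    rw [h1, hγ0c] at hbg
    exact lt_irrefl _ hbg
  have hbnl := hγ0min b hbγ0 hbne
  obtain ⟨hγout, hγdis, hγad, -⟩ := hγ0L
  have hbout : b ⊆ P.Out := hbγ0.trans hγout
  have hbdis : Disjoint b Φ := Finset.disjoint_of_subset_left hbγ0 hγdis
  have hbad : Ad P.G U α b := hγad.mono (Finset.Subset.refl _) hbγ0
  have hbden : P.den c A U α Φ ≤ c.h1 ^ b.card * P.den c A U α (Φ ∪ b) := by
    by_contra h1
    exact hbnl ⟨hbout, hbdis, hbad, not_le.1 h1⟩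
  have hh1 := hc.h1_ge
  have hh10 : 0 < c.h1 := by linarith
  have hβ := hc.β_ge
  have hκ := hc.κ0_pos
  have hZ0 : 0 ≤ 2 * c.β ^ (8 * c.w) / c.κ0 := by positivity
  have hbw : b.card ≤ c.w := by omega
  have hSp := hA.shrink hc hZ0 (by norm_num) (pow_nonneg hh10.le b.card) b hbout b.card le_rfl
    (by
      have := Finset.card_union_le Φ b
      omega) (by omega) hbden
  have hpw : c.h1 ^ b.card ≤ c.h1 ^ c.w := pow_le_pow_right₀ hh1 hbw
  have hSp' : P.Sp c (cell P.G A U α (Φ ∪ b)) U α (Φ ∪ b) c.Z1 c.G1 (3 * c.w - b.card) := by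
    refine hSp.mono hc ?_ ?_ le_rfl
    · have h1 := hc.FZ
      have h2 : 2 * c.β ^ (8 * c.w) / c.κ0 * c.h1 ^ b.card =
          (2 * c.β ^ (8 * c.w) * c.h1 ^ b.card) / c.κ0 := by ring
      rw [h2, div_le_iff₀ hκ]
      have h3 : 2 * c.β ^ (8 * c.w) * c.h1 ^ b.card ≤ 2 * c.β ^ (8 * c.w) * c.h1 ^ c.w :=
        mul_le_mul_of_nonneg_left hpw (by positivity)
      linarith
    · have h1 := hc.FG
      have h2 : c.h1 ^ b.card * c.h1 ^ b.card ≤ c.h1 ^ (2 * c.w) := by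
        rw [← pow_add]
        exact pow_le_pow_right₀ hh1 (by omega)
      linarith
  have hFam : P.Fam c U α (Φ ∪ b) O (fun γ => γ \ b) (g - b.card) := by
    refine ⟨by omega, by omega, ?_, ?_, ?_, ?_, ?_⟩
    · intro o ho
      obtain ⟨h1, -⟩ := hOmem o ho
      exact (Finset.sdiff_subset).trans (Pl.mem_ML.1 h1).2.1.1
    · intro o ho
      obtain ⟨h1, -⟩ := hOmem o ho
      have h2 := (Pl.mem_ML.1 h1).2.1.2.1
      rw [Finset.disjoint_union_right]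
      exact ⟨Finset.disjoint_of_subset_left Finset.sdiff_subset h2, Finset.sdiff_disjoint⟩
    · intro o ho
      obtain ⟨h1, h2⟩ := hOmem o ho
      show (o \ b).card = g - b.card
      rw [Finset.card_sdiff_of_subset h2, (Pl.mem_ML.1 h1).1]
    · intro o ho
      obtain ⟨h1, -⟩ := hOmem o ho
      exact (Pl.mem_ML.1 h1).2.1.2.2.1.mono (Finset.Subset.refl _) Finset.sdiff_subset
    · intro δ
      rw [← hρdef]
      by_cases hδ : Disjoint δ b
      · have h1 : O.filter (fun o => δ ⊆ o \ b) =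
            (P.ML c A U α Φ g).filter (fun γ => b ∪ δ ⊆ γ) := by
          ext γ
          rw [hOdef]
          simp only [Finset.mem_filter]
          constructor
          · rintro ⟨⟨h2, h3⟩, h4⟩
            exact ⟨h2, Finset.union_subset h3 (h4.trans Finset.sdiff_subset)⟩
          · rintro ⟨h2, h3⟩
            refine ⟨⟨h2, Finset.subset_union_left.trans h3⟩, ?_⟩
            rw [Finset.subset_sdiff]
            exact ⟨Finset.subset_union_right.trans h3, hδ⟩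
        have h2 := hb2 (b ∪ δ) (Finset.mem_filter.2 ⟨Finset.mem_univ _,
          hQb.trans Finset.subset_union_left⟩)
        have h3 : f (b ∪ δ) = ((O.filter (fun o => δ ⊆ o \ b)).card : ℝ) *
            (ρ ^ b.card * ρ ^ δ.card) := by
          rw [h1, ← pow_add, ← Finset.card_union_of_disjoint hδ.symm]
        rw [h3, hfb] at h2
        have h4 : 0 < ρ ^ b.card := pow_pos hρ0 _
        have h5 : ((O.filter (fun o => δ ⊆ o \ b)).card : ℝ) * ρ ^ δ.card * ρ ^ b.card ≤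
            (O.card : ℝ) * ρ ^ b.card := by
          calc _ = ((O.filter (fun o => δ ⊆ o \ b)).card : ℝ) *
            (ρ ^ b.card * ρ ^ δ.card) := by ring
            _ ≤ _ := h2
        exact le_of_mul_le_mul_right h5 h4
      · have h1 : O.filter (fun o => δ ⊆ o \ b) = ∅ := by
          rw [Finset.filter_eq_empty_iff]
          intro o ho h2
          rw [Finset.subset_sdiff] at h2
          exact hδ h2.2
        rw [h1]
        simp
  obtain ⟨o, hoO, hoden⟩ := ts h hc _ U α (Φ ∪ b) _ hSp' O (fun γ => γ \ b) (g - b.card) hFam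
    ⟨γ0, hγ0⟩
  obtain ⟨hom, hbo⟩ := hOmem o hoO
  obtain ⟨hoc, hoL, -⟩ := Pl.mem_ML.1 hom
  have hun : Φ ∪ b ∪ (o \ b) = Φ ∪ o := by
    rw [Finset.union_assoc, Finset.union_sdiff_of_subset hbo]
  have hd1 : P.den c (cell P.G A U α (Φ ∪ b)) U α (Φ ∪ b) = P.den c A U α (Φ ∪ b) := by
    unfold Pl.den
    rw [cell_cell A (Finset.Subset.refl _) (fun j _ => rfl) (Finset.Subset.refl _)]
  have hd2 : P.den c (cell P.G A U α (Φ ∪ b)) U α (Φ ∪ b ∪ (o \ b)) = P.den c A U α (Φ ∪ o) := by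
    unfold Pl.den
    rw [cell_cell A (Finset.Subset.refl _) (fun j _ => rfl) Finset.subset_union_left, hun]
  have hoden' : P.den c A U α (Φ ∪ b) ≤ 2 * c.q ^ L * P.den c A U α (Φ ∪ o) := by
    rw [← hd1, ← hd2]
    exact hoden
  have hnn : 0 ≤ P.den c A U α (Φ ∪ o) := P.den_nonneg hc.p_pos hc.n_pos _ _ _ _
  have hfin : P.den c A U α Φ ≤ c.h1 ^ g * P.den c A U α (Φ ∪ o) := by
    calc P.den c A U α Φ ≤ c.h1 ^ b.card * P.den c A U α (Φ ∪ b) := hbden
      _ ≤ c.h1 ^ b.card * (2 * c.q ^ L * P.den c A U α (Φ ∪ o)) :=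
          mul_le_mul_of_nonneg_left hoden' (pow_nonneg hh10.le _)
      _ ≤ c.h1 ^ b.card * (c.h1 * P.den c A U α (Φ ∪ o)) :=
          mul_le_mul_of_nonneg_left (mul_le_mul_of_nonneg_right hc.F5 hnn)
            (pow_nonneg hh10.le _)
      _ = c.h1 ^ (b.card + 1) * P.den c A U α (Φ ∪ o) := by rw [pow_succ]; ring
      _ ≤ c.h1 ^ g * P.den c A U α (Φ ∪ o) :=
          mul_le_mul_of_nonneg_right (pow_le_pow_right₀ hh1 (by omega)) hnn
  have hlt := hoL.2.2.2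
  rw [hoc] at hlt
  linarith

end Pool.Agent.H49.RG
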