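/-
ROW C2 (about 250 lines; helper80 + helper35). Case 2 of the main lemma on cells. Uses ml_card, exc_card, den_all_le as stated.
Data: `C` in position, `κ Tot < den C`, `U.card ≤ f`, `Ψ.card < ψm`, `Y.card ≤ w`; `A ⊆ C` the lower half (`#C ≤ 2 #A`, `3 #A ≤ 2 #C`, `F x ≤ F x'` for `x ∈ A`, `x' ∈ C \ A`); hreg: `A` is regular with constant 8 and `3w` further letters. `Φ = Ψ ∪ Y`, `M g = ML c A U α Φ g`.
(0) `Sp A U α Φ (2β^(8w)/κ0) 8 (3w)`: dens from `κ Tot < den C ≤ 2 den A`, `κ ≥ κ0/β^(8w)`. So ml_card holds for `M g`.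
(a) `Bad C ∩ A ⊆ Bad A` (Good.mono), IH for `A` (hA): `den(Bad C ∩ A)^2 ≤ κ Tot den A ≤ (2/3) κ Tot den C`.
(b) `EXC` = the points of `C` adjacent to more than `β^(4g)` members of `M g` for some `1 ≤ g ≤ w`: exc_card, den_all_le, FE: `den EXC ≤ w 64^L 2^k β^(-2k) 8^L Tot ≤ κ Tot/100 ≤ √(κ Tot den C)/100`.
(c) Let `x ∈ (C \ A) ∩ Bad C`, `x ∉ EXC`, with witness `y ⊇ Y`, and `y' = y \ Φ`, so `Φ ∪ y' = Ψ ∪ y`. If `y'` is not light, then `A' = cell A U α (Φ ∪ y')` shows `Good C x y` with `U`, `Ψ`: below `x` (hhalf), `Sp A' U x (Ψ ∪ y) Zg Gg (2w)` by Sp.shrink (`θ = h1^|y'| ≤ h1^w`, `d = |y'| ≤ w`; FZg, FGg; 3w - |y'| ≥ 2w)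
 and congr (`x = α` on `U`); card: `Ψ.card + w ≤ 3L`. Contradiction. So `y'` is light and has a minimal light subset `γ`, `g = |γ|`, `1 ≤ g ≤ w` (`∅` is not light), `γ ∈ M g`, `Ad univ x γ`, and `x ∈ Bad C_γ (Y ∪ γ)` with `C_γ = cell (C \ EXC) U α (Φ ∪ γ)` (witness `y ⊇ Y ∪ γ`, Good.mono).
 IH for `C_γ` (position with `Y ∪ γ`; `#C_γ < #C`: as `γ` is light, `cell A U α (Φ∪γ) ≠ A`: otherwise `h1^g #A W L u (φ+g) < #A W L u φ` but `W L u (φ+g) ≥ W L u φ`).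
(d) In numbers (`W = W L u φ`, `W L u (φ+g) = W/p^(g(L-u))`, `MM = κ Tot/W`): `#Bad C_γ ≤ √(MM β^(-8g) p^(g(L-u)) #C_γ)`. `∑_{γ ∈ M g} #C_γ = ∑_{x ∈ C \ EXC} #{γ ∈ M g | Ad x γ} ≤ β^(4g) #C`, `#M g ≤ ((1/p)^(L-u) β^2)^g`, Cauchy-Schwarz (`Real.inner_mul_le_norm_mul_norm` / `Finset.sum_mul_sq_le_sq_mul_sq`):
 `∑_γ #Bad C_γ ≤ √(MM #C) √(β^(-8g) β^(2g) β^(4g)) = β^(-g) √(MM #C)`. `∑_{g≥1} β^(-g) ≤ 1/15` (β ≥ 16).
 Total: `√(2/3) + 1/100 + 1/15 < 0.9`.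
-/
import Pool.Agent.H49.RG.Lg
import Pool.Agent.H49.RG.Exc
import Pool.Agent.H49.RG.C1

set_option autoImplicit false
set_option linter.unusedSectionVars false

open Finset

namespace Pool.Agent.H49.RG

variable {ν : Type} [Fintype ν] [DecidableEq ν] {L : ℕ}

/-- Cauchy-Schwarz for the light sets of one size. -/
lemma C2_cs {ι : Type} (M : Finset ι) (b cc : ι → ℝ) (p β MM N : ℝ) (l g : ℕ)
    (hp : 0 < p) (hβ : 0 < β) (hMM : 0 ≤ MM)
    (hb : ∀ γ ∈ M, b γ ^ 2 ≤ MM * ((p ^ l) ^ g / β ^ (8 * g)) * cc γ)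
    (hcc : ∑ γ ∈ M, cc γ ≤ β ^ (4 * g) * N)
    (hM : (M.card : ℝ) ≤ ((1 / p) ^ l * β ^ 2) ^ g) :
    (∑ γ ∈ M, b γ) ^ 2 ≤ MM * N / (β ^ g) ^ 2 := by
  have h1 : (∑ γ ∈ M, b γ) ^ 2 ≤ M.card * ∑ γ ∈ M, b γ ^ 2 := sq_sum_le_card_mul_sum_sq
  have hK : 0 ≤ MM * ((p ^ l) ^ g / β ^ (8 * g)) := by positivity
  have h2 : ∑ γ ∈ M, b γ ^ 2 ≤ MM * ((p ^ l) ^ g / β ^ (8 * g)) * (β ^ (4 * g) * N) := by
    calc ∑ γ ∈ M, b γ ^ 2 ≤ ∑ γ ∈ M, MM * ((p ^ l) ^ g / β ^ (8 * g)) * cc γ :=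
          Finset.sum_le_sum hb
      _ = MM * ((p ^ l) ^ g / β ^ (8 * g)) * ∑ γ ∈ M, cc γ := by rw [Finset.mul_sum]
      _ ≤ _ := mul_le_mul_of_nonneg_left hcc hK
  have h3 : (M.card : ℝ) * ∑ γ ∈ M, b γ ^ 2 ≤
      ((1 / p) ^ l * β ^ 2) ^ g * (MM * ((p ^ l) ^ g / β ^ (8 * g)) * (β ^ (4 * g) * N)) := by
    refine mul_le_mul hM h2 (Finset.sum_nonneg fun _ _ => sq_nonneg _) (by positivity)
  refine h1.trans (h3.trans (le_of_eq ?_))
  have e1 : β ^ (8 * g) = (β ^ g) ^ 8 := pow_mul' β 8 g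
  have e2 : β ^ (4 * g) = (β ^ g) ^ 4 := pow_mul' β 4 g
  have e3 : ((1 / p) ^ l * β ^ 2) ^ g = 1 / (p ^ l) ^ g * (β ^ g) ^ 2 := by
    rw [mul_pow, one_div_pow, one_div_pow, pow_right_comm β 2 g]
  rw [e1, e2, e3]
  have hb0 : β ^ g ≠ 0 := by positivity
  have hp0 : (p ^ l) ^ g ≠ 0 := by positivity
  field_simp

open Classical in
/-- Double counting of the points and the sets. -/
lemma C2_sum_cell {P : Pl ν L} (X : Finset (Fin L → ν)) (U : Finset (Fin L)) (α : Fin L → ν)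
    (Φ : Finset ν) (M : Finset (Finset ν)) (B : ℝ)
    (hX : ∀ x ∈ X, ((M.filter (fun γ => Ad P.G univ x γ)).card : ℝ) ≤ B) :
    ∑ γ ∈ M, ((cell P.G X U α (Φ ∪ γ)).card : ℝ) ≤ B * X.card := by
  have h1 : ∀ γ ∈ M, ((cell P.G X U α (Φ ∪ γ)).card : ℝ) ≤
      ∑ x ∈ X, (if Ad P.G univ x γ then (1 : ℝ) else 0) := by
    intro γ _
    rw [← Finset.sum_filter, Finset.sum_const, nsmul_eq_mul, mul_one]
    refine Nat.cast_le.2 (card_le_card fun x hx => ?_)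
    obtain ⟨h1, _, h3⟩ := mem_cell.1 hx
    exact mem_filter.2 ⟨h1, fun j hj v hv => h3 j hj v (mem_union_right _ hv)⟩
  refine (Finset.sum_le_sum h1).trans ?_
  rw [Finset.sum_comm]
  have h2 : ∀ x ∈ X, ∑ γ ∈ M, (if Ad P.G univ x γ then (1 : ℝ) else 0) ≤ B := by
    intro x hx
    rw [← Finset.sum_filter, Finset.sum_const, nsmul_eq_mul, mul_one]
    exact hX x hx
  refine (Finset.sum_le_sum h2).trans ?_
  rw [Finset.sum_const, nsmul_eq_mul, mul_comm]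

lemma C2_W (c : Num) (hp : 0 < c.p) (L u φ g : ℕ) :
    c.W L u (φ + g) * (c.p ^ (L - u)) ^ g = c.W L u φ := by
  unfold Num.W
  have e : c.p ^ ((φ + g) * (L - u)) = c.p ^ (φ * (L - u)) * (c.p ^ (L - u)) ^ g := by
    rw [add_mul, pow_add, mul_comm g (L - u), pow_mul c.p (L - u) g]
  rw [e]
  have h1 : c.p ^ (φ * (L - u)) ≠ 0 := by positivity
  have h2 : (c.p ^ (L - u)) ^ g ≠ 0 := by positivity
  field_simp

/-- A light set has a minimal light subset. -/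
lemma C2_min {P : Pl ν L} {c : Num} {A : Finset (Fin L → ν)} {U : Finset (Fin L)}
    {α : Fin L → ν} {Φ δ : Finset ν} (hδ : P.Light c A U α Φ δ) :
    ∃ γ ⊆ δ, 1 ≤ γ.card ∧ γ ∈ P.ML c A U α Φ γ.card := by
  classical
  have hne : (δ.powerset.filter (fun γ => P.Light c A U α Φ γ)).Nonempty :=
    ⟨δ, mem_filter.2 ⟨mem_powerset.2 Subset.rfl, hδ⟩⟩
  obtain ⟨γ, hγ, hmin⟩ := exists_min_image _ Finset.card hne
  rw [mem_filter, mem_powerset] at hγ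
  refine ⟨γ, hγ.1, ?_, ?_⟩
  · rcases Nat.eq_zero_or_pos γ.card with h0 | h0
    · exfalso
      obtain ⟨_, _, _, h4⟩ := hγ.2
      rw [Finset.card_eq_zero] at h0
      rw [h0] at h4
      simp at h4
    · exact h0
  · rw [Pl.mem_ML]
    refine ⟨rfl, hγ.2, fun γ' hγ' hne' hl => ?_⟩
    have h1 := hmin γ' (mem_filter.2 ⟨mem_powerset.2 (hγ'.trans hγ.1), hl⟩)
    exact hne' (eq_of_subset_of_card_le hγ' h1)

open Classical in
/-- The exceptional points. -/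
lemma C2_exc {P : Pl ν L} {c : Num} {R : ℕ} (h : P.OK c) (hc : c.OK R L)
    (A C : Finset (Fin L → ν)) (U : Finset (Fin L)) (α : Fin L → ν) (Φ : Finset ν)
    (hC : C ⊆ cell P.G (pts P.G P.V) U α Φ) (hv : P.Val U α Φ)
    (hΦ : Φ ⊆ P.Out) (hΦ2 : Φ.card + c.w ≤ 3 * L)
    (hA : P.Sp c A U α Φ (2 * c.β ^ (8 * c.w) / c.κ0) 8 (3 * c.w)) :
    ∃ E : Finset (Fin L → ν), E ⊆ C ∧
      100 * ((E.card : ℝ) * c.W L U.card Φ.card) * c.β ^ (8 * c.w) ≤ c.κ0 * c.Tot L ∧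
      ∀ x ∈ C, x ∉ E → ∀ g, 1 ≤ g → g ≤ c.w →
        (((P.ML c A U α Φ g).filter (fun γ => Ad P.G univ x γ)).card : ℝ) ≤
          c.β ^ (4 * g) := by
  have h1 := exc_card h hc U α Φ hΦ (by omega) hv (fun g => P.ML c A U α Φ g)
    (fun g γ hγ => by
      obtain ⟨h1, ⟨h2, h3, _⟩, _⟩ := Pl.mem_ML.1 hγ
      exact ⟨h2, h3, h1⟩)
    (fun g hg hgw Q => ml_card h hc A U α Φ hA hΦ2 g hg hgw Q)
  refine ⟨C.filter (fun x => ∃ g, 1 ≤ g ∧ g ≤ c.w ∧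
      c.β ^ (4 * g) < (((P.ML c A U α Φ g).filter (fun γ => Ad P.G univ x γ)).card : ℝ)),
      filter_subset _ _, ?_, ?_⟩
  · have h2 : ((C.filter (fun x => ∃ g, 1 ≤ g ∧ g ≤ c.w ∧
      c.β ^ (4 * g) < (((P.ML c A U α Φ g).filter
        (fun γ => Ad P.G univ x γ)).card : ℝ))).card : ℝ) ≤
        (((cell P.G (pts P.G P.V) U α Φ).filter (fun x => ∃ g, 1 ≤ g ∧ g ≤ c.w ∧
      c.β ^ (4 * g) < (((P.ML c A U α Φ g).filter
        (fun γ => Ad P.G univ x γ)).card : ℝ))).card : ℝ) :=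
      Nat.cast_le.2 (card_le_card (filter_subset_filter _ hC))
    set e := ((C.filter (fun x => ∃ g, 1 ≤ g ∧ g ≤ c.w ∧
      c.β ^ (4 * g) < (((P.ML c A U α Φ g).filter
        (fun γ => Ad P.G univ x γ)).card : ℝ))).card : ℝ) with he
    have h3 := den_all_le h hc U α Φ hΦ (by omega)
    unfold Pl.den at h3
    have hW : 0 < c.W L U.card Φ.card := Num.W_pos hc.p_pos hc.n_pos _ _ _
    have hT : 0 < c.Tot L := Num.Tot_pos hc.p_pos hc.n_pos _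
    have hβ : 0 < c.β := lt_of_lt_of_le (by norm_num) hc.β_ge
    have hβk : 0 < c.β ^ (2 * c.k) := by positivity
    have h4 : e * c.β ^ (2 * c.k) ≤
        c.w * 64 ^ L * 2 ^ c.k * (cell P.G (pts P.G P.V) U α Φ).card :=
      (mul_le_mul_of_nonneg_right h2 hβk.le).trans h1
    have h5 : e * c.β ^ (2 * c.k) * c.W L U.card Φ.card ≤
        c.w * 64 ^ L * 2 ^ c.k * (8 ^ L * c.Tot L) := by
      calc e * c.β ^ (2 * c.k) * c.W L U.card Φ.card ≤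
          c.w * 64 ^ L * 2 ^ c.k * (cell P.G (pts P.G P.V) U α Φ).card *
            c.W L U.card Φ.card := mul_le_mul_of_nonneg_right h4 hW.le
        _ = c.w * 64 ^ L * 2 ^ c.k * ((cell P.G (pts P.G P.V) U α Φ).card *
            c.W L U.card Φ.card) := by ring
        _ ≤ _ := mul_le_mul_of_nonneg_left h3 (by positivity)
    have h6 : (100 * (e * c.W L U.card Φ.card) * c.β ^ (8 * c.w)) * c.β ^ (2 * c.k) ≤
        (c.κ0 * c.Tot L) * c.β ^ (2 * c.k) := by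
      have e8 : (512 : ℝ) ^ L = 64 ^ L * 8 ^ L := by rw [← mul_pow]; norm_num
      calc (100 * (e * c.W L U.card Φ.card) * c.β ^ (8 * c.w)) * c.β ^ (2 * c.k) =
          100 * c.β ^ (8 * c.w) * (e * c.β ^ (2 * c.k) * c.W L U.card Φ.card) := by ring
        _ ≤ 100 * c.β ^ (8 * c.w) * (c.w * 64 ^ L * 2 ^ c.k * (8 ^ L * c.Tot L)) :=
            mul_le_mul_of_nonneg_left h5 (by positivity)
        _ = (100 * c.w * 512 ^ L * 2 ^ c.k * c.β ^ (8 * c.w)) * c.Tot L := by rw [e8]; ring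
        _ ≤ (c.κ0 * c.β ^ (2 * c.k)) * c.Tot L := mul_le_mul_of_nonneg_right hc.FE hT.le
        _ = _ := by ring
    exact le_of_mul_le_mul_right h6 hβk
  · intro x hx hxE g hg hgw
    by_contra hlt
    exact hxE (mem_filter.2 ⟨hx, g, hg, hgw, not_le.1 hlt⟩)

/-- The difference of the witness and the outside letters of the cell is light. -/
lemma C2_light {P : Pl ν L} {c : Num} {R : ℕ} (hc : c.OK R L)
    {F : (Fin L → ν) → ℝ} {C : Finset (Fin L → ν)} {U : Finset (Fin L)} {α : Fin L → ν}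
    {Ψ Y : Finset ν} (hP : P.Pos c C U α Ψ Y) (hU : U.card ≤ c.f)
    (hΨ : Ψ.card < c.ψm) (A : Finset (Fin L → ν)) (hAC : A ⊆ C)
    (hAF : ∀ x ∈ A, ∀ x' ∈ C \ A, F x ≤ F x')
    (hA : P.Sp c A U α (Ψ ∪ Y) (2 * c.β ^ (8 * c.w) / c.κ0) 8 (3 * c.w))
    (x : Fin L → ν) (hx : x ∈ C) (hxA : x ∉ A) (y : Finset ν) (hYy : Y ⊆ y) (hy : y ⊆ P.Out)
    (hyc : y.card ≤ c.w) (hxy : Ad P.G univ x y) (hng : ¬ P.Good c F C x y) :
    P.Light c A U α (Ψ ∪ Y) (y \ (Ψ ∪ Y)) := by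
  obtain ⟨hx1, hx2, hx3⟩ := mem_cell.1 (hP.sub hx)
  refine ⟨sdiff_subset.trans hy, sdiff_disjoint, fun j hj v hv => ?_, ?_⟩
  · rw [← hx2 j hj]
    exact hxy j (mem_univ _) v (mem_sdiff.1 hv).1
  · by_contra hlt
    rw [not_lt] at hlt
    apply hng
    have hun : (Ψ ∪ Y) ∪ (y \ (Ψ ∪ Y)) = Ψ ∪ y := by
      rw [union_sdiff_self_eq_union]
      ext v
      simp only [mem_union]
      constructor
      · rintro ((h | h) | h)
        · exact Or.inl h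
        · exact Or.inr (hYy h)
        · exact Or.inr h
      · rintro (h | h)
        · exact Or.inl (Or.inl h)
        · exact Or.inr h
    have hdc : (y \ (Ψ ∪ Y)).card ≤ c.w := (card_le_card sdiff_subset).trans hyc
    have hβ : 0 < c.β := lt_of_lt_of_le (by norm_num) hc.β_ge
    have hκ := hc.κ0_pos
    have hh1 := hc.h1_ge
    have hh1p : 0 < c.h1 := lt_of_lt_of_le one_pos hh1
    have hcard : ((Ψ ∪ Y) ∪ (y \ (Ψ ∪ Y))).card ≤ 3 * L := by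
      rw [hun]
      have := card_union_le Ψ y
      have := hc.ψm_le
      omega
    have hsh := Pl.Sp.shrink hc hA (by positivity) (by norm_num)
      (pow_nonneg hh1p.le (y \ (Ψ ∪ Y)).card) (y \ (Ψ ∪ Y)) (sdiff_subset.trans hy)
      (y \ (Ψ ∪ Y)).card le_rfl hcard (by omega) hlt
    rw [hun] at hsh
    have hp1 : c.h1 ^ (y \ (Ψ ∪ Y)).card ≤ c.h1 ^ c.w := pow_le_pow_right₀ hh1 hdc
    have hsh2 := hsh.mono hc (Z' := c.Zg) (G' := c.Gg) (v' := 2 * c.w) (by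
      have h1 : 2 * c.β ^ (8 * c.w) * c.h1 ^ (y \ (Ψ ∪ Y)).card ≤ c.κ0 * c.Zg :=
        (mul_le_mul_of_nonneg_left hp1 (by positivity)).trans hc.FZg
      rw [div_mul_eq_mul_div, div_le_iff₀ hκ]
      linarith) (by
      refine le_trans ?_ hc.FGg
      have h2 : c.h1 ^ (2 * c.w) = c.h1 ^ c.w * c.h1 ^ c.w := by rw [← pow_add]; congr 1; ring
      rw [h2]
      have h3 : c.h1 ^ (y \ (Ψ ∪ Y)).card * c.h1 ^ (y \ (Ψ ∪ Y)).card ≤
          c.h1 ^ c.w * c.h1 ^ c.w := mul_le_mul hp1 hp1 (by positivity) (by positivity)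
      linarith) (by omega)
    refine ⟨U, Ψ, cell P.G A U α (Ψ ∪ y), (cell_sub _ _ _ _ _).trans hAC, ?_, hU, hΨ.le, ?_,
      hsh2.congr hx2⟩
    · intro x' hx'
      exact hAF x' (cell_sub _ _ _ _ _ hx') x (mem_sdiff.2 ⟨hx, hxA⟩)
    · exact fun j hj v hv => hx3 j hj v (mem_union_left _ hv)

/-- The claim for the cell of a minimal light set, in numbers. -/
lemma C2_step {P : Pl ν L} {c : Num} {R : ℕ} (hc : c.OK R L)
    {F : (Fin L → ν) → ℝ} {C : Finset (Fin L → ν)} {U : Finset (Fin L)} {α : Fin L → ν}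
    {Ψ Y γ : Finset ν} (hP : P.Pos c C U α Ψ (Y ∪ γ)) (hd : Disjoint γ (Ψ ∪ Y))
    (hcl : P.Clm c F C U α Ψ (Y ∪ γ)) :
    ((P.Bad c F C (Y ∪ γ)).card : ℝ) ^ 2 ≤
      (c.κ U.card Ψ.card Y.card * c.Tot L / c.W L U.card (Ψ.card + Y.card)) *
        ((c.p ^ (L - U.card)) ^ γ.card / c.β ^ (8 * γ.card)) * C.card := by
  have hBC : P.Bad c F C (Y ∪ γ) ⊆ C := fun x hx => (Pl.mem_Bad.1 hx).1
  unfold Pl.Clm at hcl
  rw [Pl.den_of_sub P c (hBC.trans hP.sub), Pl.den_of_sub P c hP.sub] at hcl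
  have hc1 : (Y ∪ γ).card = Y.card + γ.card :=
    card_union_of_disjoint (disjoint_of_subset_right subset_union_right hd).symm
  have hc2 : (Ψ ∪ (Y ∪ γ)).card = Ψ.card + Y.card + γ.card := by
    rw [card_union_of_disjoint hP.dis, hc1, add_assoc]
  rw [hc2, hc1] at hcl
  set W' := c.W L U.card (Ψ.card + Y.card + γ.card) with hW'
  have hWe : W' * (c.p ^ (L - U.card)) ^ γ.card = c.W L U.card (Ψ.card + Y.card) :=
    C2_W c hc.p_pos L U.card (Ψ.card + Y.card) γ.card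
  have hW'p : 0 < W' := Num.W_pos hc.p_pos hc.n_pos _ _ _
  have hβ : 0 < c.β := lt_of_lt_of_le (by norm_num) hc.β_ge
  have hκe : c.κ U.card Ψ.card (Y.card + γ.card) =
      c.κ U.card Ψ.card Y.card / c.β ^ (8 * γ.card) := by
    unfold Num.κ
    rw [mul_add, pow_add, div_div]
  rw [hκe] at hcl
  rw [← hWe]
  have hpp : 0 < (c.p ^ (L - U.card)) ^ γ.card := pow_pos (pow_pos hc.p_pos _) _
  have hβp : 0 < c.β ^ (8 * γ.card) := by positivity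
  have e1 : c.κ U.card Ψ.card Y.card * c.Tot L / (W' * (c.p ^ (L - U.card)) ^ γ.card) *
        ((c.p ^ (L - U.card)) ^ γ.card / c.β ^ (8 * γ.card)) * C.card =
      (c.κ U.card Ψ.card Y.card / c.β ^ (8 * γ.card) * c.Tot L * (C.card * W')) / W' ^ 2 := by
    field_simp
  rw [e1, le_div_iff₀ (by positivity)]
  calc ((P.Bad c F C (Y ∪ γ)).card : ℝ) ^ 2 * W' ^ 2 =
      ((P.Bad c F C (Y ∪ γ)).card * W') ^ 2 := by ring
    _ ≤ _ := hcl

/-- The cell of a light set is smaller. -/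
lemma C2_small {P : Pl ν L} {c : Num} {R : ℕ} (hc : c.OK R L)
    {C : Finset (Fin L → ν)} {U : Finset (Fin L)} {α : Fin L → ν}
    {Φ γ : Finset ν} (hC : C ⊆ cell P.G (pts P.G P.V) U α Φ)
    (A : Finset (Fin L → ν)) (hAC : A ⊆ C) (E : Finset (Fin L → ν))
    (hl : P.Light c A U α Φ γ) :
    (cell P.G (C \ E) U α (Φ ∪ γ)).card < C.card := by
  have hsub : cell P.G (C \ E) U α (Φ ∪ γ) ⊆ C := (cell_sub _ _ _ _ _).trans sdiff_subset
  refine lt_of_le_of_ne (card_le_card hsub) fun heq => ?_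
  have heq2 : cell P.G (C \ E) U α (Φ ∪ γ) = C := eq_of_subset_of_card_le hsub heq.ge
  obtain ⟨h1, h2, h3, h4⟩ := hl
  have hAc : A ⊆ cell P.G (pts P.G P.V) U α (Φ ∪ γ) := by
    intro x hx
    have hx2 : x ∈ cell P.G (C \ E) U α (Φ ∪ γ) := by rw [heq2]; exact hAC hx
    obtain ⟨_, h6, h7⟩ := mem_cell.1 hx2
    exact mem_cell.2 ⟨(mem_cell.1 (hC (hAC hx))).1, h6, h7⟩
  rw [Pl.den_of_sub P c hAc, Pl.den_of_sub P c (hAC.trans hC),
    card_union_of_disjoint h2.symm, ← C2_W c hc.p_pos L U.card Φ.card γ.card] at h4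
  have hW' : 0 < c.W L U.card (Φ.card + γ.card) := Num.W_pos hc.p_pos hc.n_pos _ _ _
  have hp1 : (c.p ^ (L - U.card)) ^ γ.card ≤ 1 :=
    pow_le_one₀ (pow_nonneg hc.p_pos.le _) (pow_le_one₀ hc.p_pos.le hc.p_le)
  have hh1 : 1 ≤ c.h1 ^ γ.card := one_le_pow₀ hc.h1_ge
  have hA0 : (0 : ℝ) ≤ A.card * c.W L U.card (Φ.card + γ.card) := by positivity
  have h8 : (A.card : ℝ) * (c.W L U.card (Φ.card + γ.card) * (c.p ^ (L - U.card)) ^ γ.card) ≤
      A.card * c.W L U.card (Φ.card + γ.card) := by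
    rw [← mul_assoc]
    exact mul_le_of_le_one_right hA0 hp1
  have h9 : A.card * c.W L U.card (Φ.card + γ.card) ≤
      c.h1 ^ γ.card * (A.card * c.W L U.card (Φ.card + γ.card)) := le_mul_of_one_le_left hA0 hh1
  linarith

lemma C2_geom (n : ℕ) : ∑ g ∈ Icc 1 n, ((1 : ℝ) / 16) ^ g ≤ 1 / 15 := by
  have h : ∀ n : ℕ, ∑ g ∈ Icc 1 n, ((1 : ℝ) / 16) ^ g = (1 - (1 / 16) ^ n) / 15 := by
    intro n
    induction n with
    | zero => simp
    | succ n ih =>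
      rw [Finset.sum_Icc_succ_top (by omega), ih, pow_succ]
      ring
  rw [h n]
  have : (0 : ℝ) ≤ (1 / 16) ^ n := by positivity
  linarith

theorem case2 {P : Pl ν L} {c : Num} {R : ℕ} (h : P.OK c) (hc : c.OK R L)
    {F : (Fin L → ν) → ℝ} {C : Finset (Fin L → ν)} {U : Finset (Fin L)} {α : Fin L → ν}
    {Ψ Y : Finset ν} (hP : P.Pos c C U α Ψ Y) (hY : Y.card ≤ c.w) (hU : U.card ≤ c.f)
    (hΨ : Ψ.card < c.ψm)
    (hd : c.κ U.card Ψ.card Y.card * c.Tot L < P.den c C U α (Ψ ∪ Y))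
    (A : Finset (Fin L → ν)) (hAC : A ⊆ C) (hA2 : C.card ≤ 2 * A.card)
    (hA3 : 3 * A.card ≤ 2 * C.card) (hAF : ∀ x ∈ A, ∀ x' ∈ C \ A, F x ≤ F x')
    (hreg : ∀ (U' : Finset (Fin L)) (α' : Fin L → ν) (Φ' : Finset ν), U ⊆ U' → Eqn U α' α →
      Ψ ∪ Y ⊆ Φ' → Φ' ⊆ P.Out → Φ'.card ≤ (Ψ ∪ Y).card + 3 * c.w →
      P.den c A U' α' Φ' ≤ 8 * c.h ^ (U'.card - U.card) *
        c.h1 ^ (Φ'.card - (Ψ ∪ Y).card) * P.den c A U α (Ψ ∪ Y))
    (hIA : P.Clm c F A U α Ψ Y)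
    (hI : ∀ C' : Finset (Fin L → ν), C'.card < C.card → ∀ γ : Finset ν,
      P.Pos c C' U α Ψ (Y ∪ γ) → P.Clm c F C' U α Ψ (Y ∪ γ)) :
    P.Clm c F C U α Ψ Y := by
  classical
  have hp := hc.p_pos
  have hn := hc.n_pos
  have hβ16 := hc.β_ge
  have hβ : 0 < c.β := lt_of_lt_of_le (by norm_num) hc.β_ge
  have hκ0 := hc.κ0_pos
  have hT : 0 < c.Tot L := Num.Tot_pos hp hn _
  have hψm := hc.ψm_le
  have hφ : (Ψ ∪ Y).card = Ψ.card + Y.card := card_union_of_disjoint hP.dis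
  have hW : 0 < c.W L U.card (Ψ.card + Y.card) := Num.W_pos hp hn _ _ _
  have hκlo : c.κ0 / c.β ^ (8 * c.w) ≤ c.κ U.card Ψ.card Y.card := by
    unfold Num.κ
    have h1 : c.κ0 ≤ c.κ0 * c.h ^ U.card * c.h1 ^ Ψ.card := by
      have h2 : 1 ≤ c.h ^ U.card := one_le_pow₀ hc.h_ge
      have h3 : 1 ≤ c.h1 ^ Ψ.card := one_le_pow₀ hc.h1_ge
      rw [mul_assoc]
      exact le_mul_of_one_le_right hκ0.le (one_le_mul_of_one_le_of_one_le h2 h3)
    exact div_le_div₀ (hκ0.le.trans h1) h1 (by positivity)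
      (pow_le_pow_right₀ (by linarith) (by omega))
  have hBC : P.Bad c F C Y ⊆ C := fun x hx => (Pl.mem_Bad.1 hx).1
  have hBA : P.Bad c F A Y ⊆ A := fun x hx => (Pl.mem_Bad.1 hx).1
  have hSp : P.Sp c A U α (Ψ ∪ Y) (2 * c.β ^ (8 * c.w) / c.κ0) 8 (3 * c.w) := by
    refine ⟨hAC.trans hP.sub, hP.out, by rw [hφ]; omega, ?_, hreg⟩
    rw [Pl.den_of_sub P c hP.sub, hφ] at hd
    rw [Pl.den_of_sub P c (hAC.trans hP.sub), hφ]
    have h1 : c.κ0 / c.β ^ (8 * c.w) * c.Tot L ≤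
        2 * (A.card * c.W L U.card (Ψ.card + Y.card)) := by
      have hA2' : (C.card : ℝ) ≤ 2 * A.card := by exact_mod_cast hA2
      have h2 := mul_le_mul_of_nonneg_right hκlo hT.le
      have h3 := mul_le_mul_of_nonneg_right hA2' hW.le
      linarith
    rw [div_mul_eq_mul_div, le_div_iff₀ hκ0]
    rw [div_mul_eq_mul_div, div_le_iff₀ (by positivity)] at h1
    linarith
  obtain ⟨E, hEC, hE1, hE2⟩ := C2_exc h hc A C U α (Ψ ∪ Y) hP.sub (Pl.Sp.val hc hSp) hP.out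
    (by rw [hφ]; omega) hSp
  unfold Pl.Clm at hIA ⊢
  rw [Pl.den_of_sub P c (hBC.trans hP.sub), Pl.den_of_sub P c hP.sub, hφ]
  rw [Pl.den_of_sub P c (hBA.trans (hAC.trans hP.sub)),
    Pl.den_of_sub P c (hAC.trans hP.sub), hφ] at hIA
  rw [Pl.den_of_sub P c hP.sub, hφ] at hd
  rw [hφ] at hE1
  set W := c.W L U.card (Ψ.card + Y.card) with hWdef
  set κ := c.κ U.card Ψ.card Y.card with hκdef
  have hκp : 0 < κ := lt_of_lt_of_le (by positivity) hκlo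
  set MM := κ * c.Tot L / W with hMM
  have hMMp : 0 < MM := by positivity
  have hMMW : κ * c.Tot L = MM * W := by rw [hMM]; field_simp
  rw [hMMW] at hd hIA ⊢
  have hMC : MM < C.card := lt_of_mul_lt_mul_right hd hW.le
  have hS0 : 0 ≤ MM * C.card := mul_nonneg hMMp.le (Nat.cast_nonneg _)
  set S := Real.sqrt (MM * C.card) with hS
  have hSn : 0 ≤ S := Real.sqrt_nonneg _
  have hSS : S ^ 2 = MM * C.card := Real.sq_sqrt hS0
  have hMS : MM ≤ S := by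
    apply Real.le_sqrt_of_sq_le
    rw [sq]
    exact mul_le_mul_of_nonneg_left hMC.le hMMp.le
  -- the bad points in the lower half
  have hpa : (((P.Bad c F C Y) ∩ A).card : ℝ) ≤ 82 / 100 * S := by
    have h1 : (P.Bad c F C Y) ∩ A ⊆ P.Bad c F A Y := by
      intro x hx
      obtain ⟨hx1, hx2⟩ := mem_inter.1 hx
      obtain ⟨_, y, hy1, hy2, hy3, hy4, hy5⟩ := Pl.mem_Bad.1 hx1
      exact Pl.mem_Bad.2 ⟨hx2, y, hy1, hy2, hy3, hy4, fun hg => hy5 (hg.mono hAC)⟩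
    have h2 : (((P.Bad c F C Y) ∩ A).card : ℝ) ≤ ((P.Bad c F A Y).card : ℝ) :=
      Nat.cast_le.2 (card_le_card h1)
    have h3 : ((P.Bad c F A Y).card : ℝ) ^ 2 ≤ MM * A.card := by
      have h4 : ((P.Bad c F A Y).card : ℝ) ^ 2 * W ^ 2 ≤ MM * A.card * W ^ 2 := by
        calc ((P.Bad c F A Y).card : ℝ) ^ 2 * W ^ 2 = (((P.Bad c F A Y).card : ℝ) * W) ^ 2 := by
              ring
          _ ≤ MM * W * (A.card * W) := hIA
          _ = _ := by ring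
      exact le_of_mul_le_mul_right h4 (by positivity)
    have hA3' : 3 * (A.card : ℝ) ≤ 2 * C.card := by exact_mod_cast hA3
    have h5 : MM * A.card ≤ 2 / 3 * S ^ 2 := by
      rw [hSS]
      have := mul_le_mul_of_nonneg_left hA3' hMMp.le
      linarith
    have h6 : (((P.Bad c F C Y) ∩ A).card : ℝ) ^ 2 ≤ (82 / 100 * S) ^ 2 := by
      calc (((P.Bad c F C Y) ∩ A).card : ℝ) ^ 2 ≤ ((P.Bad c F A Y).card : ℝ) ^ 2 :=
            pow_le_pow_left₀ (Nat.cast_nonneg _) h2 2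
        _ ≤ 2 / 3 * S ^ 2 := h3.trans h5
        _ ≤ (82 / 100 * S) ^ 2 := by nlinarith [sq_nonneg S]
    exact (pow_le_pow_iff_left₀ (Nat.cast_nonneg _) (by linarith) two_ne_zero).1 h6
  -- the exceptional points
  have hpb : (E.card : ℝ) ≤ 1 / 100 * S := by
    have h1 : 100 * (E.card : ℝ) ≤ MM := by
      rw [hMM, le_div_iff₀ hW]
      have h2 : 100 * (E.card * W) ≤ c.κ0 / c.β ^ (8 * c.w) * c.Tot L := by
        rw [div_mul_eq_mul_div, le_div_iff₀ (by positivity)]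
        exact hE1
      have h3 := mul_le_mul_of_nonneg_right hκlo hT.le
      linarith
    linarith
  -- the other points
  have hpc : ∀ g ∈ Icc 1 c.w, ∑ γ ∈ P.ML c A U α (Ψ ∪ Y) g,
      ((P.Bad c F (cell P.G (C \ E) U α (Ψ ∪ Y ∪ γ)) (Y ∪ γ)).card : ℝ) ≤
        (1 / 16) ^ g * S := by
    intro g hg
    obtain ⟨hg1, hg2⟩ := mem_Icc.1 hg
    have hb : ∀ γ ∈ P.ML c A U α (Ψ ∪ Y) g,
        ((P.Bad c F (cell P.G (C \ E) U α (Ψ ∪ Y ∪ γ)) (Y ∪ γ)).card : ℝ) ^ 2 ≤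
          MM * ((c.p ^ (L - U.card)) ^ g / c.β ^ (8 * g)) *
            ((cell P.G (C \ E) U α (Ψ ∪ Y ∪ γ)).card : ℝ) := by
      intro γ hγ
      obtain ⟨hγ1, hγ2, _⟩ := Pl.mem_ML.1 hγ
      have hpos : P.Pos c (cell P.G (C \ E) U α (Ψ ∪ Y ∪ γ)) U α Ψ (Y ∪ γ) := by
        refine ⟨?_, ?_, ?_, hP.Ψ_le⟩
        · rw [← union_assoc]
          intro x hx
          obtain ⟨h1, h2⟩ := mem_cell.1 hx
          exact mem_cell.2 ⟨(mem_cell.1 (hP.sub (mem_sdiff.1 h1).1)).1, h2⟩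
        · rw [← union_assoc]
          exact union_subset hP.out hγ2.1
        · rw [disjoint_union_right]
          exact ⟨hP.dis, (disjoint_of_subset_right subset_union_left hγ2.2.1).symm⟩
      have h1 := hI _ (C2_small hc hP.sub A hAC E hγ2) γ hpos
      have h2 := C2_step hc hpos hγ2.2.1 h1
      rw [hγ1] at h2
      exact h2
    have hM := ml_card h hc A U α (Ψ ∪ Y) hSp (by rw [hφ]; omega) g hg1 hg2 ∅
    simp only [empty_subset, filter_true, card_empty, pow_zero, mul_one] at hM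
    have hcc := C2_sum_cell (P := P) (C \ E) U α (Ψ ∪ Y) (P.ML c A U α (Ψ ∪ Y) g)
      (c.β ^ (4 * g)) (fun x hx => hE2 x (mem_sdiff.1 hx).1 (mem_sdiff.1 hx).2 g hg1 hg2)
    have hcc2 : ∑ γ ∈ P.ML c A U α (Ψ ∪ Y) g,
        ((cell P.G (C \ E) U α (Ψ ∪ Y ∪ γ)).card : ℝ) ≤ c.β ^ (4 * g) * C.card :=
      hcc.trans (mul_le_mul_of_nonneg_left (Nat.cast_le.2 (card_le_card sdiff_subset))
        (by positivity))
    have hcs := C2_cs _ _ _ c.p c.β MM C.card (L - U.card) g hp hβ hMMp.le hb hcc2 hM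
    rw [← hSS, ← div_pow] at hcs
    have h1 := (pow_le_pow_iff_left₀ (Finset.sum_nonneg fun _ _ => Nat.cast_nonneg _)
      (div_nonneg hSn (pow_nonneg hβ.le g)) two_ne_zero).1 hcs
    refine h1.trans ?_
    rw [div_eq_mul_one_div, mul_comm, one_div_pow]
    refine mul_le_mul_of_nonneg_right ?_ hSn
    exact one_div_le_one_div_of_le (by positivity) (pow_le_pow_left₀ (by norm_num) hβ16 g)
  have hpd : ∑ g ∈ Icc 1 c.w, ∑ γ ∈ P.ML c A U α (Ψ ∪ Y) g,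
      ((P.Bad c F (cell P.G (C \ E) U α (Ψ ∪ Y ∪ γ)) (Y ∪ γ)).card : ℝ) ≤ 1 / 15 * S := by
    refine (Finset.sum_le_sum hpc).trans ?_
    rw [← Finset.sum_mul]
    exact mul_le_mul_of_nonneg_right (C2_geom _) hSn
  -- the inclusion
  have hinc : P.Bad c F C Y ⊆ ((P.Bad c F C Y) ∩ A) ∪ (E ∪ (Icc 1 c.w).biUnion (fun g =>
      (P.ML c A U α (Ψ ∪ Y) g).biUnion (fun γ =>
        P.Bad c F (cell P.G (C \ E) U α (Ψ ∪ Y ∪ γ)) (Y ∪ γ)))) := by
    intro x hx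
    by_cases hxA : x ∈ A
    · exact mem_union_left _ (mem_inter.2 ⟨hx, hxA⟩)
    · refine mem_union_right _ ?_
      by_cases hxE : x ∈ E
      · exact mem_union_left _ hxE
      · refine mem_union_right _ ?_
        obtain ⟨hxC, y, hy1, hy2, hy3, hy4, hy5⟩ := Pl.mem_Bad.1 hx
        have hl := C2_light hc hP hU hΨ A hAC hAF hSp x hxC hxA y hy1 hy2 hy3 hy4 hy5
        obtain ⟨γ, hγ1, hγ2, hγ3⟩ := C2_min hl
        have hγy : γ ⊆ y := hγ1.trans sdiff_subset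
        refine mem_biUnion.2 ⟨γ.card, mem_Icc.2 ⟨hγ2, (card_le_card hγy).trans hy3⟩, ?_⟩
        refine mem_biUnion.2 ⟨γ, hγ3, ?_⟩
        obtain ⟨_, hx2, hx3⟩ := mem_cell.1 (hP.sub hxC)
        refine Pl.mem_Bad.2 ⟨mem_cell.2 ⟨mem_sdiff.2 ⟨hxC, hxE⟩, hx2, fun j hj v hv => ?_⟩,
          y, union_subset hy1 hγy, hy2, hy3, hy4, fun hg => hy5 (hg.mono
            ((cell_sub _ _ _ _ _).trans sdiff_subset))⟩
        rcases mem_union.1 hv with hv | hv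
        · exact hx3 j hj v hv
        · exact hy4 j hj v (hγy hv)
  have hcard : ((P.Bad c F C Y).card : ℝ) ≤ S := by
    have h1 : (P.Bad c F C Y).card ≤ ((P.Bad c F C Y) ∩ A).card + (E.card +
        ∑ g ∈ Icc 1 c.w, ∑ γ ∈ P.ML c A U α (Ψ ∪ Y) g,
          (P.Bad c F (cell P.G (C \ E) U α (Ψ ∪ Y ∪ γ)) (Y ∪ γ)).card) := by
      refine (card_le_card hinc).trans ((card_union_le _ _).trans (Nat.add_le_add_left
        ((card_union_le _ _).trans (Nat.add_le_add_left (card_biUnion_le.trans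
          (Finset.sum_le_sum fun g _ => card_biUnion_le)) _)) _))
    have h2 : ((P.Bad c F C Y).card : ℝ) ≤ (((P.Bad c F C Y) ∩ A).card : ℝ) + ((E.card : ℝ) +
        ∑ g ∈ Icc 1 c.w, ∑ γ ∈ P.ML c A U α (Ψ ∪ Y) g,
          ((P.Bad c F (cell P.G (C \ E) U α (Ψ ∪ Y ∪ γ)) (Y ∪ γ)).card : ℝ)) := by
      exact_mod_cast h1
    linarith
  calc ((P.Bad c F C Y).card * W) ^ 2 = ((P.Bad c F C Y).card : ℝ) ^ 2 * W ^ 2 := by ring
    _ ≤ S ^ 2 * W ^ 2 := mul_le_mul_of_nonneg_right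
        (pow_le_pow_left₀ (Nat.cast_nonneg _) hcard 2) (by positivity)
    _ = MM * W * (C.card * W) := by rw [hSS]; ring

end Pool.Agent.H49.RG
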