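/-
ROW Nm (about 250 lines). The numbers. Everything is a power of `q = n^(1/(128 L R w))`, so `q^(128 L R w) = n`, `2 ≤ q`; `w = R f`, `f = 16 z`. (It may be convenient to prove first a version for an abstract real `q ≥ 2` with `q^(128 L R w) = n`.)
From `1 ≤ n p^(16L)`: `(1/p)^(16L) ≤ q^(128 L R w)`, so `1/p ≤ q^(8 R w)` (16L-th root, pow_le_pow_left₀ contrapositive), hence `n p^(4L) ≥ q^(96 L R w)` and `n p^(5L) ≥ q^(88 L R w)`.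
Exponents of q: β `L w`, h `16LRw`, h1 `4LR`, n `128LRw`, n^z = β^(8w) = `128LRwz` (`8 w = 128 R z`), G1 `32LRw`, Zg `256LRwz + 32LRw`, Z1 `128LRw(2z+2)`, B `(8Rw²+2)m0`, `m0 = 4z+6`, `k = 256R(z+2)`, `ψm = 4w(f+1)`, `s = 8L`. `κ0 = 8^L/(n^z h)`.
hL gives (use `nlinarith` or small lemmas): `k w = 4096 R² z (z+2) ≤ 4 L`; `ψm + 6w = w(64z+10) ≤ 3L`; `16 z < L`; `r, R, w ≤ L`.
 w_eq, F9, F9', FGg: equalities. s_ge, ψm_le: above. β_ge: `2^16 ≤ q^(Lw)`.. (`Lw ≥ 4`). kβ: `(1 + x)^m ≤ exp(m x) ≤ 2` for `m x ≤ 1/2`, `m = k w ≤ 4L`, `x = q^(-2Lw) ≤ 2^(-32L)`.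
 t-bound: `c.t g m ≤ (q/p^g)^m/2 ≤ q^((8Rw²+1)m0)/2` for `g ≤ w`, `m ≤ m0` (`q/p^g ≤ q^(1+8Rw·w)`).
 F1: `4 g q^L t ≤ 2 w q^(L + (8Rw²+1)m0)`, `2 w ≤ 2^(w+1)`.., need `1 + w + L + (8Rw²+1)(4z+6) ≤ L w`: `(w-1) L ≥ 15Rz L ≥ 15·2^12 R³z³` and `1 + w + (8Rw²+1)(4z+6) ≤ 17R³z³ + 2049·10 R³z³`. FB: `m0 ≤ 2^m0 ≤ q^m0`.
 F2: `β^k = q^(256LRw(z+2)) = n^(2z+4)`, `8·1024^L·N·Z1 ≤ 8·1024^(2L) n^(2z+3)`, `3 + 20L ≤ 128LRw`. F3: `3 + L + 32LRw + (8Rw²+2)(4z+6) + 16LRw ≤ 96LRw`. F4: `3 + 10L + 128LRw(2z+2) + (8Rw²+2)(4z+6)² ≤ 96LRw(4z+6)`: enough `(8Rw²+2)(4z+6)² ≤ 10Rw²·100z² ≤ 128LRwz`, as `1000wz ≤ 128L`.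
 F5: `1 + L ≤ 4LR`. FZ: `1 + 128LRwz + 4LRw + 128LRwz + 16LRw ≤ 128LRw(2z+2)`. FG: `3 + 8LRw ≤ 32LRw`. FZg: `1 + 256LRwz + 20LRw ≤ 256LRwz + 32LRw`. FU: equality (`h^f = q^(256LRwz) = n^(2z)`). FΨ: `h1^ψm = h^(f+1)`. FC: `256LRwz + 16LRw ≤ 96LRw(L-f)` (`3z+1 ≤ L - f`).
 FE: `7 + w + 6L + k + 256LRwz + 16LRw ≤ 512LRw(z+2)` (`β^(2k) = q^(512LRw(z+2))`, `100 ≤ 2^7`, `512^L = 8^L·64^L`). F8: `2R + 4L + 32LRw + 16LRw + 2Lw ≤ 88LRw` (`2R ≤ 2^(2R)`). F10: `256LRwz + 32LRw + 2R(L+1) + r ≤ 128LRw(2z+2)`. F10': `3 + 8LRw + 2R(L+1) + 8LRw + r ≤ 32LRw`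
 (`(h1^f)^(2R) = q^(8LRw)`). F11: `1 + 8Rw + 48LRw ≤ 96LRw`. F12: `2·8^L ≤ 2^(3L+1) ≤ Zg`. F12': `2·64^L ≤ q^(8LRw)`.
 Last: `2·8^L·(N^z κ0) = 2·64^L N^z/(n^z h) ≤ 2·64^L·1024^(Lz)/h ≤ 1`: `1 + 6L + 10Lz ≤ 16LRw`.
-/
import Pool.Agent.H49.RG.Defs

set_option autoImplicit false

namespace Pool.Agent.H49.RG

/-- The numbers, in terms of a number `q`. -/
noncomputable def numq (q : ℝ) (R L z n N r : ℕ) (p : ℝ) : Num where
  n := n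
  w := R * (16 * z)
  f := 16 * z
  k := 256 * R * (z + 2)
  m0 := 4 * z + 6
  ψm := 4 * (R * (16 * z)) * (16 * z + 1)
  s := 8 * L
  r := r
  No := N
  p := p
  q := q
  β := q ^ (L * (R * (16 * z)))
  h := q ^ (16 * L * R * (R * (16 * z)))
  h1 := q ^ (4 * L * R)
  κ0 := 8 ^ L / ((n : ℝ) ^ z * q ^ (16 * L * R * (R * (16 * z))))
  Z1 := (n : ℝ) ^ (2 * z + 2)
  G1 := q ^ (32 * L * R * (R * (16 * z)))
  Zg := (n : ℝ) ^ (2 * z) * q ^ (32 * L * R * (R * (16 * z)))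
  Gg := 8 * q ^ (8 * L * R * (R * (16 * z)))
  ZS := (n : ℝ) ^ (2 * z) * q ^ (32 * L * R * (R * (16 * z))) * (2 * q ^ L) ^ R
  GS := 8 * q ^ (8 * L * R * (R * (16 * z))) * (2 * q ^ L * (q ^ (4 * L * R)) ^ (16 * z)) ^ R
  B := q ^ ((8 * R * (R * (16 * z)) ^ 2 + 2) * (4 * z + 6))

lemma Nm_a1 (R L z : ℕ) (hR : 1 ≤ R) (hz : 1 ≤ z) (hL : 2 ^ 12 * R ^ 2 * z ^ 2 ≤ L) :
    4 * (R * (16 * z)) * (16 * z + 1) + 6 * (R * (16 * z)) ≤ 3 * L := by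
  obtain ⟨a, rfl⟩ := Nat.exists_eq_add_of_le hR
  obtain ⟨b, rfl⟩ := Nat.exists_eq_add_of_le hz
  obtain ⟨d, rfl⟩ := Nat.exists_eq_add_of_le hL
  ring_nf
  omega

lemma Nm_a2 (R L z : ℕ) (hR : 1 ≤ R) (hz : 1 ≤ z) (hL : 2 ^ 12 * R ^ 2 * z ^ 2 ≤ L) :
    4 * L + 256 * R * (z + 2) * (R * (16 * z)) ≤ 8 * L := by
  obtain ⟨a, rfl⟩ := Nat.exists_eq_add_of_le hR
  obtain ⟨b, rfl⟩ := Nat.exists_eq_add_of_le hz
  obtain ⟨d, rfl⟩ := Nat.exists_eq_add_of_le hL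
  ring_nf
  omega

lemma Nm_a3 (R L z : ℕ) (hR : 1 ≤ R) (hz : 1 ≤ z) (hL : 2 ^ 12 * R ^ 2 * z ^ 2 ≤ L) :
    16 * z < L := by
  obtain ⟨a, rfl⟩ := Nat.exists_eq_add_of_le hR
  obtain ⟨b, rfl⟩ := Nat.exists_eq_add_of_le hz
  obtain ⟨d, rfl⟩ := Nat.exists_eq_add_of_le hL
  ring_nf
  omega

/-- F1 -/
lemma Nm_e1 (R L z : ℕ) (hR : 1 ≤ R) (hz : 1 ≤ z) (hL : 2 ^ 12 * R ^ 2 * z ^ 2 ≤ L) :
    1 + R * (16 * z) + (L + (8 * R * (R * (16 * z)) ^ 2 + 1) * (4 * z + 6)) ≤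
      L * (R * (16 * z)) := by
  obtain ⟨a, rfl⟩ := Nat.exists_eq_add_of_le hR
  obtain ⟨b, rfl⟩ := Nat.exists_eq_add_of_le hz
  obtain ⟨d, rfl⟩ := Nat.exists_eq_add_of_le hL
  ring_nf
  omega

/-- F2 -/
lemma Nm_e2 (R L z : ℕ) (hR : 1 ≤ R) (hz : 1 ≤ z) (hL : 1 ≤ L) :
    3 + 20 * L + 128 * L * R * (R * (16 * z)) * (2 * z + 3) ≤
      L * (R * (16 * z)) * (256 * R * (z + 2)) := by
  obtain ⟨a, rfl⟩ := Nat.exists_eq_add_of_le hR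
  obtain ⟨b, rfl⟩ := Nat.exists_eq_add_of_le hz
  obtain ⟨d, rfl⟩ := Nat.exists_eq_add_of_le hL
  ring_nf
  omega

lemma Nm_e3 (R L z : ℕ) (hR : 1 ≤ R) (hz : 1 ≤ z) (hL : 2 ^ 12 * R ^ 2 * z ^ 2 ≤ L) :
    3 + L + (32 * L * R * (R * (16 * z)) + (8 * R * (R * (16 * z)) ^ 2 + 2) * (4 * z + 6) +
      16 * L * R * (R * (16 * z))) ≤ 96 * L * R * (R * (16 * z)) := by
  obtain ⟨a, rfl⟩ := Nat.exists_eq_add_of_le hR
  obtain ⟨b, rfl⟩ := Nat.exists_eq_add_of_le hz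
  obtain ⟨d, rfl⟩ := Nat.exists_eq_add_of_le hL
  ring_nf
  omega

lemma Nm_e4 (R L z : ℕ) (hR : 1 ≤ R) (hz : 1 ≤ z) (hL : 2 ^ 12 * R ^ 2 * z ^ 2 ≤ L) :
    3 + 10 * L + (128 * L * R * (R * (16 * z)) * (2 * z + 2) +
      (8 * R * (R * (16 * z)) ^ 2 + 2) * (4 * z + 6) * (4 * z + 6)) ≤
      96 * L * R * (R * (16 * z)) * (4 * z + 6) := by
  obtain ⟨a, rfl⟩ := Nat.exists_eq_add_of_le hR
  obtain ⟨b, rfl⟩ := Nat.exists_eq_add_of_le hz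
  obtain ⟨d, rfl⟩ := Nat.exists_eq_add_of_le hL
  ring_nf
  omega

lemma Nm_e5 (R L : ℕ) (hR : 1 ≤ R) (hL : 1 ≤ L) :
    1 + L ≤ 4 * L * R := by
  obtain ⟨a, rfl⟩ := Nat.exists_eq_add_of_le hR
  obtain ⟨d, rfl⟩ := Nat.exists_eq_add_of_le hL
  ring_nf
  omega

/-- FZ -/
lemma Nm_e6 (R L z : ℕ) (hR : 1 ≤ R) (hz : 1 ≤ z) (hL : 1 ≤ L) :
    1 + (L * (R * (16 * z)) * (8 * (R * (16 * z))) + 4 * L * R * (R * (16 * z)) +
      (128 * L * R * (R * (16 * z)) * z + 16 * L * R * (R * (16 * z)))) ≤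
      128 * L * R * (R * (16 * z)) * (2 * z + 2) := by
  obtain ⟨a, rfl⟩ := Nat.exists_eq_add_of_le hR
  obtain ⟨b, rfl⟩ := Nat.exists_eq_add_of_le hz
  obtain ⟨d, rfl⟩ := Nat.exists_eq_add_of_le hL
  ring_nf
  omega

/-- FG -/
lemma Nm_e7 (R L z : ℕ) (hR : 1 ≤ R) (hz : 1 ≤ z) (hL : 1 ≤ L) :
    3 + 4 * L * R * (2 * (R * (16 * z))) ≤ 32 * L * R * (R * (16 * z)) := by
  obtain ⟨a, rfl⟩ := Nat.exists_eq_add_of_le hR
  obtain ⟨b, rfl⟩ := Nat.exists_eq_add_of_le hz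
  obtain ⟨d, rfl⟩ := Nat.exists_eq_add_of_le hL
  ring_nf
  omega

/-- FZg -/
lemma Nm_e8 (R L z : ℕ) (hR : 1 ≤ R) (hz : 1 ≤ z) (hL : 1 ≤ L) :
    1 + (L * (R * (16 * z)) * (8 * (R * (16 * z))) + 4 * L * R * (R * (16 * z)) +
      (128 * L * R * (R * (16 * z)) * z + 16 * L * R * (R * (16 * z)))) ≤
      128 * L * R * (R * (16 * z)) * (2 * z) + 32 * L * R * (R * (16 * z)) := by
  obtain ⟨a, rfl⟩ := Nat.exists_eq_add_of_le hR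
  obtain ⟨b, rfl⟩ := Nat.exists_eq_add_of_le hz
  obtain ⟨d, rfl⟩ := Nat.exists_eq_add_of_le hL
  ring_nf
  omega

/-- FU, equality -/
lemma Nm_e9 (R L z : ℕ) :
    L * (R * (16 * z)) * (8 * (R * (16 * z))) +
      (128 * L * R * (R * (16 * z)) * z + 16 * L * R * (R * (16 * z))) =
      16 * L * R * (R * (16 * z)) * (16 * z + 1) := by
  ring

/-- FΨ -/
lemma Nm_e10 (R L z : ℕ) :
    L * (R * (16 * z)) * (8 * (R * (16 * z))) +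
      (128 * L * R * (R * (16 * z)) * z + 16 * L * R * (R * (16 * z))) =
      4 * L * R * (4 * (R * (16 * z)) * (16 * z + 1)) := by
  ring

/-- FC -/
lemma Nm_e11 (R L z : ℕ) (hR : 1 ≤ R) (hz : 1 ≤ z) (hL : 2 ^ 12 * R ^ 2 * z ^ 2 ≤ L) :
    L * (R * (16 * z)) * (8 * (R * (16 * z))) +
      (128 * L * R * (R * (16 * z)) * z + 16 * L * R * (R * (16 * z))) ≤
      96 * L * R * (R * (16 * z)) * (L - 16 * z) := by
  have h1 : 3 * z + 1 ≤ L - 16 * z := by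
    obtain ⟨a, rfl⟩ := Nat.exists_eq_add_of_le hR
    obtain ⟨b, rfl⟩ := Nat.exists_eq_add_of_le hz
    obtain ⟨d, rfl⟩ := Nat.exists_eq_add_of_le hL
    ring_nf
    omega
  refine le_trans ?_ (Nat.mul_le_mul_left _ h1)
  ring_nf
  omega

/-- FE -/
lemma Nm_e12 (R L z : ℕ) (hR : 1 ≤ R) (hz : 1 ≤ z) (hL : 2 ^ 12 * R ^ 2 * z ^ 2 ≤ L) :
    7 + R * (16 * z) + 6 * L + 256 * R * (z + 2) + (L * (R * (16 * z)) * (8 * (R * (16 * z))) +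
      (128 * L * R * (R * (16 * z)) * z + 16 * L * R * (R * (16 * z)))) ≤
      L * (R * (16 * z)) * (2 * (256 * R * (z + 2))) := by
  obtain ⟨a, rfl⟩ := Nat.exists_eq_add_of_le hR
  obtain ⟨b, rfl⟩ := Nat.exists_eq_add_of_le hz
  obtain ⟨d, rfl⟩ := Nat.exists_eq_add_of_le hL
  ring_nf
  omega

/-- F8 -/
lemma Nm_e13 (R L z : ℕ) (hR : 1 ≤ R) (hz : 1 ≤ z) (hL : 2 ^ 12 * R ^ 2 * z ^ 2 ≤ L) :
    1 + R + 4 * L + (32 * L * R * (R * (16 * z)) + 16 * L * R * (R * (16 * z)) +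
      L * (R * (16 * z)) * 2) ≤ 88 * L * R * (R * (16 * z)) := by
  obtain ⟨a, rfl⟩ := Nat.exists_eq_add_of_le hR
  obtain ⟨b, rfl⟩ := Nat.exists_eq_add_of_le hz
  obtain ⟨d, rfl⟩ := Nat.exists_eq_add_of_le hL
  ring_nf
  omega

/-- F10 -/
lemma Nm_e14 (R L z r : ℕ) (hR : 1 ≤ R) (hz : 1 ≤ z) (hL : 2 ^ 12 * R ^ 2 * z ^ 2 ≤ L)
    (hr : r ≤ L) :
    r + 2 * R + (128 * L * R * (R * (16 * z)) * (2 * z) + 32 * L * R * (R * (16 * z)) +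
      2 * (L * R)) ≤ 128 * L * R * (R * (16 * z)) * (2 * z + 2) := by
  obtain ⟨a, rfl⟩ := Nat.exists_eq_add_of_le hR
  obtain ⟨b, rfl⟩ := Nat.exists_eq_add_of_le hz
  obtain ⟨d, rfl⟩ := Nat.exists_eq_add_of_le hL
  ring_nf at hr ⊢
  omega

/-- F10' -/
lemma Nm_e15 (R L z r : ℕ) (hR : 1 ≤ R) (hz : 1 ≤ z) (hL : 2 ^ 12 * R ^ 2 * z ^ 2 ≤ L)
    (hr : r ≤ L) :
    3 + r + 2 * R + (8 * L * R * (R * (16 * z)) + 2 * ((L + 4 * L * R * (16 * z)) * R)) ≤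
      32 * L * R * (R * (16 * z)) := by
  obtain ⟨a, rfl⟩ := Nat.exists_eq_add_of_le hR
  obtain ⟨b, rfl⟩ := Nat.exists_eq_add_of_le hz
  obtain ⟨d, rfl⟩ := Nat.exists_eq_add_of_le hL
  ring_nf at hr ⊢
  omega

/-- F11 -/
lemma Nm_e16 (R L z : ℕ) (hR : 1 ≤ R) (hz : 1 ≤ z) (hL : 1 ≤ L) :
    1 + 8 * R * (R * (16 * z)) + 32 * L * R * (R * (16 * z)) + 16 * L * R * (R * (16 * z)) ≤
      96 * L * R * (R * (16 * z)) := by
  obtain ⟨a, rfl⟩ := Nat.exists_eq_add_of_le hR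
  obtain ⟨b, rfl⟩ := Nat.exists_eq_add_of_le hz
  obtain ⟨d, rfl⟩ := Nat.exists_eq_add_of_le hL
  ring_nf
  omega

/-- last -/
lemma Nm_e17 (R L z : ℕ) (hR : 1 ≤ R) (hz : 1 ≤ z) (hL : 1 ≤ L) :
    1 + 6 * L + 10 * (L * z) ≤ 16 * L * R * (R * (16 * z)) := by
  obtain ⟨a, rfl⟩ := Nat.exists_eq_add_of_le hR
  obtain ⟨b, rfl⟩ := Nat.exists_eq_add_of_le hz
  obtain ⟨d, rfl⟩ := Nat.exists_eq_add_of_le hL
  ring_nf
  omega

lemma Nm_e18 (R L z : ℕ) (hR : 1 ≤ R) (hz : 1 ≤ z) (hL : 1 ≤ L) :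
    1 + 3 * L + 0 ≤ 32 * L * R * (R * (16 * z)) := by
  obtain ⟨a, rfl⟩ := Nat.exists_eq_add_of_le hR
  obtain ⟨b, rfl⟩ := Nat.exists_eq_add_of_le hz
  obtain ⟨d, rfl⟩ := Nat.exists_eq_add_of_le hL
  ring_nf
  omega

lemma Nm_le {q : ℝ} (hq : 2 ≤ q) {a b c : ℕ} (h : a + b ≤ c) :
    (2 : ℝ) ^ a * q ^ b ≤ q ^ c := by
  have h1 : (2 : ℝ) ^ a ≤ q ^ a := pow_le_pow_left₀ (by norm_num) hq a
  have h2 : (2 : ℝ) ^ a * q ^ b ≤ q ^ a * q ^ b :=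
    mul_le_mul_of_nonneg_right h1 (pow_nonneg (by linarith) b)
  rw [← pow_add] at h2
  exact h2.trans (pow_le_pow_right₀ (by linarith) h)

lemma Nm_nat (a : ℕ) : (a : ℝ) ≤ 2 ^ a := by
  exact_mod_cast (Nat.lt_two_pow_self (n := a)).le

/-- `p * q ^ (8 R w) ≥ 1`. -/
lemma Nm_p (q : ℝ) (R L w n : ℕ) (p : ℝ) (hL : 1 ≤ L) (hp0 : 0 < p)
    (hp : 1 ≤ (n : ℝ) * p ^ (16 * L)) (hq : 2 ≤ q) (hqn : q ^ (128 * L * R * w) = n) :
    1 ≤ p * q ^ (8 * R * w) := by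
  have hq0 : 0 < q := by linarith
  by_contra hcon
  push Not at hcon
  have h1 : (p * q ^ (8 * R * w)) ^ (16 * L) < 1 :=
    pow_lt_one₀ (by positivity) hcon (by omega)
  have h2 : (n : ℝ) * p ^ (16 * L) = (p * q ^ (8 * R * w)) ^ (16 * L) := by
    rw [← hqn, mul_pow, ← pow_mul, mul_comm]
    congr 2
    ring
  linarith

/-- `n p ^ a ≥ q ^ b`. -/
lemma Nm_np (q : ℝ) (R L w n : ℕ) (p : ℝ) (hp0 : 0 < p) (hq : 2 ≤ q)
    (hqn : q ^ (128 * L * R * w) = n) (h8 : 1 ≤ p * q ^ (8 * R * w)) (a b : ℕ)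
    (hab : b + 8 * R * w * a = 128 * L * R * w) :
    q ^ b ≤ n * p ^ a := by
  have hq0 : 0 < q := by linarith
  have h2 : (n : ℝ) * p ^ a = q ^ b * (p * q ^ (8 * R * w)) ^ a := by
    rw [← hqn, ← hab, mul_pow, ← pow_mul, pow_add]
    ring
  rw [h2]
  exact le_mul_of_one_le_right (by positivity) (one_le_pow₀ h8)

/-- The bound of `t`. -/
lemma Nm_t (q : ℝ) (R w : ℕ) (p : ℝ) (hp0 : 0 < p) (hq : 2 ≤ q)
    (h8 : 1 ≤ p * q ^ (8 * R * w)) (g m m0 : ℕ) (hg : g ≤ w) (hm : m ≤ m0) :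
    ((⌊(q / p ^ g) ^ m / 2⌋₊ : ℕ) : ℝ) ≤ q ^ ((8 * R * w ^ 2 + 1) * m0) / 2 := by
  have hq0 : 0 < q := by linarith
  refine (Nat.floor_le (by positivity)).trans ?_
  have h1 : q / p ^ g ≤ q ^ (8 * R * w ^ 2 + 1) := by
    rw [div_le_iff₀ (by positivity)]
    have h2 : 1 ≤ (p * q ^ (8 * R * w)) ^ g := one_le_pow₀ h8
    have h3 : q ^ (8 * R * w * g + 1) ≤ q ^ (8 * R * w ^ 2 + 1) := by
      apply pow_le_pow_right₀ (by linarith)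
      have : 8 * R * w * g ≤ 8 * R * w * w := Nat.mul_le_mul_left _ hg
      nlinarith
    calc q ≤ q * (p * q ^ (8 * R * w)) ^ g := le_mul_of_one_le_right hq0.le h2
      _ = q ^ (8 * R * w * g + 1) * p ^ g := by
        rw [mul_pow, ← pow_mul, pow_succ]
        ring
      _ ≤ q ^ (8 * R * w ^ 2 + 1) * p ^ g :=
        mul_le_mul_of_nonneg_right h3 (by positivity)
  have h4 : (q / p ^ g) ^ m ≤ (q ^ (8 * R * w ^ 2 + 1)) ^ m :=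
    pow_le_pow_left₀ (by positivity) h1 m
  rw [← pow_mul] at h4
  have h5 : q ^ ((8 * R * w ^ 2 + 1) * m) ≤ q ^ ((8 * R * w ^ 2 + 1) * m0) :=
    pow_le_pow_right₀ (by linarith) (Nat.mul_le_mul_left _ hm)
  linarith

/-- Multiplying out `κ0`. -/
lemma Nm_κ {A B C D : ℝ} (hD : 0 < D) (h : A * D ≤ C * B) : A ≤ C / D * B := by
  rw [div_mul_eq_mul_div, le_div_iff₀ hD]
  exact h

/-- kβ -/
lemma Nm_kβ {q : ℝ} (hq : 2 ≤ q) (L m e : ℕ) (hm : m ≤ 4 * L) (he : L + 3 ≤ e * 2) :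
    (1 + 1 / (q ^ e) ^ 2) ^ m ≤ 2 := by
  have hq0 : 0 < q := by linarith
  have h1 : (8 : ℝ) * L ≤ (q ^ e) ^ 2 := by
    rw [← pow_mul]
    have h2 : (2 : ℝ) ^ (L + 3) * q ^ 0 ≤ q ^ (e * 2) := Nm_le hq (by omega)
    have h3 := Nm_nat L
    rw [pow_zero, mul_one, pow_add] at h2
    nlinarith
  have hX : 0 < (q ^ e) ^ 2 := by positivity
  have h3 : 1 + 1 / (q ^ e) ^ 2 ≤ Real.exp (1 / (q ^ e) ^ 2) := by
    have := Real.add_one_le_exp (1 / (q ^ e) ^ 2)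
    linarith
  have h4 : (1 + 1 / (q ^ e) ^ 2) ^ m ≤ Real.exp (m * (1 / (q ^ e) ^ 2)) := by
    rw [Real.exp_nat_mul]
    exact pow_le_pow_left₀ (by positivity) h3 m
  refine h4.trans ?_
  have h5 : (m : ℝ) * (1 / (q ^ e) ^ 2) ≤ 1 / 2 := by
    rw [mul_one_div, div_le_iff₀ hX]
    have : (m : ℝ) ≤ 4 * L := by exact_mod_cast hm
    linarith
  have h6 : Real.exp (1 / 2) ≤ 2 := by
    have h7 : Real.exp (1 / 2) ^ 2 = Real.exp 1 := by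
      rw [← Real.exp_nat_mul]
      norm_num
    have h8 := Real.exp_one_lt_d9
    have h9 := Real.exp_pos (1 / 2)
    nlinarith
  exact (Real.exp_le_exp.2 h5).trans h6

theorem numq_ok (q : ℝ) (R L z n N r : ℕ) (p : ℝ) (hR : 1 ≤ R) (hz : 1 ≤ z)
    (hL : 2 ^ 12 * R ^ 2 * z ^ 2 ≤ L) (hr : r ≤ L) (hp0 : 0 < p) (hp1 : p ≤ 1)
    (hp : 1 ≤ (n : ℝ) * p ^ (16 * L)) (hN : N ≤ n * 1024 ^ L)
    (hq : 2 ≤ q) (hqn : q ^ (128 * L * R * (R * (16 * z))) = n) :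
    (numq q R L z n N r p).OK R L ∧
      2 * 8 ^ L * ((N : ℝ) ^ z * (numq q R L z n N r p).κ0) ≤ 1 := by
  have hq0 : 0 < q := by linarith
  have hq1 : 1 ≤ q := by linarith
  have hL1 : 1 ≤ L := by have := Nm_a3 R L z hR hz hL; omega
  have h8 := Nm_p q R L (R * (16 * z)) n p hL1 hp0 hp hq hqn
  have h4 : q ^ (96 * L * R * (R * (16 * z))) ≤ n * p ^ (4 * L) :=
    Nm_np q R L (R * (16 * z)) n p hp0 hq hqn h8 _ _ (by ring)
  have h5 : q ^ (88 * L * R * (R * (16 * z))) ≤ n * p ^ (5 * L) :=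
    Nm_np q R L (R * (16 * z)) n p hp0 hq hqn h8 _ _ (by ring)
  have hn0 : (0 : ℝ) < n := by rw [← hqn]; positivity
  have hn0' : 0 < n := by exact_mod_cast hn0
  have hNr : (N : ℝ) ≤ n * 1024 ^ L := by exact_mod_cast hN
  have hD : 0 < (n : ℝ) ^ z * q ^ (16 * L * R * (R * (16 * z))) := by positivity
  have hDq : (n : ℝ) ^ z * q ^ (16 * L * R * (R * (16 * z))) =
      q ^ (128 * L * R * (R * (16 * z)) * z + 16 * L * R * (R * (16 * z))) := by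
    rw [← hqn, ← pow_mul, ← pow_add]
  have hw1 : 1 ≤ R * (16 * z) := Nat.mul_pos hR (by omega)
  have h8L : (1 : ℝ) ≤ 8 ^ L := one_le_pow₀ (by norm_num)
  have ht : ∀ g m : ℕ, g ≤ R * (16 * z) → m ≤ 4 * z + 6 →
      (((numq q R L z n N r p).t g m : ℕ) : ℝ) ≤
        q ^ ((8 * R * (R * (16 * z)) ^ 2 + 1) * (4 * z + 6)) / 2 := fun g m hg hm =>
    Nm_t q R (R * (16 * z)) p hp0 hq h8 g m (4 * z + 6) hg hm
  refine ⟨⟨hR, hL1, hn0', ?_, ?_, hp0, hp1, hq, ?_, ?_, ?_, ?_, ?_, ?_, ?_, ?_, rfl, ?_, ?_, ?_,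
    ?_, ?_, ?_, ?_, ?_, ?_, ?_, ?_, ?_, ?_, ?_, ?_, ?_, ?_, ?_, ?_, ?_, ?_, ?_, ?_, ?_, ?_⟩, ?_⟩
  · -- f_pos
    show 1 ≤ 16 * z
    omega
  · -- f_lt
    exact Nm_a3 R L z hR hz hL
  · -- β_ge
    show 16 ≤ q ^ (L * (R * (16 * z)))
    have h := Nm_le hq (a := 4) (b := 0) (c := L * (R * (16 * z))) (by nlinarith [Nat.mul_le_mul hL1 (Nat.mul_le_mul hR hz)])
    rw [pow_zero, mul_one] at h
    norm_num at h
    exact h
  · -- h_ge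
    exact one_le_pow₀ hq1
  · -- h1_ge
    exact one_le_pow₀ hq1
  · -- κ0_pos
    show 0 < (8 : ℝ) ^ L / _
    positivity
  · -- B_ge
    exact one_le_pow₀ hq1
  · -- Z1_ge
    exact one_le_pow₀ (by exact_mod_cast hn0')
  · -- G1_ge
    exact one_le_pow₀ hq1
  · -- m0_pos
    show 1 ≤ 4 * z + 6
    omega
  · -- ψm_le
    exact Nm_a1 R L z hR hz hL
  · -- s_ge
    exact Nm_a2 R L z hR hz hL
  · -- kβ
    refine Nm_kβ hq L _ _ ?_ ?_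
    · have h := Nm_a2 R L z hR hz hL
      show 256 * R * (z + 2) * (R * (16 * z)) ≤ 4 * L
      omega
    · nlinarith [Nat.mul_le_mul hL1 (Nat.mul_le_mul hR hz)]
  · -- F1
    intro g m hg1 hg hm1 hm
    show 4 * (g : ℝ) * q ^ L * (((numq q R L z n N r p).t g m : ℕ) : ℝ) ≤
      q ^ (L * (R * (16 * z)))
    have h1 := ht g m hg hm
    have h2 := Nm_le hq (Nm_e1 R L z hR hz hL)
    have hg' : g ≤ R * (16 * z) := hg
    have h3 : (g : ℝ) ≤ 2 ^ (R * (16 * z)) :=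
      le_trans (by exact_mod_cast hg') (Nm_nat (R * (16 * z)))
    refine le_trans ?_ h2
    rw [pow_add, pow_add q]
    have hA : 0 ≤ q ^ L := by positivity
    have hB : 0 ≤ q ^ ((8 * R * (R * (16 * z)) ^ 2 + 1) * (4 * z + 6)) := by positivity
    calc 4 * (g : ℝ) * q ^ L * (((numq q R L z n N r p).t g m : ℕ) : ℝ)
        ≤ 4 * (2 ^ (R * (16 * z))) * q ^ L *
          (q ^ ((8 * R * (R * (16 * z)) ^ 2 + 1) * (4 * z + 6)) / 2) := by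
          refine mul_le_mul (mul_le_mul_of_nonneg_right (by linarith) hA) h1
            (Nat.cast_nonneg _) (by positivity)
      _ = _ := by ring
  · -- FB
    intro g m hg1 hg hm1 hm
    show (((4 * z + 6 : ℕ) : ℕ) : ℝ) * (((numq q R L z n N r p).t g m : ℕ) : ℝ) ≤
      q ^ ((8 * R * (R * (16 * z)) ^ 2 + 2) * (4 * z + 6))
    have h1 := ht g m hg hm
    have h2 := Nm_le hq (a := 4 * z + 6)
      (b := (8 * R * (R * (16 * z)) ^ 2 + 1) * (4 * z + 6))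
      (c := (8 * R * (R * (16 * z)) ^ 2 + 2) * (4 * z + 6)) (le_of_eq (by ring))
    refine le_trans (mul_le_mul (Nm_nat _) h1 (Nat.cast_nonneg _) (by positivity)) ?_
    refine le_trans (mul_le_mul_of_nonneg_left ?_ (by positivity)) h2
    have hB : 0 ≤ q ^ ((8 * R * (R * (16 * z)) ^ 2 + 1) * (4 * z + 6)) := by positivity
    linarith
  · -- F2
    show 8 * 1024 ^ L * (N : ℝ) * (n : ℝ) ^ (2 * z + 2) ≤
      (q ^ (L * (R * (16 * z)))) ^ (256 * R * (z + 2))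
    have h2 := Nm_le hq (Nm_e2 R L z hR hz hL1)
    rw [← pow_mul]
    refine le_trans ?_ h2
    calc 8 * 1024 ^ L * (N : ℝ) * (n : ℝ) ^ (2 * z + 2)
        ≤ 8 * 1024 ^ L * (n * 1024 ^ L) * (n : ℝ) ^ (2 * z + 2) := by gcongr
      _ = _ := by
        rw [pow_mul q, hqn, pow_add (2 : ℝ), pow_mul (2 : ℝ) 20, pow_succ (n : ℝ) (2 * z + 2)]
        have : (1024 : ℝ) ^ L * 1024 ^ L = (2 ^ 20) ^ L := by
          rw [← mul_pow]
          norm_num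
        rw [← this]
        ring
  · -- F3
    show 8 * 2 ^ L * q ^ (32 * L * R * (R * (16 * z))) *
      q ^ ((8 * R * (R * (16 * z)) ^ 2 + 2) * (4 * z + 6)) *
      q ^ (16 * L * R * (R * (16 * z))) ≤ n * p ^ (4 * L)
    refine le_trans ?_ h4
    refine le_trans (le_of_eq ?_) (Nm_le hq (Nm_e3 R L z hR hz hL))
    rw [pow_add, pow_add q, pow_add q]
    ring
  · -- F4
    show 8 * 1024 ^ L * (n : ℝ) ^ (2 * z + 2) *
      (q ^ ((8 * R * (R * (16 * z)) ^ 2 + 2) * (4 * z + 6))) ^ (4 * z + 6) ≤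
      (n * p ^ (4 * L)) ^ (4 * z + 6)
    refine le_trans ?_ (pow_le_pow_left₀ (by positivity) h4 (4 * z + 6))
    rw [← pow_mul q (96 * L * R * (R * (16 * z)))]
    refine le_trans (le_of_eq ?_) (Nm_le hq (Nm_e4 R L z hR hz hL))
    rw [pow_add q, pow_mul q (128 * L * R * (R * (16 * z))), hqn, pow_add (2 : ℝ) 3,
      pow_mul (2 : ℝ) 10, pow_mul q _ (4 * z + 6)]
    norm_num
    ring
  · -- F5
    show 2 * q ^ L ≤ q ^ (4 * L * R)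
    have h := Nm_le hq (Nm_e5 R L hR hL1)
    rw [pow_one] at h
    exact h
  · -- FZ
    show 2 * (q ^ (L * (R * (16 * z)))) ^ (8 * (R * (16 * z))) *
      (q ^ (4 * L * R)) ^ (R * (16 * z)) ≤ 8 ^ L / _ * (n : ℝ) ^ (2 * z + 2)
    refine Nm_κ hD ?_
    rw [hDq]
    have h := Nm_le hq (Nm_e6 R L z hR hz hL1)
    rw [pow_mul q _ (2 * z + 2), hqn, pow_one, pow_add q, pow_add q, pow_mul q _ (8 * (R * (16 * z))),
      pow_mul q (4 * L * R)] at h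
    calc _ = _ := by ring
      _ ≤ _ := h
      _ ≤ _ := le_mul_of_one_le_left (by positivity) h8L
  · -- FG
    show 8 * (q ^ (4 * L * R)) ^ (2 * (R * (16 * z))) ≤ q ^ (32 * L * R * (R * (16 * z)))
    have h := Nm_le hq (Nm_e7 R L z hR hz hL1)
    rw [pow_mul q (4 * L * R)] at h
    norm_num at h ⊢
    exact h
  · -- FZg
    show 2 * (q ^ (L * (R * (16 * z)))) ^ (8 * (R * (16 * z))) *
      (q ^ (4 * L * R)) ^ (R * (16 * z)) ≤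
      8 ^ L / _ * ((n : ℝ) ^ (2 * z) * q ^ (32 * L * R * (R * (16 * z))))
    refine Nm_κ hD ?_
    rw [hDq]
    have h := Nm_le hq (Nm_e8 R L z hR hz hL1)
    rw [pow_add q _ (32 * L * R * (R * (16 * z))), pow_mul q _ (2 * z), hqn, pow_one,
      pow_add q, pow_add q, pow_mul q _ (8 * (R * (16 * z))),
      pow_mul q (4 * L * R)] at h
    calc _ = _ := by ring
      _ ≤ _ := h
      _ ≤ _ := le_mul_of_one_le_left (by positivity) h8L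
  · -- FGg
    show 8 * (q ^ (4 * L * R)) ^ (2 * (R * (16 * z))) ≤ 8 * q ^ (8 * L * R * (R * (16 * z)))
    rw [← pow_mul]
    refine le_of_eq ?_
    congr 2
    ring
  · -- FU
    show 8 ^ L * (q ^ (L * (R * (16 * z)))) ^ (8 * (R * (16 * z))) ≤
      8 ^ L / _ * (q ^ (16 * L * R * (R * (16 * z)))) ^ (16 * z + 1)
    refine Nm_κ hD ?_
    rw [hDq, ← pow_mul, ← pow_mul, mul_assoc, ← pow_add, Nm_e9 R L z]
  · -- FΨ
    show 8 ^ L * (q ^ (L * (R * (16 * z)))) ^ (8 * (R * (16 * z))) ≤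
      8 ^ L / _ * (q ^ (4 * L * R)) ^ (4 * (R * (16 * z)) * (16 * z + 1))
    refine Nm_κ hD ?_
    rw [hDq, ← pow_mul, ← pow_mul, mul_assoc, ← pow_add, Nm_e10 R L z]
  · -- FC
    show (q ^ (L * (R * (16 * z)))) ^ (8 * (R * (16 * z))) ≤
      8 ^ L / _ * (n * p ^ (4 * L)) ^ (L - 16 * z)
    refine Nm_κ hD ?_
    rw [hDq, ← pow_mul, ← pow_add]
    refine le_trans (pow_le_pow_right₀ hq1 (Nm_e11 R L z hR hz hL)) ?_
    rw [pow_mul q]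
    refine le_trans (pow_le_pow_left₀ (by positivity) h4 (L - 16 * z)) ?_
    exact le_mul_of_one_le_left (by positivity) h8L
  · -- FE
    show 100 * ((R * (16 * z) : ℕ) : ℝ) * 512 ^ L * 2 ^ (256 * R * (z + 2)) *
      (q ^ (L * (R * (16 * z)))) ^ (8 * (R * (16 * z))) ≤
      8 ^ L / _ * (q ^ (L * (R * (16 * z)))) ^ (2 * (256 * R * (z + 2)))
    refine Nm_κ hD ?_
    rw [hDq]
    have h := Nm_le hq (Nm_e12 R L z hR hz hL)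
    rw [← pow_mul q _ (2 * (256 * R * (z + 2))), ← pow_mul q _ (8 * (R * (16 * z)))]
    refine le_trans ?_ (mul_le_mul_of_nonneg_left h (by positivity : (0 : ℝ) ≤ 8 ^ L))
    rw [pow_add (2 : ℝ), pow_add (2 : ℝ), pow_add (2 : ℝ), pow_mul (2 : ℝ) 6,
      pow_add q (L * (R * (16 * z)) * (8 * (R * (16 * z))))]
    have hA : ((R * (16 * z) : ℕ) : ℝ) ≤ 2 ^ (R * (16 * z)) := Nm_nat _
    have hB : (512 : ℝ) ^ L = 8 ^ L * (2 ^ 6) ^ L := by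
      rw [← mul_pow]
      norm_num
    rw [hB]
    calc 100 * ((R * (16 * z) : ℕ) : ℝ) * (8 ^ L * (2 ^ 6) ^ L) * 2 ^ (256 * R * (z + 2)) *
        q ^ (L * (R * (16 * z)) * (8 * (R * (16 * z)))) *
        q ^ (128 * L * R * (R * (16 * z)) * z + 16 * L * R * (R * (16 * z)))
        ≤ 2 ^ 7 * 2 ^ (R * (16 * z)) * (8 ^ L * (2 ^ 6) ^ L) * 2 ^ (256 * R * (z + 2)) *
        q ^ (L * (R * (16 * z)) * (8 * (R * (16 * z)))) *
        q ^ (128 * L * R * (R * (16 * z)) * z + 16 * L * R * (R * (16 * z))) := by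
          gcongr
          norm_num
      _ = _ := by ring
  · -- F8
    show 2 * (R : ℝ) * 16 ^ L * q ^ (32 * L * R * (R * (16 * z))) *
      q ^ (16 * L * R * (R * (16 * z))) * (q ^ (L * (R * (16 * z)))) ^ 2 ≤ n * p ^ (5 * L)
    refine le_trans ?_ h5
    refine le_trans ?_ (Nm_le hq (Nm_e13 R L z hR hz hL))
    have hA : (R : ℝ) ≤ 2 ^ R := Nm_nat _
    rw [pow_add (2 : ℝ), pow_add (2 : ℝ), pow_mul (2 : ℝ) 4, pow_add q, pow_add q,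
      pow_mul q _ 2]
    calc 2 * (R : ℝ) * 16 ^ L * q ^ (32 * L * R * (R * (16 * z))) *
      q ^ (16 * L * R * (R * (16 * z))) * (q ^ (L * (R * (16 * z)))) ^ 2
        ≤ 2 * (2 ^ R) * 16 ^ L * q ^ (32 * L * R * (R * (16 * z))) *
      q ^ (16 * L * R * (R * (16 * z))) * (q ^ (L * (R * (16 * z)))) ^ 2 := by gcongr
      _ = _ := by
        norm_num
        ring
  · -- F9
    exact le_rfl
  · -- F9'
    exact le_rfl
  · -- F10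
    show (n : ℝ) ^ (2 * z) * q ^ (32 * L * R * (R * (16 * z))) * (2 * q ^ L) ^ R * 2 ^ r *
      (2 * q ^ L) ^ R ≤ (n : ℝ) ^ (2 * z + 2)
    have h := Nm_le hq (Nm_e14 R L z r hR hz hL hr)
    rw [pow_mul q _ (2 * z + 2), pow_add q, pow_add q, pow_mul q _ (2 * z), hqn] at h
    refine le_trans (le_of_eq ?_) h
    rw [mul_pow, ← pow_mul q L R, pow_add (2 : ℝ), pow_mul (2 : ℝ) 2, mul_comm 2 (L * R),
      pow_mul q _ 2]
    have : ((2 : ℝ) ^ 2) ^ R = 2 ^ R * 2 ^ R := by rw [← mul_pow]; norm_num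
    rw [this]
    ring
  · -- F10'
    show 8 * q ^ (8 * L * R * (R * (16 * z))) *
      (2 * q ^ L * (q ^ (4 * L * R)) ^ (16 * z)) ^ R * 2 ^ r *
      (2 * q ^ L * (q ^ (4 * L * R)) ^ (16 * z)) ^ R ≤ q ^ (32 * L * R * (R * (16 * z)))
    have h := Nm_le hq (Nm_e15 R L z r hR hz hL hr)
    refine le_trans (le_of_eq ?_) h
    rw [← pow_mul q (4 * L * R) (16 * z), mul_assoc 2 (q ^ L), ← pow_add, mul_pow, ← pow_mul q _ R,
      pow_add (2 : ℝ), pow_add (2 : ℝ), pow_mul (2 : ℝ) 2,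
      mul_comm 2 ((L + 4 * L * R * (16 * z)) * R), pow_add q (8 * L * R * (R * (16 * z))),
      pow_mul q _ 2]
    have : ((2 : ℝ) ^ 2) ^ R = 2 ^ R * 2 ^ R := by rw [← mul_pow]; norm_num
    rw [this]
    ring
  · -- F11
    show q / p * q ^ (32 * L * R * (R * (16 * z))) * q ^ (16 * L * R * (R * (16 * z))) ≤
      n * p ^ (4 * L)
    refine le_trans ?_ h4
    refine le_trans ?_ (pow_le_pow_right₀ hq1 (Nm_e16 R L z hR hz hL1))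
    rw [pow_add, pow_add, pow_add, pow_one]
    have hA : q / p ≤ q * q ^ (8 * R * (R * (16 * z))) := by
      rw [div_le_iff₀ hp0, mul_assoc, mul_comm _ p]
      exact le_mul_of_one_le_right hq0.le h8
    gcongr
  · -- F12
    show 2 * 8 ^ L ≤ (n : ℝ) ^ (2 * z) * q ^ (32 * L * R * (R * (16 * z))) * (2 * q ^ L) ^ R
    have hA : (1 : ℝ) ≤ (n : ℝ) ^ (2 * z) := one_le_pow₀ (by exact_mod_cast hn0')
    have hB : (1 : ℝ) ≤ (2 * q ^ L) ^ R := one_le_pow₀ (by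
      have : 1 ≤ q ^ L := one_le_pow₀ hq1
      linarith)
    have hC : 2 * 8 ^ L ≤ q ^ (32 * L * R * (R * (16 * z))) := by
      have h := Nm_le hq (a := 1 + 3 * L) (b := 0) (c := 32 * L * R * (R * (16 * z)))
        (Nm_e18 R L z hR hz hL1)
      rw [pow_zero, mul_one, pow_add, pow_mul, pow_one] at h
      norm_num at h
      exact h
    calc 2 * 8 ^ L ≤ q ^ (32 * L * R * (R * (16 * z))) := hC
      _ ≤ (n : ℝ) ^ (2 * z) * q ^ (32 * L * R * (R * (16 * z))) :=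
        le_mul_of_one_le_left (by positivity) hA
      _ ≤ _ := le_mul_of_one_le_right (by positivity) hB
  · -- F12'
    show 2 * 64 ^ L ≤ 8 * q ^ (8 * L * R * (R * (16 * z))) *
      (2 * q ^ L * (q ^ (4 * L * R)) ^ (16 * z)) ^ R
    have hB : (1 : ℝ) ≤ (2 * q ^ L * (q ^ (4 * L * R)) ^ (16 * z)) ^ R := one_le_pow₀ (by
      have h1 : 1 ≤ q ^ L := one_le_pow₀ hq1
      have h2 : 1 ≤ (q ^ (4 * L * R)) ^ (16 * z) := one_le_pow₀ (one_le_pow₀ hq1)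
      nlinarith)
    have hC : 2 * 64 ^ L ≤ 8 * q ^ (8 * L * R * (R * (16 * z))) := by
      have h := Nm_le hq (a := 6 * L) (b := 0) (c := 8 * L * R * (R * (16 * z))) (by
        nlinarith [Nat.mul_le_mul hL1 (Nat.mul_le_mul hR (Nat.mul_le_mul hR hz)),
          Nat.mul_le_mul (le_refl L) (Nat.mul_le_mul hR (Nat.mul_le_mul hR hz))])
      rw [pow_zero, mul_one, pow_mul] at h
      norm_num at h
      have : 0 < q ^ (8 * L * R * (R * (16 * z))) := by positivity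
      linarith
    calc 2 * 64 ^ L ≤ 8 * q ^ (8 * L * R * (R * (16 * z))) := hC
      _ ≤ _ := le_mul_of_one_le_right (by positivity) hB
  · -- last
    show 2 * 8 ^ L * ((N : ℝ) ^ z *
      (8 ^ L / ((n : ℝ) ^ z * q ^ (16 * L * R * (R * (16 * z)))))) ≤ 1
    have h := Nm_le hq (a := 1 + 6 * L + 10 * (L * z)) (b := 0) (Nm_e17 R L z hR hz hL1)
    have hNz : (N : ℝ) ^ z ≤ (n : ℝ) ^ z * (2 ^ 10) ^ (L * z) := by
      calc (N : ℝ) ^ z ≤ (n * 1024 ^ L) ^ z := pow_le_pow_left₀ (by positivity) hNr z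
        _ = _ := by
          rw [mul_pow, ← pow_mul]
          norm_num
    rw [pow_zero, mul_one, pow_add, pow_add, pow_mul _ 6, pow_mul _ 10, pow_one] at h
    have h64 : ((2 : ℝ) ^ 6) ^ L = 8 ^ L * 8 ^ L := by
      rw [← mul_pow]
      norm_num
    rw [h64] at h
    have hE : 2 * 8 ^ L * ((N : ℝ) ^ z *
      (8 ^ L / ((n : ℝ) ^ z * q ^ (16 * L * R * (R * (16 * z)))))) =
      2 * 8 ^ L * (N : ℝ) ^ z * 8 ^ L / ((n : ℝ) ^ z * q ^ (16 * L * R * (R * (16 * z)))) := by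
      ring
    rw [hE, div_le_one hD]
    calc 2 * 8 ^ L * (N : ℝ) ^ z * 8 ^ L ≤
        2 * 8 ^ L * ((n : ℝ) ^ z * (2 ^ 10) ^ (L * z)) * 8 ^ L := by gcongr
      _ = (n : ℝ) ^ z * (2 * (8 ^ L * 8 ^ L) * (2 ^ 10) ^ (L * z)) := by ring
      _ ≤ _ := mul_le_mul_of_nonneg_left h (by positivity)

end Pool.Agent.H49.RG
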