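/-
ROW Nq (about 200 lines). The numbers of the final theorem. `R = 64 c`, `L = k / R + 1`, `n = N / (R L)`, `w = R (16 z) = 1024 c z`, `E = 128 L R w`, `T = 2^22 c z k`. `k ≥ 2^30`, `N ≥ k^T`.
(0) `R ≤ k`, `k < R L ≤ k + R ≤ 2k` (Nat.div_add_mod, Nat.mod_lt); so `64 c L ≤ 2 k`, `32 c L ≤ k`. (1) first claim: Nat.div_mul_le_self. (2) `2^12 R² z² = 2^24 c² z² ≤ k / R` from `2^24 c² z² * (64 c) = 2^30 c³ z² ≤ k` (Nat.le_div_iff_mul_le).
(3) `n ≥ N/(2 R L) ≥ N/(4k) ≥ √N` (reals; `N ≥ 16 k²`, `N < (n+1) R L`). (4) `p^(16L) ≥ N^(-16 L c/k) ≥ N^(-1/2)` by (0), so `n p^(16L) ≥ √N N^(-1/2) = 1` (Real.rpow_natCast, Real.rpow_mul; `N ≥ 1`).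
(5) `N < (n+1) R L ≤ 2 n R L ≤ 4 k n`, and `4 k ≤ 4 R L = 256 c L ≤ 256 L² ≤ 1024^L` (`c ≤ L` by (2)).
(6) `q = n^(1/E)`, `q^E = n` (Real.rpow_natCast_mul / Real.rpow_inv_natCast_pow). `E = 2048 z R (R L) ≤ 2048 z 64 c 2 k = 2^18 c z k`. With `λ = log N ≥ T log k`: `log q = log n / E ≥ λ/(2E) ≥ λ/(2^19 c z k) =: μ ≥ 8 log k`. `λ = 2^19 c z k μ ≤ k² μ` (`2^19 c z ≤ 2^30 c³ z² ≤ k`).
 `L + w + 1 ≤ k/16` (`L ≤ k/32`.., `w = 1024 c z ≤ k/2^20`), so `64((L + w + 1) λ + L) ≤ 4 k λ + 64 L ≤ 8 k λ ≤ 8 k³ μ ≤ k^4 (μ/2) ≤ exp(μ/2) exp(μ/2) ≤ q` (`exp(μ/2) ≥ k^4` and `≥ μ/2`, `k ≥ 16`). Hence also `2 ≤ 64 L ≤ q`.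
(7) `√n ≥ N^(1/4)`, `log(N+1) ≤ 2 log N ≤ 16 N^(1/8)` (Real.log_le_rpow_div), `64 (L+1) 16 N^(1/8) ≤ 1024 k N^(1/8) ≤ N^(1/4)` as `(1024 k)^8 ≤ k^16 ≤ N`. (8) `4 R (4z+6) w ≤ 4·64·10·1024 c² z² ≤ k² ≤ N`.
-/
import Mathlib

set_option autoImplicit false

namespace Pool.Agent.H49.RG

theorem nq (c z k N R L n : ℕ) (p : ℝ) (hc : 1 ≤ c) (hz : 1 ≤ z)
    (hk : 2 ^ 30 * c ^ 3 * z ^ 2 ≤ k) (hN : k ^ (2 ^ 22 * c * z * k) ≤ N)
    (hp : (N : ℝ) ^ (-(c : ℝ) / k) ≤ p) (hR : R = 64 * c) (hL : L = k / R + 1)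
    (hn : n = N / (R * L)) :
    n * (R * L) ≤ N ∧ k ≤ R * L ∧ 2 ^ 12 * R ^ 2 * z ^ 2 ≤ L ∧ 1 ≤ (n : ℝ) * p ^ (16 * L) ∧
      N ≤ n * 1024 ^ L ∧ 64 * (L + 1) * Real.log (N + 1) ≤ Real.sqrt n ∧
      4 * (R * (4 * z + 6) * (R * (16 * z))) ≤ N ∧ ∃ q : ℝ, 2 ≤ q ∧
      q ^ (128 * L * R * (R * (16 * z))) = n ∧
      64 * ((L + (R * (16 * z) : ℕ) + 1) * Real.log N + L) ≤ q := by
  -- natural number facts
  have hcz : c * z ≤ c ^ 3 * z ^ 2 := by
    have h1 : c ≤ c ^ 3 := Nat.le_self_pow (by norm_num) c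
    have h2 : z ≤ z ^ 2 := Nat.le_self_pow (by norm_num) z
    exact Nat.mul_le_mul h1 h2
  have hcz1 : 1 ≤ c * z := Nat.mul_pos hc hz
  have hkcz : 2 ^ 30 * (c * z) ≤ k := by
    refine le_trans ?_ hk
    rw [mul_assoc]
    exact Nat.mul_le_mul_left _ hcz
  have hk30 : 2 ^ 30 ≤ k := by
    refine le_trans ?_ hkcz
    calc 2 ^ 30 = 2 ^ 30 * 1 := by norm_num
      _ ≤ 2 ^ 30 * (c * z) := Nat.mul_le_mul_left _ hcz1
  have hkc : 2 ^ 30 * c ≤ k := by
    refine le_trans ?_ hkcz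
    exact Nat.mul_le_mul_left _ (Nat.le_mul_of_pos_right c hz)
  have hRpos : 0 < R := by omega
  have hRk : R ≤ k := by omega
  have hRL1 : k < R * L := by
    rw [hL]
    exact Nat.lt_mul_div_succ k hRpos
  have hRL2 : R * L ≤ k + R := by
    rw [hL, mul_add, mul_one]
    exact Nat.add_le_add_right (Nat.mul_div_le k R) R
  have hLpos : 1 ≤ L := by rw [hL]; exact Nat.le_add_left 1 _
  have hRLpos : 0 < R * L := Nat.mul_pos hRpos hLpos
  have c3 : 2 ^ 12 * R ^ 2 * z ^ 2 ≤ L := by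
    rw [hL]
    refine le_trans ?_ (Nat.le_succ _)
    rw [Nat.le_div_iff_mul_le hRpos]
    refine le_trans (le_of_eq ?_) hk
    rw [hR]; ring
  have hcL : c ≤ L := by
    refine le_trans ?_ c3
    rw [hR]
    have h1 : c ≤ c ^ 2 := Nat.le_self_pow (by norm_num) c
    have h2 : 1 ≤ z ^ 2 := Nat.one_le_pow _ _ hz
    calc c = c * 1 := (mul_one c).symm
      _ ≤ c ^ 2 * z ^ 2 := Nat.mul_le_mul h1 h2
      _ ≤ 2 ^ 12 * 64 ^ 2 * (c ^ 2 * z ^ 2) := Nat.le_mul_of_pos_left _ (by norm_num)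
      _ = 2 ^ 12 * (64 * c) ^ 2 * z ^ 2 := by ring
  have hT : 2 ^ 22 ≤ 2 ^ 22 * c * z * k := by
    have : 1 ≤ c * z * k := Nat.mul_pos hcz1 (by omega)
    calc 2 ^ 22 = 2 ^ 22 * 1 := by norm_num
      _ ≤ 2 ^ 22 * (c * z * k) := Nat.mul_le_mul_left _ this
      _ = 2 ^ 22 * c * z * k := by ring
  have hkpow : ∀ j : ℕ, j ≤ 2 ^ 22 → k ^ j ≤ N := fun j hj =>
    le_trans (Nat.pow_le_pow_right (by omega) (hj.trans hT)) hN
  have hkN : k ≤ N := by simpa using hkpow 1 (by norm_num)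
  have hk16N : k ^ 16 ≤ N := hkpow 16 (by norm_num)
  have hk3N : k ^ 3 ≤ N := hkpow 3 (by norm_num)
  have hLk : 64 * L ≤ k + 64 := by
    have : R * L = 64 * c * L := by rw [hR]
    have h2 : 64 * c * L ≤ k + 64 * c := by rw [← hR]; exact hRL2
    have h3 : c * (64 * (L - 1)) ≤ k := by
      obtain ⟨m, rfl⟩ : ∃ m, L = m + 1 := ⟨L - 1, by omega⟩
      simp only [Nat.add_sub_cancel]
      nlinarith
    have h4 : 64 * (L - 1) ≤ c * (64 * (L - 1)) := Nat.le_mul_of_pos_left _ hc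
    omega
  have hnpos : 1 ≤ n := by
    rw [hn]
    rw [Nat.one_le_div_iff hRLpos]
    have : R * L ≤ 2 * k := by omega
    refine this.trans (le_trans ?_ hk3N)
    calc 2 * k ≤ (k * k) * k := Nat.mul_le_mul_right _ (by nlinarith)
      _ = k ^ 3 := by ring
  have hNn : N ≤ 2 * n * (R * L) := by
    have h1 : N < (R * L) * (N / (R * L) + 1) := Nat.lt_mul_div_succ N hRLpos
    rw [← hn] at h1
    nlinarith
  -- real facts
  have hkR : (2 : ℝ) ^ 30 ≤ k := by exact_mod_cast hk30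
  have hkR0 : (0 : ℝ) < k := lt_of_lt_of_le (by norm_num) hkR
  have hNR : (1 : ℝ) ≤ N := by exact_mod_cast (le_trans (by omega : 1 ≤ k) hkN)
  have hNR0 : (0 : ℝ) < N := by linarith
  have hnN : Real.sqrt N ≤ n := by
    -- N ≤ 4 k n and 4k ≤ √N
    have h1 : (N : ℝ) ≤ 4 * k * n := by
      have : N ≤ 4 * k * n := by
        refine hNn.trans ?_
        have : R * L ≤ 2 * k := by omega
        nlinarith
      exact_mod_cast this
    have h2 : 4 * (k : ℝ) ≤ Real.sqrt N := by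
      apply Real.le_sqrt_of_sq_le
      have : (4 * k) ^ 2 ≤ N := by
        refine le_trans ?_ hk3N
        have h16 : 16 ≤ k := by omega
        calc (4 * k) ^ 2 = 16 * k ^ 2 := by ring
          _ ≤ k * k ^ 2 := Nat.mul_le_mul_right _ h16
          _ = k ^ 3 := by ring
      exact_mod_cast this
    have h3 : Real.sqrt N * Real.sqrt N = N := Real.mul_self_sqrt hNR0.le
    have h4 : 0 < Real.sqrt N := Real.sqrt_pos.2 hNR0
    have h5 : Real.sqrt N * Real.sqrt N ≤ Real.sqrt N * n := by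
      rw [h3]
      refine h1.trans ?_
      exact mul_le_mul_of_nonneg_right h2 (Nat.cast_nonneg n)
    exact le_of_mul_le_mul_left h5 h4
  have hlogk : 0 < Real.log k := Real.log_pos (by linarith [hkR])
  have hlogN : (2 ^ 22 * c * z * k : ℝ) * Real.log k ≤ Real.log N := by
    have h1 : ((k : ℝ) ^ (2 ^ 22 * c * z * k)) ≤ N := by exact_mod_cast hN
    have h2 := Real.log_le_log (by positivity) h1
    rw [Real.log_pow] at h2
    push_cast at h2
    linarith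
  have hcR : (1 : ℝ) ≤ c := by exact_mod_cast hc
  have hzR : (1 : ℝ) ≤ z := by exact_mod_cast hz
  have hLR : (64 : ℝ) * L ≤ k + 64 := by exact_mod_cast hLk
  have hLR1 : (1 : ℝ) ≤ L := by exact_mod_cast hLpos
  have hczR : (2 : ℝ) ^ 30 * (c * z) ≤ k := by exact_mod_cast hkcz
  have hlogn : Real.log N / 2 ≤ Real.log n := by
    have h1 := Real.log_le_log (Real.sqrt_pos.2 hNR0) hnN
    rw [Real.log_sqrt hNR0.le] at h1
    exact h1
  refine ⟨?_, hRL1.le, c3, ?_, ?_, ?_, ?_, ?_⟩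
  · rw [hn]; exact Nat.div_mul_le_self N (R * L)
  · -- 1 ≤ n p^(16 L)
    have hp0 : 0 < (N : ℝ) ^ (-(c : ℝ) / k) := Real.rpow_pos_of_pos hNR0 _
    have h1 : ((N : ℝ) ^ (-(c : ℝ) / k)) ^ (16 * L) ≤ p ^ (16 * L) :=
      pow_le_pow_left₀ hp0.le hp _
    have h2 : (N : ℝ) ^ (-(1 / 2 : ℝ)) ≤ ((N : ℝ) ^ (-(c : ℝ) / k)) ^ (16 * L) := by
      rw [← Real.rpow_natCast, ← Real.rpow_mul hNR0.le]
      apply Real.rpow_le_rpow_of_exponent_le hNR
      have h3 : (64 : ℝ) * c * L ≤ 2 * k := by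
        have : 64 * c * L ≤ 2 * k := by rw [← hR]; omega
        exact_mod_cast this
      push_cast
      rw [div_mul_eq_mul_div, le_div_iff₀ hkR0]
      nlinarith
    have h3 : (1 : ℝ) = Real.sqrt N * (N : ℝ) ^ (-(1 / 2 : ℝ)) := by
      rw [Real.sqrt_eq_rpow, ← Real.rpow_add hNR0]
      norm_num
    rw [h3]
    exact mul_le_mul hnN (h2.trans h1) (Real.rpow_nonneg hNR0.le _) (Nat.cast_nonneg n)
  · -- N ≤ n 1024^L
    refine hNn.trans ?_
    have h1 : 2 * (R * L) ≤ 1024 ^ L := by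
      have h2 : L ≤ 2 ^ L := Nat.lt_two_pow_self.le
      have h3 : (256 : ℕ) ≤ 256 ^ L := Nat.le_self_pow (by omega) 256
      calc 2 * (R * L) = 128 * (c * L) := by rw [hR]; ring
        _ ≤ 128 * (L * L) := Nat.mul_le_mul_left _ (Nat.mul_le_mul_right _ hcL)
        _ ≤ 256 * (L * L) := Nat.mul_le_mul_right _ (by norm_num)
        _ ≤ 256 ^ L * (2 ^ L * 2 ^ L) := Nat.mul_le_mul h3 (Nat.mul_le_mul h2 h2)
        _ = 1024 ^ L := by rw [← mul_pow, ← mul_pow]; norm_num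
    calc 2 * n * (R * L) = n * (2 * (R * L)) := by ring
      _ ≤ n * 1024 ^ L := Nat.mul_le_mul_left _ h1
  · -- 64 (L+1) log (N+1) ≤ √n
    have h1 : Real.log (N + 1) ≤ 16 * (N : ℝ) ^ (1 / 8 : ℝ) := by
      have h2 : Real.log ((N : ℝ) + 1) ≤ 2 * Real.log N := by
        have h3 : (N : ℝ) + 1 ≤ (N : ℝ) ^ 2 := by
          have : (2 : ℝ) ≤ N := by
            have : 2 ≤ N := le_trans (by omega) hkN
            exact_mod_cast this
          nlinarith
        have h4 := Real.log_le_log (by positivity) h3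
        rw [Real.log_pow] at h4
        exact_mod_cast h4
      have h5 : Real.log N ≤ (N : ℝ) ^ (1 / 8 : ℝ) / (1 / 8) :=
        Real.log_le_rpow_div hNR0.le (by norm_num)
      have h6 : (N : ℝ) ^ (1 / 8 : ℝ) / (1 / 8) = 8 * (N : ℝ) ^ (1 / 8 : ℝ) := by ring
      rw [h6] at h5
      linarith
    have h2 : (N : ℝ) ^ (1 / 4 : ℝ) ≤ Real.sqrt n := by
      have h3 : (N : ℝ) ^ (1 / 4 : ℝ) = Real.sqrt (Real.sqrt N) := by
        rw [Real.sqrt_eq_rpow, Real.sqrt_eq_rpow, ← Real.rpow_mul hNR0.le]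
        norm_num
      rw [h3]
      exact Real.sqrt_le_sqrt hnN
    have h3 : (1024 : ℝ) * k ≤ (N : ℝ) ^ (1 / 8 : ℝ) := by
      have h4 : ((1024 : ℝ) * k) ^ 8 ≤ N := by
        have h5 : (1024 * k) ^ 8 ≤ N := by
          refine le_trans ?_ hk16N
          calc (1024 * k) ^ 8 ≤ (k * k) ^ 8 :=
                Nat.pow_le_pow_left (Nat.mul_le_mul_right _ (by omega)) 8
            _ = k ^ 16 := by ring
        exact_mod_cast h5
      have h6 : (1024 : ℝ) * k = (((1024 : ℝ) * k) ^ 8) ^ (1 / 8 : ℝ) := by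
        rw [← Real.rpow_natCast, ← Real.rpow_mul (by positivity)]
        norm_num
      rw [h6]
      exact Real.rpow_le_rpow (by positivity) h4 (by norm_num)
    have h4 : (L : ℝ) + 1 ≤ k := by linarith
    have h5 : (N : ℝ) ^ (1 / 4 : ℝ) = (N : ℝ) ^ (1 / 8 : ℝ) * (N : ℝ) ^ (1 / 8 : ℝ) := by
      rw [← Real.rpow_add hNR0]; norm_num
    have h6 : 0 ≤ (N : ℝ) ^ (1 / 8 : ℝ) := Real.rpow_nonneg hNR0.le _
    calc 64 * ((L : ℝ) + 1) * Real.log (N + 1)
        ≤ 64 * ((L : ℝ) + 1) * (16 * (N : ℝ) ^ (1 / 8 : ℝ)) :=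
          mul_le_mul_of_nonneg_left h1 (by positivity)
      _ = 1024 * ((L : ℝ) + 1) * (N : ℝ) ^ (1 / 8 : ℝ) := by ring
      _ ≤ 1024 * k * (N : ℝ) ^ (1 / 8 : ℝ) := by
          apply mul_le_mul_of_nonneg_right _ h6
          linarith
      _ ≤ (N : ℝ) ^ (1 / 8 : ℝ) * (N : ℝ) ^ (1 / 8 : ℝ) := mul_le_mul_of_nonneg_right h3 h6
      _ = (N : ℝ) ^ (1 / 4 : ℝ) := h5.symm
      _ ≤ Real.sqrt n := h2
  · -- 4 R (4z+6) R 16 z ≤ N
    refine le_trans ?_ hkN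
    refine le_trans ?_ hk
    have h1 : c ^ 2 ≤ c ^ 3 := Nat.pow_le_pow_right hc (by norm_num)
    calc 4 * (R * (4 * z + 6) * (R * (16 * z))) = 2 ^ 18 * (c ^ 2 * (z * (4 * z + 6))) := by
          rw [hR]; ring
      _ ≤ 2 ^ 18 * (c ^ 3 * (z * (10 * z))) := by
          apply Nat.mul_le_mul_left
          apply Nat.mul_le_mul h1
          apply Nat.mul_le_mul_left
          omega
      _ ≤ 2 ^ 30 * c ^ 3 * z ^ 2 := by
          have : 0 ≤ c ^ 3 * z ^ 2 := Nat.zero_le _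
          nlinarith
  · -- the number q
    set w : ℕ := R * (16 * z) with hw
    set E : ℕ := 128 * L * R * w with hE
    have hEpos : 0 < E := by positivity
    have hER : (0 : ℝ) < E := by exact_mod_cast hEpos
    have hnR : (1 : ℝ) ≤ n := by exact_mod_cast hnpos
    have hE2 : (E : ℝ) ≤ 2 ^ 18 * c * z * k := by
      have : E ≤ 2 ^ 18 * c * z * k := by
        calc E = 2 ^ 17 * c * z * (R * L) := by rw [hE, hw]; rw [hR]; ring
          _ ≤ 2 ^ 17 * c * z * (2 * k) := Nat.mul_le_mul_left _ (by omega)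
          _ = 2 ^ 18 * c * z * k := by ring
      exact_mod_cast this
    have hD : (0 : ℝ) < 2 ^ 19 * c * z * k := by positivity
    set μ : ℝ := Real.log N / (2 ^ 19 * c * z * k) with hμ
    have hlm : Real.log N = 2 ^ 19 * c * z * k * μ := by
      rw [hμ]; field_simp
    have hμ8 : 8 * Real.log k ≤ μ := by
      rw [hμ, le_div_iff₀ hD]
      linarith
    have hμ0 : 0 < μ := by linarith
    have hl0 : 0 < Real.log N := by rw [hlm]; positivity
    refine ⟨(n : ℝ) ^ ((E : ℝ)⁻¹), ?_⟩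
    have hlogq : Real.log ((n : ℝ) ^ ((E : ℝ)⁻¹)) = (E : ℝ)⁻¹ * Real.log n :=
      Real.log_rpow (by linarith) _
    have hq0 : 0 < (n : ℝ) ^ ((E : ℝ)⁻¹) := Real.rpow_pos_of_pos (by linarith) _
    have hμq : μ ≤ Real.log ((n : ℝ) ^ ((E : ℝ)⁻¹)) := by
      rw [hlogq, ← div_eq_inv_mul, le_div_iff₀ hER]
      refine le_trans ?_ hlogn
      have : μ * E ≤ μ * (2 ^ 18 * c * z * k) := mul_le_mul_of_nonneg_left hE2 hμ0.le
      linarith
    have hq1 : Real.exp μ ≤ (n : ℝ) ^ ((E : ℝ)⁻¹) := by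
      rw [← Real.exp_log hq0]
      exact Real.exp_le_exp.2 hμq
    have hexp : (k : ℝ) ^ 4 * (μ / 2) ≤ Real.exp μ := by
      have h1 : Real.exp μ = Real.exp (μ / 2) * Real.exp (μ / 2) := by
        rw [← Real.exp_add]; ring_nf
      have h2 : (k : ℝ) ^ 4 ≤ Real.exp (μ / 2) := by
        have h3 : (k : ℝ) ^ 4 = Real.exp (4 * Real.log k) := by
          rw [mul_comm, Real.exp_mul, Real.exp_log hkR0]
          norm_cast
        rw [h3]
        apply Real.exp_le_exp.2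
        linarith
      have h4 : μ / 2 ≤ Real.exp (μ / 2) := by
        have := Real.add_one_le_exp (μ / 2)
        linarith
      rw [h1]
      exact mul_le_mul h2 h4 (by positivity) (Real.exp_nonneg _)
    have hwR : ((w : ℕ) : ℝ) = 1024 * (c * z) := by
      rw [hw, hR]; push_cast; ring
    have hLw : (L : ℝ) + w + 1 ≤ k / 16 := by
      rw [hwR]
      linarith
    have hl1 : 1 ≤ Real.log N := by
      have h1 : (1 : ℝ) ≤ 8 * Real.log k := by
        have h2 : Real.log 2 ≤ Real.log k := Real.log_le_log (by norm_num) (by linarith)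
        have := Real.log_two_gt_d9
        linarith
      rw [hlm]
      have h3 : (1 : ℝ) ≤ 2 ^ 19 * c * z * k := by
        have h5 : (1 : ℝ) ≤ c * z := by exact_mod_cast hcz1
        have h6 : (1 : ℝ) * 1 ≤ (c * z) * k := mul_le_mul h5 (by linarith) (by norm_num) (by positivity)
        linarith
      have h4 : (1 : ℝ) ≤ μ := by linarith
      calc (1 : ℝ) = 1 * 1 := by norm_num
        _ ≤ 2 ^ 19 * c * z * k * μ := mul_le_mul h3 h4 (by norm_num) (by positivity)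
    have hlk : Real.log N ≤ (k : ℝ) ^ 2 * μ := by
      rw [hlm]
      have h1 : (2 : ℝ) ^ 19 * c * z * k ≤ (k : ℝ) ^ 2 := by
        have h2 : (2 : ℝ) ^ 19 * (c * z) ≤ k := by
          have : 0 ≤ (c : ℝ) * z := by positivity
          linarith
        calc (2 : ℝ) ^ 19 * c * z * k = (2 ^ 19 * (c * z)) * (k : ℝ) := by ring
          _ ≤ (k : ℝ) * k := mul_le_mul_of_nonneg_right h2 hkR0.le
          _ = (k : ℝ) ^ 2 := by ring
      exact mul_le_mul_of_nonneg_right h1 hμ0.le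
    have hmain : 64 * ((L + (w : ℝ) + 1) * Real.log N + L) ≤ (n : ℝ) ^ ((E : ℝ)⁻¹) := by
      refine le_trans ?_ hq1
      refine le_trans ?_ hexp
      have h1 : (L + (w : ℝ) + 1) * Real.log N ≤ k / 16 * Real.log N :=
        mul_le_mul_of_nonneg_right hLw hl0.le
      have h2 : (L : ℝ) ≤ k / 16 * Real.log N := by
        have h3 : (L : ℝ) ≤ k / 16 := by linarith
        calc (L : ℝ) ≤ k / 16 := h3
          _ = k / 16 * 1 := by ring
          _ ≤ k / 16 * Real.log N := mul_le_mul_of_nonneg_left hl1 (by positivity)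
      have h3 : 64 * ((L + (w : ℝ) + 1) * Real.log N + L) ≤ 8 * k * Real.log N := by linarith
      have h4 : 8 * k * Real.log N ≤ 8 * k * (k ^ 2 * μ) :=
        mul_le_mul_of_nonneg_left hlk (by positivity)
      have h5 : 8 * k * ((k : ℝ) ^ 2 * μ) ≤ k ^ 4 * (μ / 2) := by
        have h6 : (16 : ℝ) ≤ k := by linarith
        have h7 : (0 : ℝ) ≤ k ^ 3 * (μ / 2) := by positivity
        calc 8 * k * ((k : ℝ) ^ 2 * μ) = 16 * (k ^ 3 * (μ / 2)) := by ring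
          _ ≤ k * (k ^ 3 * (μ / 2)) := mul_le_mul_of_nonneg_right h6 h7
          _ = k ^ 4 * (μ / 2) := by ring
      linarith
    refine ⟨?_, ?_, hmain⟩
    · refine le_trans ?_ hmain
      have h1 : 0 ≤ (L + (w : ℝ) + 1) * Real.log N := by positivity
      linarith
    · exact Real.rpow_inv_natCast_pow (by linarith) hEpos.ne'

end Pool.Agent.H49.RG
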