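/-
ROW Rf (about 80 lines). From group refutations to `Ref`.
PROOF. `choose` the functions `Fs : Fin S → Fin R → (Fin k → Fin N) → ℝ` from `split`. For `g : Fin L → Fin N` let `e g : Fin k → Fin N`, `i ↦ g ⟨i / R, _⟩` (`i < k ≤ R * L`). `F s a g = if hs : s < S then Fs ⟨s, hs⟩ a (e g) else 0`, `t = 0`.
For `X : Fin R → Fin L → Fin N` let `u i = X ⟨i % R, _⟩ ⟨i / R, _⟩`. By `dep` (first part of split) `Fs s a (e (X a)) = Fs s a u` (for `i % R = a`: `e (X a) i = X a (i/R) = u i`), so `∑ a, F s a (X a) = f s u` for `s < S`.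
step: `P`, `i ≠ j` from h.step; `prem` = the image of `P` under `Fin.val` (card ≤ q); `(a, i') = (i % R, i / R)`, `(b, j') = (j % R, j / R)`, different since `i ≠ j` (`Nat.div_add_mod`). last: `s0` from h.last. (The condition `X a j ∈ V a j` is not used.)
-/
import Pool.Agent.H49.RG.Stmt
import Pool.Agent.H49.RG.Dsc

set_option autoImplicit false

namespace Pool.Agent.H49.RG

open Finset

theorem ref_of {N k q S R L : ℕ} (hR : 1 ≤ R) (hk : k ≤ R * L) (G : SimpleGraph (Fin N))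
    (V : Fin R → Fin L → Finset (Fin N)) {f : Fin S → (Fin k → Fin N) → ℝ}
    (h : GroupRefutation G R q S f) : ∃ F t, Ref G V q S F t := by
  have hdiv : ∀ i : Fin k, (i : ℕ) / R < L := fun i =>
    Nat.div_lt_of_lt_mul (lt_of_lt_of_le i.2 hk)
  have hmod : ∀ i : Fin k, (i : ℕ) % R < R := fun i => Nat.mod_lt _ hR
  choose Fs hFs1 hFs2 using h.split
  set e : (Fin L → Fin N) → Fin k → Fin N := fun g i => g ⟨(i : ℕ) / R, hdiv i⟩ with he
  set F : ℕ → Fin R → (Fin L → Fin N) → ℝ := fun s a g =>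
    if hs : s < S then Fs ⟨s, hs⟩ a (e g) else 0 with hF
  have key : ∀ (s : Fin S) (X : Fin R → Fin L → Fin N),
      ∑ a, F s a (X a) = f s (fun i => X ⟨(i : ℕ) % R, hmod i⟩ ⟨(i : ℕ) / R, hdiv i⟩) := by
    intro s X
    rw [hFs2]
    refine Finset.sum_congr rfl fun a _ => ?_
    have h1 : F s a (X a) = Fs s a (e (X a)) := by
      simp only [hF]
      rw [dif_pos s.2]
    rw [h1]
    refine hFs1 s a _ _ fun i hi => ?_
    have h2 : (⟨(i : ℕ) % R, hmod i⟩ : Fin R) = a := Fin.ext hi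
    simp only [he]
    rw [h2]
  refine ⟨F, fun _ => 0, ?_, ?_⟩
  · intro s hs
    obtain ⟨P, i, j, hP1, hP2, hij, hP3⟩ := h.step ⟨s, hs⟩
    refine ⟨P.image Fin.val, card_image_le.trans hP1, ?_, ⟨(i : ℕ) % R, hmod i⟩,
      ⟨(j : ℕ) % R, hmod j⟩, ⟨(i : ℕ) / R, hdiv i⟩, ⟨(j : ℕ) / R, hdiv j⟩, ?_, ?_⟩
    · intro s' hs'
      obtain ⟨p, hp, rfl⟩ := Finset.mem_image.1 hs'
      exact hP2 p hp
    · intro h1
      have h2 := congrArg (fun z : Fin R × Fin L => (z.1 : ℕ)) h1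
      have h3 := congrArg (fun z : Fin R × Fin L => (z.2 : ℕ)) h1
      simp only at h2 h3
      apply hij
      apply Fin.ext
      rw [← Nat.div_add_mod (i : ℕ) R, ← Nat.div_add_mod (j : ℕ) R, h2, h3]
    · intro X _ h1 h2
      rw [key ⟨s, hs⟩ X] at h1
      obtain ⟨p, hp, h3⟩ := hP3 _ h1 h2
      refine ⟨p, Finset.mem_image_of_mem _ hp, ?_⟩
      rw [key p X]
      exact h3
  · obtain ⟨s, hs⟩ := h.last
    refine ⟨s, s.2, fun X _ => ?_⟩
    rw [key s X]
    exact hs _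

end Pool.Agent.H49.RG
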